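import Pool.Agent.NH35.HK.Sys

set_option autoImplicit false
set_option linter.unusedSectionVars false

/-!
# Every system is a combination of integral systems
-/

namespace Pool.Agent.NH35.HK

open Finset

namespace A1h6

variable {ι : Type} [Fintype ι] [DecidableEq ι] {H : ι → Type} [∀ i, CommGroup (H i)]
  [∀ i, Fintype (H i)] [∀ i, DecidableEq (H i)]

/-- the kernel which reproduces the test functions in one coordinate -/
def ker (ℓ : ι) (I : Finset ι) (q : ι) (a s : H q) : ℤ :=
  if q = ℓ then (if a = s then 1 else 0)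
  else if q ∈ I then (if a = s then 1 else 0) - (if a = 1 then 1 else 0)
  else (if s = 1 then 1 else 0)

lemma ker_rep (ℓ : ι) (I : Finset ι) {Q : Type} [AddCommGroup Q] (F : (∀ i, H i) → Q)
    (hF : Tst ℓ I F) (q : ι) (u : ∀ i, H i) :
    ∑ s : H q, ker ℓ I q (u q) s • F (Function.update u q s) = F u := by
  have hself : ∑ s : H q, (if u q = s then (1:ℤ) else 0) • F (Function.update u q s) = F u := by
    rw [Finset.sum_eq_single (u q)]
    · simp
    · intro b _ hb
      rw [if_neg (Ne.symm hb), zero_smul]
    · intro h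
      exact absurd (mem_univ _) h
  unfold ker
  by_cases hq : q = ℓ
  · simp only [if_pos hq]
    exact hself
  · by_cases hqI : q ∈ I
    · simp only [if_neg hq, if_pos hqI, sub_smul, sum_sub_distrib]
      rw [hself, ← Finset.smul_sum]
      have h0 : ∑ s : H q, F (Function.update u q s) = 0 := hF.nul q hqI hq u
      rw [h0, smul_zero, sub_zero]
    · simp only [if_neg hq, if_neg hqI]
      rw [Finset.sum_eq_single (1 : H q)]
      · rw [if_pos rfl, one_smul]
        apply hF.dep
        intro i hi
        have hiq : i ≠ q := fun h => hqI (h ▸ hi)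
        rw [Function.update_of_ne hiq]
      · intro b _ hb
        rw [if_neg hb, zero_smul]
      · intro h
        exact absurd (mem_univ _) h

/-- the partial products of the kernels -/
def DD (ℓ : ι) (I S : Finset ι) (v u : ∀ i, H i) : ℤ :=
  ∏ q, (if q ∈ S then ker ℓ I q (u q) (v q) else if u q = v q then 1 else 0)

lemma DD_insert (ℓ : ι) (I S : Finset ι) (q : ι) (hq : q ∉ S) (v u : ∀ i, H i) :
    DD ℓ I (insert q S) v u =
      ∑ s : H q, ker ℓ I q (u q) s * DD ℓ I S v (Function.update u q s) := by
  have h1 : ∀ s : H q, DD ℓ I S v (Function.update u q s) = (if s = v q then 1 else 0) *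
      ∏ q' ∈ univ.erase q,
        (if q' ∈ S then ker ℓ I q' (u q') (v q') else if u q' = v q' then 1 else 0) := by
    intro s
    unfold DD
    rw [← Finset.mul_prod_erase univ _ (mem_univ q), if_neg hq, Function.update_self]
    congr 1
    apply Finset.prod_congr rfl
    intro q' hq'
    rw [Function.update_of_ne (Finset.ne_of_mem_erase hq')]
  rw [Finset.sum_congr rfl (fun s _ => by rw [h1 s])]
  rw [Finset.sum_eq_single (v q)]
  · rw [if_pos rfl, one_mul]
    unfold DD
    rw [← Finset.mul_prod_erase univ _ (mem_univ q), if_pos (mem_insert_self q S)]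
    congr 1
    apply Finset.prod_congr rfl
    intro q' hq'
    have hne := Finset.ne_of_mem_erase hq'
    have : q' ∈ insert q S ↔ q' ∈ S := by
      rw [mem_insert]
      exact ⟨fun h => h.resolve_left hne, Or.inr⟩
    simp only [this]
  · intro b _ hb
    rw [if_neg hb]
    ring
  · intro h
    exact absurd (mem_univ _) h

lemma DD_rep (ℓ : ι) (I : Finset ι) {Q : Type} [AddCommGroup Q] (F : (∀ i, H i) → Q)
    (hF : Tst ℓ I F) (S : Finset ι) :
    ∀ u : ∀ i, H i, ∑ v : (∀ i, H i), DD ℓ I S v u • F v = F u := by
  induction S using Finset.induction_on with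
  | empty =>
    intro u
    rw [Finset.sum_eq_single u]
    · simp [DD]
    · intro v _ hv
      obtain ⟨i, hi⟩ : ∃ i, u i ≠ v i := by
        by_contra hcon
        push Not at hcon
        exact hv (funext fun i => (hcon i).symm)
      have : DD ℓ I ∅ v u = 0 := by
        unfold DD
        apply Finset.prod_eq_zero (mem_univ i)
        rw [if_neg (by simp), if_neg hi]
      rw [this, zero_smul]
    · intro h
      exact absurd (mem_univ _) h
  | insert q S hq ih =>
    intro u
    calc ∑ v : (∀ i, H i), DD ℓ I (insert q S) v u • F v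
        = ∑ v : (∀ i, H i), ∑ s : H q,
            ker ℓ I q (u q) s • (DD ℓ I S v (Function.update u q s) • F v) := by
          apply Finset.sum_congr rfl
          intro v _
          rw [DD_insert ℓ I S q hq v u, Finset.sum_smul]
          apply Finset.sum_congr rfl
          intro s _
          rw [mul_smul]
      _ = ∑ s : H q, ker ℓ I q (u q) s • F (Function.update u q s) := by
          rw [Finset.sum_comm]
          apply Finset.sum_congr rfl
          intro s _
          rw [← Finset.smul_sum, ih]
      _ = F u := ker_rep ℓ I F hF q u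

lemma DD_tst (ℓ : ι) (I : Finset ι) (hℓ : ℓ ∈ I) (v : ∀ i, H i) : Tst ℓ I (DD ℓ I univ v) := by
  constructor
  · intro u u' huu
    unfold DD
    apply Finset.prod_congr rfl
    intro q _
    rw [if_pos (mem_univ q), if_pos (mem_univ q)]
    by_cases hq : q ∈ I
    · rw [huu q hq]
    · unfold ker
      have hne : q ≠ ℓ := fun h => hq (h ▸ hℓ)
      rw [if_neg hne, if_neg hq, if_neg hne, if_neg hq]
  · intro q hq hqℓ u
    unfold NN
    have h1 : ∀ s : H q, DD ℓ I univ v (Function.update u q s) = ker ℓ I q s (v q) *
        ∏ q' ∈ univ.erase q, ker ℓ I q' (u q') (v q') := by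
      intro s
      unfold DD
      rw [← Finset.mul_prod_erase univ _ (mem_univ q), if_pos (mem_univ q), Function.update_self]
      congr 1
      apply Finset.prod_congr rfl
      intro q' hq'
      rw [if_pos (mem_univ q'), Function.update_of_ne (Finset.ne_of_mem_erase hq')]
    rw [Finset.sum_congr rfl (fun s _ => h1 s), ← Finset.sum_mul]
    have h2 : ∑ s : H q, ker ℓ I q s (v q) = 0 := by
      unfold ker
      simp only [if_neg hqℓ, if_pos hq, sum_sub_distrib]
      simp
    rw [h2, zero_mul]

/-- linear combinations -/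
lemma pair_comb (d : Dat H) (I : Finset ι) (w : ∀ i, H i) {Q : Type} [AddCommGroup Q]
    (X : Finset ι → (∀ i, H i) → ℤ) (D : (∀ i, H i) → (∀ i, H i) → ℤ) (F : (∀ i, H i) → Q)
    (hrep : ∀ u, ∑ v : (∀ i, H i), D v u • F v = F u) :
    pair X (Od d (Ext d I w F)) =
      ∑ v : (∀ i, H i), (pair X (Od d (Ext d I w (D v)))) • F v := by
  have hExt : ∀ A u, Ext d I w F A u = ∑ v : (∀ i, H i), (Ext d I w (D v) A u) • F v := by
    intro A u
    unfold Ext
    by_cases hIA : I ⊆ A
    · simp only [if_pos hIA]
      simp only [Finset.sum_smul]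
      rw [Finset.sum_comm]
      apply Finset.sum_congr rfl
      intro B _
      by_cases hc : ∀ q ∈ A \ I, u q = pr d B q * w q
      · simp only [if_pos hc]
        rw [← hrep, Finset.smul_sum]
        apply Finset.sum_congr rfl
        intro v _
        rw [smul_assoc]
      · simp only [if_neg hc]
        simp
    · simp only [if_neg hIA]
      simp
  have hOd : ∀ A u, Od d (Ext d I w F) A u =
      ∑ v : (∀ i, H i), (Od d (Ext d I w (D v)) A u) • F v := by
    intro A u
    unfold Od
    rw [hExt, hExt, ← Finset.sum_sub_distrib]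
    apply Finset.sum_congr rfl
    intro v _
    rw [sub_smul]
  unfold pair
  simp only [hOd, Finset.smul_sum, Finset.sum_smul]
  calc ∑ A : Finset ι, ∑ u : (∀ i, H i), ∑ v : (∀ i, H i),
        X A u • (Od d (Ext d I w (D v)) A u • F v)
      = ∑ A : Finset ι, ∑ v : (∀ i, H i), ∑ u : (∀ i, H i),
        X A u • (Od d (Ext d I w (D v)) A u • F v) :=
        Finset.sum_congr rfl (fun A _ => Finset.sum_comm)
    _ = ∑ v : (∀ i, H i), ∑ A : Finset ι, ∑ u : (∀ i, H i),
        X A u • (Od d (Ext d I w (D v)) A u • F v) := Finset.sum_comm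
    _ = _ := by
        apply Finset.sum_congr rfl
        intro v _
        apply Finset.sum_congr rfl
        intro A _
        apply Finset.sum_congr rfl
        intro u _
        rw [smul_assoc]

end A1h6

/-- every system is a combination of integral systems -/
theorem a1_of (h1 : S_ext) (h2 : S_dec) : S_a1 := by
  intro ι _ _ H _ _ _ d ℓ X hX Q _ c hc ho
  have hE : ∀ I : Finset ι, ℓ ∈ I → ∀ F : (∀ i, H i) → Q, Tst ℓ I F →
      pair X (Od d (Ext d I 1 F)) = 0 := by
    intro I hI F hF
    rw [A1h6.pair_comb d I 1 X (A1h6.DD ℓ I univ) F (A1h6.DD_rep ℓ I F hF univ)]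
    apply Finset.sum_eq_zero
    intro v _
    have := h1 ι H d ℓ I hI 1 ℤ (A1h6.DD ℓ I univ v) (A1h6.DD_tst ℓ I hI v)
    rw [hX _ this.2.1 this.2.2.1, zero_smul]
  obtain ⟨R, hR⟩ : ∃ R : Finset (H ℓ), ∀ s, s ∈ R ↔ d.κ ℓ * s ∉ R := by
    refine ⟨univ.filter (fun s => Fintype.equivFin (H ℓ) s <
      Fintype.equivFin (H ℓ) (d.κ ℓ * s)), ?_⟩
    intro s
    have hkk : d.κ ℓ * d.κ ℓ = 1 := congrFun d.hκ ℓ
    have hne : Fintype.equivFin (H ℓ) s ≠ Fintype.equivFin (H ℓ) (d.κ ℓ * s) := by
      intro h
      have h' := (Fintype.equivFin (H ℓ)).injective h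
      exact d.hκ1 ℓ (mul_eq_right.mp h'.symm)
    simp only [mem_filter, mem_univ, true_and]
    rw [← mul_assoc, hkk, one_mul, not_lt]
    constructor
    · intro h
      exact h.le
    · intro h
      exact lt_of_le_of_ne h hne
  have key : ∀ m k : ℕ, k + m = Fintype.card ι + 1 → ∀ c : Finset ι → (∀ i, H i) → Q,
      Sys d ℓ c → Odd1 d c → (∀ A, A.card < k → c A = 0) → pair X c = 0 := by
    intro m
    induction m with
    | zero =>
      intro k hk c _ _ h0
      unfold pair
      apply Finset.sum_eq_zero
      intro A _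
      apply Finset.sum_eq_zero
      intro u _
      have hA : A.card ≤ Fintype.card ι := Finset.card_le_univ A
      rw [h0 A (by omega)]
      simp
    | succ m ih =>
      intro k hk c hc ho h0
      obtain ⟨hT, γ', hs', ho', h0', hdec⟩ := h2 ι H d ℓ R hR Q c hc ho k h0
      have hγ' : pair X γ' = 0 :=
        ih (k + 1) (by omega) γ' hs' ho' (fun A hA => h0' A (by omega))
      have e : pair X c = (∑ I ∈ (univ.powersetCard k).filter (fun I => ℓ ∈ I),
          pair X (Od d (Ext d I 1 (fun u => if u ℓ ∈ R then c I u else 0)))) +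
            pair X γ' := by
        unfold pair
        have e1 : ∀ A : Finset ι, ∀ u : (∀ i, H i), X A u • c A u =
            (∑ I ∈ (univ.powersetCard k).filter (fun I => ℓ ∈ I),
              X A u • Od d (Ext d I 1 (fun u => if u ℓ ∈ R then c I u else 0)) A u) +
                X A u • γ' A u := by
          intro A u
          rw [← Finset.smul_sum, ← smul_add, ← hdec A u]
        rw [Finset.sum_congr rfl (fun A _ => Finset.sum_congr rfl (fun u _ => e1 A u))]
        rw [Finset.sum_congr rfl (fun A _ => Finset.sum_add_distrib), Finset.sum_add_distrib]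
        congr 1
        calc ∑ A : Finset ι, ∑ u : (∀ i, H i), ∑ I ∈ (univ.powersetCard k).filter (fun I => ℓ ∈ I),
              X A u • Od d (Ext d I 1 (fun u => if u ℓ ∈ R then c I u else 0)) A u
            = ∑ A : Finset ι, ∑ I ∈ (univ.powersetCard k).filter (fun I => ℓ ∈ I),
              ∑ u : (∀ i, H i),
              X A u • Od d (Ext d I 1 (fun u => if u ℓ ∈ R then c I u else 0)) A u :=
              Finset.sum_congr rfl (fun A _ => Finset.sum_comm)
          _ = _ := Finset.sum_comm
      rw [e, hγ', add_zero]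
      apply Finset.sum_eq_zero
      intro I hI
      rw [mem_filter, mem_powersetCard] at hI
      exact hE I hI.2 _ (hT I hI.1.2)
  exact key (Fintype.card ι + 1) 0 (by simp) c hc ho (fun A hA => absurd hA (Nat.not_lt_zero _))

end Pool.Agent.NH35.HK
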