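import Pool.Agent.NH35.HK.Sys

/-! (HK-8) the main statement on systems, from the other statements. -/

set_option autoImplicit false
set_option linter.unusedSectionVars false

namespace Pool.Agent.NH35.HK

open Finset

namespace AbsH

section gen

variable {ι : Type} [Fintype ι] [DecidableEq ι] {H : ι → Type} [∀ i, CommGroup (H i)]
  [∀ i, Fintype (H i)] [∀ i, DecidableEq (H i)]

theorem pair_add {Q : Type} [AddCommGroup Q] (X : Finset ι → (∀ i, H i) → ℤ)
    (c c' : Finset ι → (∀ i, H i) → Q) : pair X (c + c') = pair X c + pair X c' := by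
  unfold pair
  simp only [Pi.add_apply, smul_add, Finset.sum_add_distrib]

theorem pair_neg {Q : Type} [AddCommGroup Q] (X : Finset ι → (∀ i, H i) → ℤ)
    (c : Finset ι → (∀ i, H i) → Q) : pair X (-c) = - pair X c := by
  unfold pair
  simp only [Pi.neg_apply, smul_neg, Finset.sum_neg_distrib]

theorem pair_sub {Q : Type} [AddCommGroup Q] (X : Finset ι → (∀ i, H i) → ℤ)
    (c c' : Finset ι → (∀ i, H i) → Q) : pair X (c - c') = pair X c - pair X c' := by
  rw [sub_eq_add_neg, pair_add, pair_neg, sub_eq_add_neg]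

theorem pair_zero {Q : Type} [AddCommGroup Q] (X : Finset ι → (∀ i, H i) → ℤ) :
    pair X (0 : Finset ι → (∀ i, H i) → Q) = 0 := by
  unfold pair
  simp

theorem pair_sum {Q : Type} [AddCommGroup Q] (X : Finset ι → (∀ i, H i) → ℤ) {α : Type}
    (s : Finset α) (c : α → Finset ι → (∀ i, H i) → Q) :
    pair X (∑ a ∈ s, c a) = ∑ a ∈ s, pair X (c a) := by
  classical
  induction s using Finset.induction_on with
  | empty => simp [pair_zero]
  | insert a s ha ih => rw [Finset.sum_insert ha, Finset.sum_insert ha, pair_add, ih]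

theorem pair_subX {Q : Type} [AddCommGroup Q] (X Y : Finset ι → (∀ i, H i) → ℤ) (e : ℤ)
    (c : Finset ι → (∀ i, H i) → Q) :
    pair (fun I u => X I u - e * Y I u) c = pair X c - e • pair Y c := by
  unfold pair
  simp only [sub_smul, mul_smul, Finset.sum_sub_distrib, Finset.smul_sum]

theorem Dep.sub {Q : Type} [AddCommGroup Q] {I : Finset ι} {f g : (∀ i, H i) → Q}
    (hf : Dep I f) (hg : Dep I g) : Dep I (f - g) := by
  intro u v huv
  simp only [Pi.sub_apply, hf u v huv, hg u v huv]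

theorem NN_sub {Q : Type} [AddCommGroup Q] (q : ι) (f g : (∀ i, H i) → Q) (u : ∀ i, H i) :
    NN q (f - g) u = NN q f u - NN q g u := by
  unfold NN
  simp only [Pi.sub_apply, Finset.sum_sub_distrib]

theorem Sys.sub {d : Dat H} {ℓ : ι} {Q : Type} [AddCommGroup Q]
    {c c' : Finset ι → (∀ i, H i) → Q} (h : Sys d ℓ c) (h' : Sys d ℓ c') :
    Sys d ℓ (c - c') := by
  refine ⟨fun I => ?_, fun I hI => ?_, fun I q hq hqℓ u => ?_⟩
  · exact Dep.sub (h.dep I) (h'.dep I)
  · rw [Pi.sub_apply, h.sup I hI, h'.sup I hI, sub_zero]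
  · rw [Pi.sub_apply, Pi.sub_apply, NN_sub, h.rel I q hq hqℓ u, h'.rel I q hq hqℓ u]
    simp only [Pi.sub_apply]
    abel

theorem Odd1.sub {d : Dat H} {Q : Type} [AddCommGroup Q]
    {c c' : Finset ι → (∀ i, H i) → Q} (h : Odd1 d c) (h' : Odd1 d c') :
    Odd1 d (c - c') := by
  intro I u
  simp only [Pi.sub_apply, h I u, h' I u]
  abel

theorem Ext_sub (d : Dat H) (I : Finset ι) (w : ∀ i, H i) {Q : Type} [AddCommGroup Q]
    (F G : (∀ i, H i) → Q) : Ext d I w (F - G) = Ext d I w F - Ext d I w G := by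
  funext A u
  unfold Ext
  simp only [Pi.sub_apply]
  by_cases h : I ⊆ A
  · simp only [if_pos h]
    rw [← Finset.sum_sub_distrib]
    refine Finset.sum_congr rfl fun B _ => ?_
    rw [← smul_sub]
    congr 1
    split_ifs <;> simp
  · simp only [if_neg h, sub_zero]

theorem Od_sub (d : Dat H) {Q : Type} [AddCommGroup Q] (c c' : Finset ι → (∀ i, H i) → Q) :
    Od d (c - c') = Od d c - Od d c' := by
  funext A u
  unfold Od
  simp only [Pi.sub_apply]
  abel

/-- the sum of the sums over a coordinate -/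
theorem sum_NN {Q : Type} [AddCommGroup Q] (q : ι) (G : (∀ i, H i) → Q) :
    ∑ u : ∀ i, H i, NN q G u = Fintype.card (H q) • ∑ u : ∀ i, H i, G u := by
  unfold NN
  rw [← Finset.sum_product']
  have : ∑ x ∈ (univ : Finset (∀ i, H i)) ×ˢ (univ : Finset (H q)), G (Function.update x.1 q x.2)
      = ∑ x ∈ (univ : Finset (∀ i, H i)) ×ˢ (univ : Finset (H q)), G x.1 := by
    refine Finset.sum_nbij' (fun x => (Function.update x.1 q x.2, x.1 q))
      (fun x => (Function.update x.1 q x.2, x.1 q)) ?_ ?_ ?_ ?_ ?_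
    · intro x _; simp
    · intro x _; simp
    · intro x _; simp
    · intro x _; simp
    · intro x _; simp
  rw [this, Finset.sum_product]
  simp only [Finset.sum_const, Finset.card_univ]
  rw [← Finset.smul_sum]

theorem sum_zero_of_NN (q : ι) (G : (∀ i, H i) → ℤ) (h : ∀ u, NN q G u = 0) :
    ∑ u : ∀ i, H i, G u = 0 := by
  have h1 := sum_NN q G
  rw [Finset.sum_eq_zero (fun u _ => h u)] at h1
  have h2 : Fintype.card (H q) ≠ 0 := Fintype.card_ne_zero
  rw [nsmul_eq_mul] at h1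
  rcases mul_eq_zero.mp h1.symm with h3 | h3
  · exact absurd (by exact_mod_cast h3) h2
  · exact h3

theorem BL_small (d : Dat H) (ℓ i3 : ι) (K : Subgroup (H i3)) (R : Finset (H ℓ)) {Q : Type}
    [AddCommGroup Q] (c : Finset ι → (∀ i, H i) → Q)
    (h1 : c {ℓ} = 0) :
    pair (BL d ℓ i3 K R) c = ∑ u : ∀ i, H i, (open Classical in
      if i3 ≠ ℓ ∧ u ℓ ∈ R ∧ u i3 ∈ K ∧ (∀ i, i ≠ ℓ → i ≠ i3 → u i = 1) then c {ℓ, i3} u
        else 0) := by
  classical
  unfold pair
  rw [Finset.sum_eq_single {ℓ, i3}]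
  · refine Finset.sum_congr rfl fun u _ => ?_
    unfold BL
    by_cases h : i3 = ℓ
    · simp [h]
    · have h2 : ({ℓ, i3} : Finset ι) ≠ {ℓ} := by
        intro h3
        have : i3 ∈ ({ℓ} : Finset ι) := by rw [← h3]; simp
        exact h (by simpa using this)
      simp only [h, if_false, h2, false_and, add_zero, true_and, ne_eq, not_false_eq_true]
      split_ifs with h4
      · rw [one_smul]
      · rw [zero_smul]
  · intro I _ hI
    refine Finset.sum_eq_zero fun u _ => ?_
    unfold BL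
    by_cases h : i3 = ℓ
    · simp [h]
    · by_cases h2 : I = {ℓ}
      · subst h2
        rw [h1]; simp
      · simp [h2, hI]
  · intro h; exact absurd (Finset.mem_univ _) h

end gen

end AbsH

open AbsH in
theorem abs_of (h1 : S_ext) (h2 : S_dec) (h3 : S_a1) (h6 : S_top) (h7 : S_bl) : S_abs := by
  classical
  intro ι _ _ H _ _ _ d ℓ i3 K R T _ β hK hR hN
  -- the downward induction
  have hcard : ∀ n : ℕ, (∀ γ : Finset ι → (∀ i, H i) → ℤ, Sys d ℓ γ → Odd1 d γ →
      (∀ A, A.card ≤ 2 + n → γ A = 0) → pair β.X γ = 0) →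
      ∀ γ : Finset ι → (∀ i, H i) → ℤ, Sys d ℓ γ → Odd1 d γ →
      (∀ A, A.card ≤ 2 → γ A = 0) → pair β.X γ = 0 := by
    intro n
    induction n with
    | zero => intro h; exact h
    | succ n ih =>
      intro h
      apply ih
      intro γ hs ho hv
      obtain ⟨ht, γ', hs', ho', hv', hdec⟩ := h2 ι H d ℓ R hR ℤ γ hs ho (2 + (n + 1))
        (fun A hA => hv A (by omega))
      have e1 : γ = (∑ I ∈ (univ.powersetCard (2 + (n + 1))).filter (fun I => ℓ ∈ I),
          Od d (Ext d I 1 (fun u => if u ℓ ∈ R then γ I u else 0))) + γ' := by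
        funext A u
        rw [hdec A u]
        simp [Finset.sum_apply]
      rw [e1, pair_add, pair_sum, h γ' hs' ho' hv', add_zero]
      refine Finset.sum_eq_zero fun I hI => ?_
      rw [Finset.mem_filter, Finset.mem_powersetCard] at hI
      obtain ⟨e, he, hF⟩ := h6 ι H d ℓ i3 K T β I hK hI.2
        (fun γ hs ho hv => h γ hs ho (fun A hA => hv A (by rw [hI.1.2]; exact hA))) hN
      rw [hF 1 _ (ht I hI.1.2)]
      rcases he with he | ⟨_, he, _⟩
      · rw [he, zero_mul]
      · exfalso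
        have := hI.1.2
        rw [he] at this
        have := Finset.card_le_two (a := ℓ) (b := i3)
        omega
  have hQ2 : ∀ γ : Finset ι → (∀ i, H i) → ℤ, Sys d ℓ γ → Odd1 d γ →
      (∀ A, A.card ≤ 2 → γ A = 0) → pair β.X γ = 0 := by
    apply hcard (Fintype.card ι)
    intro γ _ _ hv
    have : γ = 0 := by
      funext A
      exact hv A (by have := Finset.card_le_univ A; omega)
    rw [this, pair_zero]
  clear hcard
  -- the number e
  obtain ⟨e, he, heF⟩ : ∃ e : ℤ, (e = 0 ∨ (i3 ≠ ℓ ∧ (e = 1 ∨ e = -1))) ∧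
      ∀ I : Finset ι, I.card = 2 → ℓ ∈ I → ∀ F : (∀ i, H i) → ℤ, Tst ℓ I F →
      pair β.X (Od d (Ext d I 1 F)) = if I = {ℓ, i3} then
      e * ∑ u : ∀ i, H i, (if u i3 ∈ K ∧ (∀ i, i ≠ ℓ → i ≠ i3 → u i = 1) then F u else 0)
      else 0 := by
    have key : ∀ I : Finset ι, I.card = 2 → ℓ ∈ I → ∃ e : ℤ,
        (e = 0 ∨ (i3 ≠ ℓ ∧ I = {ℓ, i3} ∧ (e = 1 ∨ e = -1))) ∧
        ∀ (w : ∀ i, H i) (F : (∀ i, H i) → ℤ), Tst ℓ I F → pair β.X (Od d (Ext d I w F)) =
        e * ∑ u : ∀ i, H i, (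
          if u i3 ∈ K ∧ (∀ i, i ≠ ℓ → i ≠ i3 → u i = 1) then F u else 0) := by
      intro I hI hl
      obtain ⟨e, he, hF⟩ := h6 ι H d ℓ i3 K T β I hK hl
        (fun γ hs ho hv => hQ2 γ hs ho (fun A hA => hv A (by rw [hI]; exact hA))) hN
      refine ⟨e, he, fun w F hT => ?_⟩
      rw [hF w F hT]
    by_cases h : i3 = ℓ
    · refine ⟨0, Or.inl rfl, fun I hI hl F hT => ?_⟩
      obtain ⟨e, he, hF⟩ := key I hI hl
      rcases he with he | ⟨he, _⟩
      · rw [hF 1 F hT, he]; simp
      · exact absurd h he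
    · have hc : ({ℓ, i3} : Finset ι).card = 2 := Finset.card_pair (Ne.symm h)
      obtain ⟨e, he, hF⟩ := key {ℓ, i3} hc (by simp)
      refine ⟨e, ?_, fun I hI hl F hT => ?_⟩
      · rcases he with he | ⟨_, _, he⟩
        · exact Or.inl he
        · exact Or.inr ⟨h, he⟩
      · by_cases hI3 : I = {ℓ, i3}
        · subst hI3
          rw [if_pos rfl, hF 1 F hT]
        · rw [if_neg hI3]
          obtain ⟨e', he', hF'⟩ := key I hI hl
          rcases he' with he' | ⟨_, he', _⟩
          · rw [hF' 1 F hT, he', zero_mul]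
          · exact absurd he' hI3
  refine ⟨e, he, ?_⟩
  -- the element X'
  set X' : Finset ι → (∀ i, H i) → ℤ := fun I u => β.X I u - e * BL d ℓ i3 K R I u with hX'
  have hX'p : ∀ (Q : Type) [AddCommGroup Q] (c : Finset ι → (∀ i, H i) → Q),
      pair X' c = pair β.X c - e • pair (BL d ℓ i3 K R) c := by
    intro Q _ c
    exact pair_subX _ _ _ _
  -- Q'(1)
  have hQ1 : ∀ γ : Finset ι → (∀ i, H i) → ℤ, Sys d ℓ γ → Odd1 d γ →
      (∀ A, A.card ≤ 1 → γ A = 0) → pair X' γ = 0 := by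
    intro γ hs ho hv
    obtain ⟨ht, γ', hs', ho', hv', hdec⟩ := h2 ι H d ℓ R hR ℤ γ hs ho 2
      (fun A hA => hv A (by omega))
    have e1 : γ = (∑ I ∈ (univ.powersetCard 2).filter (fun I => ℓ ∈ I),
        Od d (Ext d I 1 (fun u => if u ℓ ∈ R then γ I u else 0))) + γ' := by
      funext A u
      rw [hdec A u]
      simp [Finset.sum_apply]
    have e2 : pair β.X γ = ∑ I ∈ (univ.powersetCard 2).filter (fun I => ℓ ∈ I),
        pair β.X (Od d (Ext d I 1 (fun u => if u ℓ ∈ R then γ I u else 0))) := by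
      conv_lhs => rw [e1]
      rw [pair_add, pair_sum, hQ2 γ' hs' ho' hv', add_zero]
    rw [hX'p, e2, BL_small d ℓ i3 K R γ (hv {ℓ} (by simp))]
    by_cases h : i3 = ℓ
    · have he0 : e = 0 := by
        rcases he with he | ⟨he, _⟩
        · exact he
        · exact absurd h he
      rw [he0, zero_smul, sub_zero]
      refine Finset.sum_eq_zero fun I hI => ?_
      rw [Finset.mem_filter, Finset.mem_powersetCard] at hI
      rw [heF I hI.1.2 hI.2 _ (ht I hI.1.2), he0]
      simp
    · have hc : ({ℓ, i3} : Finset ι).card = 2 := Finset.card_pair (Ne.symm h)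
      rw [Finset.sum_eq_single ({ℓ, i3} : Finset ι)]
      · rw [heF _ hc (by simp) _ (ht _ hc), if_pos rfl, smul_eq_mul, sub_eq_zero]
        congr 1
        refine Finset.sum_congr rfl fun u _ => ?_
        by_cases hu : u ℓ ∈ R
        · simp [hu, h]
        · simp [hu]
      · intro I hI hne
        rw [Finset.mem_filter, Finset.mem_powersetCard] at hI
        rw [heF I hI.1.2 hI.2 _ (ht I hI.1.2), if_neg hne]
      · intro h4
        exfalso
        apply h4
        rw [Finset.mem_filter, Finset.mem_powersetCard]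
        exact ⟨⟨Finset.subset_univ _, hc⟩, by simp⟩
  -- Q'(0)
  have hl : ℓ ∈ ({ℓ} : Finset ι) := by simp
  have hw : ∀ (w w' : ∀ i, H i) (F : (∀ i, H i) → ℤ), Tst ℓ {ℓ} F →
      pair X' (Od d (Ext d {ℓ} w F)) = pair X' (Od d (Ext d {ℓ} w' F)) := by
    intro w w' F hT
    obtain ⟨_, s1, o1, v1, z1, _, _⟩ := h1 ι H d ℓ {ℓ} hl w ℤ F hT
    obtain ⟨_, s2, o2, v2, z2, _, _⟩ := h1 ι H d ℓ {ℓ} hl w' ℤ F hT
    rw [← sub_eq_zero, ← pair_sub]
    apply hQ1 _ (Sys.sub s1 s2) (Odd1.sub o1 o2)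
    intro A hA
    by_cases hlA : ({ℓ} : Finset ι) ⊆ A
    · have : A = {ℓ} := (Finset.eq_of_subset_of_card_le hlA (by simpa using hA)).symm
      subst this
      funext u
      rw [Pi.sub_apply, Pi.sub_apply, v1, v2, sub_self]; rfl
    · rw [Pi.sub_apply, z1 A hlA, z2 A hlA, sub_zero]
  have hNz : ∀ (w : ∀ i, H i) (F : (∀ i, H i) → ℤ), Tst ℓ {ℓ} F → (∀ u, NN ℓ F u = 0) →
      pair X' (Od d (Ext d {ℓ} w F)) = 0 := by
    intro w F hT hF
    obtain ⟨s0, s1, o1, v1, z1, n1, _⟩ := h1 ι H d ℓ {ℓ} hl w ℤ F hT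
    rw [hX'p, hN _ s1 o1 (fun A u => (n1 hF A u).2)]
    by_cases h : i3 = ℓ
    · have he0 : e = 0 := by
        rcases he with he | ⟨he, _⟩
        · exact he
        · exact absurd h he
      rw [he0, zero_smul, sub_zero]
    · rw [h7 ι H d ℓ i3 K R (hK h) hR h ℤ _ s0, sum_zero_of_NN ℓ, smul_zero, sub_zero]
      intro u
      unfold NN
      have hu : ∀ s : H ℓ, (Function.update u ℓ s i3 ∈ K ∧ ∀ i, i ≠ ℓ → i ≠ i3 →
          Function.update u ℓ s i = 1) ↔ (u i3 ∈ K ∧ ∀ i, i ≠ ℓ → i ≠ i3 → u i = 1) := by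
        intro s
        rw [Function.update_of_ne h]
        constructor
        · rintro ⟨a, b⟩
          refine ⟨a, fun i h5 h6 => ?_⟩
          have := b i h5 h6
          rwa [Function.update_of_ne h5] at this
        · rintro ⟨a, b⟩
          refine ⟨a, fun i h5 h6 => ?_⟩
          rw [Function.update_of_ne h5]
          exact b i h5 h6
      by_cases hc : (u i3 ∈ K ∧ ∀ i, i ≠ ℓ → i ≠ i3 → u i = 1)
      · have : ∀ s : H ℓ, (if Function.update u ℓ s i3 ∈ K ∧ ∀ i, i ≠ ℓ → i ≠ i3 →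
            Function.update u ℓ s i = 1 then
            Ext d {ℓ} w F {ℓ, i3} (Function.update u ℓ s) else 0) =
            Ext d {ℓ} w F {ℓ, i3} (Function.update u ℓ s) := by
          intro s
          rw [if_pos ((hu s).mpr hc)]
        rw [← (n1 hF {ℓ, i3} u).1]
        unfold NN
        refine Finset.sum_congr rfl fun s _ => ?_
        exact if_pos ((hu s).mpr hc)
      · refine Finset.sum_eq_zero fun s _ => ?_
        exact if_neg (fun h5 => hc ((hu s).mp h5))
  have hκκ : ∀ u : ∀ i, H i, d.κ * (d.κ * u) = u := by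
    intro u
    rw [← mul_assoc, d.hκ, one_mul]
  have hy : ∀ (F : (∀ i, H i) → ℤ), Tst ℓ {ℓ} F →
      pair X' (Od d (Ext d {ℓ} 1 F)) = 0 := by
    intro F hT
    have hTκ : Tst ℓ {ℓ} (fun u => F (d.κ * u)) := by
      refine ⟨fun u v huv => ?_, fun q hq hql => ?_⟩
      · apply hT.dep
        intro i hi
        simp only [Pi.mul_apply]
        rw [huv i hi]
      · exact absurd (by simpa using hq) hql
    have hTs : Tst ℓ {ℓ} (F - fun u => F (d.κ * u)) := by
      refine ⟨Dep.sub hT.dep hTκ.dep, fun q hq hql => ?_⟩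
      exact absurd (by simpa using hq) hql
    have hNs : ∀ u, NN ℓ (F - fun u => F (d.κ * u)) u = 0 := by
      intro u
      rw [NN_sub, sub_eq_zero]
      unfold NN
      refine Finset.sum_nbij' (fun s => d.κ ℓ * s) (fun s => d.κ ℓ * s) ?_ ?_ ?_ ?_ ?_
      · intro s _; exact Finset.mem_univ _
      · intro s _; exact Finset.mem_univ _
      · intro s _
        rw [← mul_assoc, ← Pi.mul_apply, d.hκ, Pi.one_apply, one_mul]
      · intro s _
        rw [← mul_assoc, ← Pi.mul_apply, d.hκ, Pi.one_apply, one_mul]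
      · intro s _
        apply hT.dep
        intro i hi
        rw [Finset.mem_singleton] at hi
        subst hi
        rw [Function.update_self, Pi.mul_apply, Function.update_self, ← mul_assoc, ← Pi.mul_apply,
          d.hκ, Pi.one_apply, one_mul]
    have hz := hNz 1 _ hTs hNs
    rw [Ext_sub, Od_sub, pair_sub] at hz
    obtain ⟨_, _, _, _, _, _, r1⟩ := h1 ι H d ℓ {ℓ} hl 1 ℤ F hT
    rw [r1, pair_neg, ← hw 1 (d.κ * 1) F hT] at hz
    omega
  have hall : ∀ γ : Finset ι → (∀ i, H i) → ℤ, Sys d ℓ γ → Odd1 d γ → pair X' γ = 0 := by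
    intro γ hs ho
    obtain ⟨ht, γ', hs', ho', hv', hdec⟩ := h2 ι H d ℓ R hR ℤ γ hs ho 1
      (fun A hA => hs.sup A (by
        have : A = ∅ := Finset.card_eq_zero.mp (by omega)
        rw [this]; simp))
    have e1 : γ = (∑ I ∈ (univ.powersetCard 1).filter (fun I => ℓ ∈ I),
        Od d (Ext d I 1 (fun u => if u ℓ ∈ R then γ I u else 0))) + γ' := by
      funext A u
      rw [hdec A u]
      simp [Finset.sum_apply]
    rw [e1, pair_add, pair_sum, hQ1 γ' hs' ho' hv', add_zero]
    refine Finset.sum_eq_zero fun I hI => ?_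
    rw [Finset.mem_filter, Finset.mem_powersetCard] at hI
    have hI1 : I = {ℓ} := by
      obtain ⟨a, ha⟩ := Finset.card_eq_one.mp hI.1.2
      have h5 := hI.2
      rw [ha, Finset.mem_singleton] at h5
      rw [ha, h5]
    have hT := ht I hI.1.2
    rw [hI1] at hT ⊢
    exact hy _ hT
  intro Q _ c hs ho
  have := h3 ι H d ℓ X' hall Q c hs ho
  rw [hX'p] at this
  exact sub_eq_zero.mp this

end Pool.Agent.NH35.HK
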