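import Pool.Agent.NH35.HK.Sys

/-! Job HK-7 (helper59): the pairing with the element `BL`. -/

set_option autoImplicit false
set_option linter.unusedSectionVars false

namespace Pool.Agent.NH35.HK

open Finset

variable {ι : Type} [Fintype ι] [DecidableEq ι] {H : ι → Type} [∀ i, CommGroup (H i)]
  [∀ i, Fintype (H i)] [∀ i, DecidableEq (H i)]

private theorem sum1_59 {Q : Type} [AddCommGroup Q] (ℓ : ι) (F : (∀ i, H i) → Q)
    (hF : ∀ u, ¬ (∀ i, i ≠ ℓ → u i = 1) → F u = 0) :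
    (∑ u : ∀ i, H i, F u) = ∑ j : H ℓ, F (Function.update 1 ℓ j) := by
  classical
  have key : ∀ u : ∀ i, H i, (∀ i, i ≠ ℓ → u i = 1) →
      Function.update (1 : ∀ i, H i) ℓ (u ℓ) = u := by
    intro u hu
    funext i
    by_cases hi : i = ℓ
    · subst hi; simp
    · rw [Function.update_of_ne hi, hu i hi]; rfl
  rw [← Finset.sum_filter_of_ne (p := fun u : (∀ i, H i) => ∀ i, i ≠ ℓ → u i = 1)
    (fun u _ h => by
      by_contra h'
      exact h (hF u h'))]
  refine Finset.sum_bij' (fun u _ => u ℓ) (fun j _ => Function.update 1 ℓ j) ?_ ?_ ?_ ?_ ?_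
  · intro u _
    exact mem_univ _
  · intro j _
    simp only [mem_filter, mem_univ, true_and]
    exact fun i hi => by rw [Function.update_of_ne hi]; rfl
  · intro u hu
    simp only [mem_filter, mem_univ, true_and] at hu
    exact key u hu
  · intro j _
    simp
  · intro u hu
    simp only [mem_filter, mem_univ, true_and] at hu
    rw [key u hu]

private theorem sum2_59 {Q : Type} [AddCommGroup Q] (ℓ i3 : ι) (h3 : i3 ≠ ℓ)
    (F : (∀ i, H i) → Q) (hF : ∀ u, ¬ (∀ i, i ≠ ℓ → i ≠ i3 → u i = 1) → F u = 0) :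
    (∑ u : ∀ i, H i, F u) =
      ∑ j : H ℓ, ∑ s : H i3, F (Function.update (Function.update 1 ℓ j) i3 s) := by
  classical
  rw [← Finset.sum_product' (s := (univ : Finset (H ℓ))) (t := (univ : Finset (H i3)))
    (f := fun j s => F (Function.update (Function.update 1 ℓ j) i3 s))]
  have key : ∀ u : ∀ i, H i, (∀ i, i ≠ ℓ → i ≠ i3 → u i = 1) →
      Function.update (Function.update (1 : ∀ i, H i) ℓ (u ℓ)) i3 (u i3) = u := by
    intro u hu
    funext i
    by_cases hi : i = i3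
    · subst hi; simp
    · rw [Function.update_of_ne hi]
      by_cases hi' : i = ℓ
      · subst hi'; simp
      · rw [Function.update_of_ne hi', hu i hi' hi]; rfl
  rw [← Finset.sum_filter_of_ne (s := (univ : Finset (∀ i, H i)))
    (p := fun u : (∀ i, H i) => ∀ i, i ≠ ℓ → i ≠ i3 → u i = 1)
    (fun u _ h => by
      by_contra h'
      exact h (hF u h'))]
  refine Finset.sum_bij' (fun u _ => (u ℓ, u i3))
    (fun x _ => Function.update (Function.update 1 ℓ x.1) i3 x.2) ?_ ?_ ?_ ?_ ?_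
  · intro u _
    simp
  · intro x _
    simp only [mem_filter, mem_univ, true_and]
    exact fun i hi hi' => by rw [Function.update_of_ne hi', Function.update_of_ne hi]; rfl
  · intro u hu
    simp only [mem_filter, mem_univ, true_and] at hu
    exact key u hu
  · intro x _
    rw [Function.update_of_ne h3.symm, Function.update_self, Function.update_self]
  · intro u hu
    simp only [mem_filter, mem_univ, true_and] at hu
    simp only
    rw [key u hu]

open Classical in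
/-- the final computation -/
private theorem calc_59 {Q : Type} [AddCommGroup Q] {A B : Type} [CommGroup A] [Fintype A]
    [CommGroup B] [Fintype B] (K : Subgroup B) (R : Finset A) (κ : A) (κ' : B)
    (hκ : κ * κ = 1) (hκ' : κ' * κ' = 1) (hK : ∀ s, s ∈ K ↔ κ' * s ∉ K)
    (hR : ∀ s, s ∈ R ↔ κ * s ∉ R) (t : A) (c1 : A → Q) (c2 : A → B → Q)
    (hrel : ∀ j, ∑ s, c2 j s = c1 j - c1 (t⁻¹ * j)) :
    (∑ j : A, ∑ s : B, if j ∈ R ∧ s ∈ K then c2 j s - c2 (κ * j) (κ' * s) else 0) +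
      (∑ j : A, if κ * j ∈ R ∧ κ * t * j ∉ R then c1 j - c1 (κ * j) else 0) =
    ∑ j : A, ∑ s : B, if s ∈ K then c2 j s else 0 := by
  have hκκ : ∀ j : A, κ * (κ * j) = j := fun j => by rw [← mul_assoc, hκ, one_mul]
  have hκκ' : ∀ j : B, κ' * (κ' * j) = j := fun j => by rw [← mul_assoc, hκ', one_mul]
  set Aj : A → Q := fun j => ∑ s : B, if s ∈ K then c2 j s else 0 with hAj
  -- the sum over the complement of `K`
  have h1 : ∀ j, (∑ s : B, if s ∈ K then c2 (κ * j) (κ' * s) else 0) =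
      c1 (κ * j) - c1 (t⁻¹ * (κ * j)) - Aj (κ * j) := by
    intro j
    rw [← hrel (κ * j), hAj]
    simp only
    rw [← Finset.sum_sub_distrib]
    rw [← Equiv.sum_comp (Equiv.mulLeft κ') (fun s => c2 (κ * j) s - if s ∈ K then c2 (κ * j) s
      else 0)]
    refine Finset.sum_congr rfl fun s _ => ?_
    simp only [Equiv.coe_mulLeft]
    by_cases hs : s ∈ K
    · rw [if_pos hs, if_neg ((hK s).1 hs), sub_zero]
    · have : κ' * s ∈ K := by
        by_contra h
        exact hs ((hK s).2 h)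
      rw [if_neg hs, if_pos this, sub_self]
  have h2 : (∑ j : A, ∑ s : B, if j ∈ R ∧ s ∈ K then c2 j s - c2 (κ * j) (κ' * s) else 0) =
      ∑ j : A, if j ∈ R then Aj j - (c1 (κ * j) - c1 (t⁻¹ * (κ * j)) - Aj (κ * j)) else 0 := by
    refine Finset.sum_congr rfl fun j _ => ?_
    by_cases hj : j ∈ R
    · rw [if_pos hj, ← h1 j, hAj]
      simp only
      rw [← Finset.sum_sub_distrib]
      refine Finset.sum_congr rfl fun s _ => ?_
      by_cases hs : s ∈ K
      · rw [if_pos ⟨hj, hs⟩, if_pos hs, if_pos hs]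
      · rw [if_neg (fun h => hs h.2), if_neg hs, if_neg hs, sub_zero]
    · rw [if_neg hj]
      refine Finset.sum_eq_zero fun s _ => ?_
      rw [if_neg (fun h => hj h.1)]
  rw [h2]
  -- reindexations
  have r1 : (∑ j : A, if j ∈ R then Aj (κ * j) else 0) = ∑ j : A, if κ * j ∈ R then Aj j else 0 := by
    rw [← Equiv.sum_comp (Equiv.mulLeft κ) (fun j => if κ * j ∈ R then Aj j else 0)]
    refine Finset.sum_congr rfl fun j _ => ?_
    simp only [Equiv.coe_mulLeft, hκκ]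
  have r2 : (∑ j : A, if j ∈ R then c1 (κ * j) else 0) = ∑ j : A, if κ * j ∈ R then c1 j else 0 := by
    rw [← Equiv.sum_comp (Equiv.mulLeft κ) (fun j => if κ * j ∈ R then c1 j else 0)]
    refine Finset.sum_congr rfl fun j _ => ?_
    simp only [Equiv.coe_mulLeft, hκκ]
  have r3 : (∑ j : A, if j ∈ R then c1 (t⁻¹ * (κ * j)) else 0) =
      ∑ j : A, if κ * t * j ∈ R then c1 j else 0 := by
    rw [← Equiv.sum_comp (Equiv.mulLeft (t⁻¹ * κ)) (fun j => if κ * t * j ∈ R then c1 j else 0)]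
    refine Finset.sum_congr rfl fun j _ => ?_
    have e : κ * t * (t⁻¹ * κ * j) = j := by
      have : κ * t * (t⁻¹ * κ * j) = κ * (κ * j) := by
        rw [mul_assoc κ t, ← mul_assoc t, ← mul_assoc t, mul_inv_cancel, one_mul]
      rw [this, hκκ]
    simp only [Equiv.coe_mulLeft, e]
    rw [mul_assoc]
  have r4 : (∑ j : A, if κ * j ∈ R ∧ κ * t * j ∉ R then c1 (κ * j) else 0) =
      ∑ j : A, if κ * j ∉ R ∧ κ * t * j ∈ R then c1 j else 0 := by
    rw [← Equiv.sum_comp (Equiv.mulLeft κ) (fun j => if κ * j ∉ R ∧ κ * t * j ∈ R then c1 j else 0)]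
    refine Finset.sum_congr rfl fun j _ => ?_
    simp only [Equiv.coe_mulLeft, hκκ]
    have e1 : κ * j ∈ R ↔ j ∉ R := by
      have := hR (κ * j)
      rw [hκκ] at this
      exact this
    have e2 : κ * t * j ∉ R ↔ κ * t * (κ * j) ∈ R := by
      have h := hR (κ * t * (κ * j))
      have e : κ * (κ * t * (κ * j)) = κ * t * j := by
        rw [mul_assoc κ t (κ * j), hκκ, mul_left_comm, mul_assoc]
      rw [e] at h
      exact h.symm
    exact if_congr (and_congr e1 e2) rfl rfl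
  have s1 : (∑ j : A, if j ∈ R then Aj j - (c1 (κ * j) - c1 (t⁻¹ * (κ * j)) - Aj (κ * j)) else 0) =
      (∑ j : A, if j ∈ R then Aj j else 0) - (∑ j : A, if j ∈ R then c1 (κ * j) else 0) +
      (∑ j : A, if j ∈ R then c1 (t⁻¹ * (κ * j)) else 0) +
      (∑ j : A, if j ∈ R then Aj (κ * j) else 0) := by
    rw [← Finset.sum_sub_distrib, ← Finset.sum_add_distrib, ← Finset.sum_add_distrib]
    refine Finset.sum_congr rfl fun j _ => ?_
    split_ifs
    · abel
    · abel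
  have s2 : (∑ j : A, if κ * j ∈ R ∧ κ * t * j ∉ R then c1 j - c1 (κ * j) else 0) =
      (∑ j : A, if κ * j ∈ R ∧ κ * t * j ∉ R then c1 j else 0) -
      ∑ j : A, if κ * j ∈ R ∧ κ * t * j ∉ R then c1 (κ * j) else 0 := by
    rw [← Finset.sum_sub_distrib]
    refine Finset.sum_congr rfl fun j _ => ?_
    split_ifs
    · rfl
    · abel
  rw [s1, s2, r1, r2, r3, r4, ← Finset.sum_sub_distrib, ← Finset.sum_sub_distrib,
    ← Finset.sum_add_distrib, ← Finset.sum_add_distrib, ← Finset.sum_add_distrib]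
  refine Finset.sum_congr rfl fun j _ => ?_
  have e1 : κ * j ∈ R ↔ j ∉ R := by
    have := hR (κ * j)
    rw [hκκ] at this
    exact this
  by_cases ha : κ * j ∈ R <;> by_cases hb : κ * t * j ∈ R
  · have hj : j ∉ R := e1.1 ha
    simp [ha, hb, hj]
  · have hj : j ∉ R := e1.1 ha
    simp [ha, hb, hj]
  · have hj : j ∈ R := by
      by_contra h
      exact ha (e1.2 h)
    simp [ha, hb, hj]
  · have hj : j ∈ R := by
      by_contra h
      exact ha (e1.2 h)
    simp [ha, hb, hj]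

theorem bl_ok : S_bl := by
  classical
  intro ι _ _ H _ _ _ d ℓ i3 K R hK hR h3 Q _ c hc
  have hκ1 : d.κ ℓ * d.κ ℓ = 1 := congrFun d.hκ ℓ
  have hκ3 : d.κ i3 * d.κ i3 = 1 := congrFun d.hκ i3
  set E1 : H ℓ → (∀ i, H i) := fun j => Function.update 1 ℓ j with hE1
  set E2 : H ℓ → H i3 → (∀ i, H i) := fun j s => Function.update (Function.update 1 ℓ j) i3 s
    with hE2
  have E1l : ∀ j, E1 j ℓ = j := fun j => by simp [hE1]
  have E2l : ∀ j s, E2 j s ℓ = j := fun j s => by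
    simp only [hE2]; rw [Function.update_of_ne h3.symm, Function.update_self]
  have E23 : ∀ j s, E2 j s i3 = s := fun j s => by simp [hE2]
  -- splitting the pairing
  have hA : pair (BL d ℓ i3 K R) (Od d c) =
      (∑ u : ∀ i, H i, if (u ℓ ∈ R ∧ u i3 ∈ K) ∧ (∀ i, i ≠ ℓ → i ≠ i3 → u i = 1) then
        Od d c {ℓ, i3} u else 0) +
      ∑ u : ∀ i, H i, if (d.κ ℓ * u ℓ ∈ R ∧ d.κ ℓ * d.τ i3 ℓ * u ℓ ∉ R) ∧
        (∀ i, i ≠ ℓ → u i = 1) then Od d c {ℓ} u else 0 := by
    unfold pair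
    have hne : ({ℓ, i3} : Finset ι) ≠ {ℓ} := by
      intro h
      have : i3 ∈ ({ℓ} : Finset ι) := by rw [← h]; simp
      exact h3 (by simpa using this)
    have hz : ∀ I : Finset ι, I ≠ {ℓ, i3} → I ≠ {ℓ} →
        (∑ u : ∀ i, H i, BL d ℓ i3 K R I u • Od d c I u) = 0 := by
      intro I h1 h2
      refine Finset.sum_eq_zero fun u _ => ?_
      unfold BL
      rw [if_neg h3, if_neg (fun h => h1 h.1), if_neg (fun h => h2 h.1)]
      simp
    rw [← Finset.sum_subset (Finset.subset_univ ({{ℓ, i3}, {ℓ}} : Finset (Finset ι)))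
      (fun I _ hI => by
        simp only [mem_insert, mem_singleton, not_or] at hI
        exact hz I hI.1 hI.2)]
    rw [Finset.sum_pair hne]
    congr 1
    · refine Finset.sum_congr rfl fun u _ => ?_
      unfold BL
      rw [if_neg h3, if_neg (c := ({ℓ, i3} : Finset ι) = {ℓ} ∧ _) (fun h => hne h.1), add_zero]
      by_cases hu : (u ℓ ∈ R ∧ u i3 ∈ K) ∧ (∀ i, i ≠ ℓ → i ≠ i3 → u i = 1)
      · rw [if_pos hu, if_pos ⟨rfl, hu.1.1, hu.1.2, hu.2⟩, one_smul]
      · rw [if_neg hu, if_neg (fun h => hu ⟨⟨h.2.1, h.2.2.1⟩, h.2.2.2⟩), zero_smul]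
    · refine Finset.sum_congr rfl fun u _ => ?_
      unfold BL
      rw [if_neg h3, if_neg (c := ({ℓ} : Finset ι) = {ℓ, i3} ∧ _) (fun h => hne h.1.symm), zero_add]
      by_cases hu : (d.κ ℓ * u ℓ ∈ R ∧ d.κ ℓ * d.τ i3 ℓ * u ℓ ∉ R) ∧ (∀ i, i ≠ ℓ → u i = 1)
      · rw [if_pos hu, if_pos ⟨rfl, hu.1.1, hu.1.2, hu.2⟩, one_smul]
      · rw [if_neg hu, if_neg (fun h => hu ⟨⟨h.2.1, h.2.2.1⟩, h.2.2.2⟩), zero_smul]
  rw [hA, sum2_59 ℓ i3 h3 _ (fun u hu => if_neg (fun h => hu h.2)),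
    sum1_59 ℓ (fun u => if (d.κ ℓ * u ℓ ∈ R ∧ d.κ ℓ * d.τ i3 ℓ * u ℓ ∉ R) ∧
        (∀ i, i ≠ ℓ → u i = 1) then Od d c {ℓ} u else 0) (fun u hu => if_neg (fun h => hu h.2)),
    sum2_59 ℓ i3 h3 (fun u => if u i3 ∈ K ∧ (∀ i, i ≠ ℓ → i ≠ i3 → u i = 1) then
      c {ℓ, i3} u else 0) (fun u hu => if_neg (fun h => hu h.2))]
  have E1o : ∀ j i, i ≠ ℓ → E1 j i = 1 := fun j i hi => by
    simp only [hE1]; rw [Function.update_of_ne hi]; rfl
  have E2o : ∀ j s i, i ≠ ℓ → i ≠ i3 → E2 j s i = 1 := fun j s i hi hi' => by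
    simp only [hE2]; rw [Function.update_of_ne hi', Function.update_of_ne hi]; rfl
  have o2 : ∀ j s, Od d c {ℓ, i3} (E2 j s) =
      c {ℓ, i3} (E2 j s) - c {ℓ, i3} (E2 (d.κ ℓ * j) (d.κ i3 * s)) := by
    intro j s
    unfold Od
    congr 1
    refine hc.dep _ _ _ fun i hi => ?_
    simp only [mem_insert, mem_singleton] at hi
    rcases hi with rfl | rfl
    · rw [Pi.mul_apply, E2l, E2l]
    · rw [Pi.mul_apply, E23, E23]
  have o1 : ∀ j, Od d c {ℓ} (E1 j) = c {ℓ} (E1 j) - c {ℓ} (E1 (d.κ ℓ * j)) := by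
    intro j
    unfold Od
    congr 1
    refine hc.dep _ _ _ fun i hi => ?_
    simp only [mem_singleton] at hi
    subst hi
    rw [Pi.mul_apply, E1l, E1l]
  have hrel : ∀ j, ∑ s, c {ℓ, i3} (E2 j s) = c {ℓ} (E1 j) - c {ℓ} (E1 ((d.τ i3 ℓ)⁻¹ * j)) := by
    intro j
    have h := hc.rel {ℓ, i3} i3 (by simp) h3 (E1 j)
    have he : ({ℓ, i3} : Finset ι).erase i3 = {ℓ} := by
      ext i
      simp only [mem_erase, mem_insert, mem_singleton]
      constructor
      · rintro ⟨h1, rfl | h2⟩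
        · rfl
        · exact absurd h2 h1
      · rintro rfl
        exact ⟨h3.symm, Or.inl rfl⟩
    rw [he] at h
    unfold NN at h
    refine h.trans ?_
    congr 1
    refine hc.dep _ _ _ fun i hi => ?_
    simp only [mem_singleton] at hi
    subst hi
    rw [Pi.mul_apply, E1l, E1l, Pi.inv_apply]
  have hfin := calc_59 K R (d.κ ℓ) (d.κ i3) hκ1 hκ3 hK hR (d.τ i3 ℓ) (fun j => c {ℓ} (E1 j))
    (fun j s => c {ℓ, i3} (E2 j s)) hrel
  refine Eq.trans ?_ (hfin.trans ?_)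
  · congr 1
    · refine Finset.sum_congr rfl fun j _ => Finset.sum_congr rfl fun s _ => ?_
      change (if (E2 j s ℓ ∈ R ∧ E2 j s i3 ∈ K) ∧ (∀ i, i ≠ ℓ → i ≠ i3 → E2 j s i = 1) then
        Od d c {ℓ, i3} (E2 j s) else 0) = _
      by_cases h : j ∈ R ∧ s ∈ K
      · rw [if_pos h, if_pos ⟨⟨by rw [E2l]; exact h.1, by rw [E23]; exact h.2⟩, E2o j s⟩]
        exact o2 j s
      · rw [if_neg h, if_neg]
        rintro ⟨⟨h1, h2⟩, -⟩
        rw [E2l] at h1
        rw [E23] at h2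
        exact h ⟨h1, h2⟩
    · refine Finset.sum_congr rfl fun j _ => ?_
      change (if (d.κ ℓ * E1 j ℓ ∈ R ∧ d.κ ℓ * d.τ i3 ℓ * E1 j ℓ ∉ R) ∧
        (∀ i, i ≠ ℓ → E1 j i = 1) then Od d c {ℓ} (E1 j) else 0) = _
      rw [E1l]
      by_cases h : d.κ ℓ * j ∈ R ∧ d.κ ℓ * d.τ i3 ℓ * j ∉ R
      · rw [if_pos h, if_pos ⟨h, E1o j⟩]
        exact o1 j
      · rw [if_neg h, if_neg (fun h' => h h'.1)]
  · refine Finset.sum_congr rfl fun j _ => Finset.sum_congr rfl fun s _ => ?_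
    change _ = (if E2 j s i3 ∈ K ∧ (∀ i, i ≠ ℓ → i ≠ i3 → E2 j s i = 1) then
        c {ℓ, i3} (E2 j s) else 0)
    rw [E23]
    by_cases h : s ∈ K
    · rw [if_pos h, if_pos ⟨h, E2o j s⟩]
    · rw [if_neg h, if_neg (fun h' => h h'.1)]

end Pool.Agent.NH35.HK
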