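import Pool.Agent.NH35.HK.Stm

/-! HL-6 (helper87): the element `BLs` in terms of systems. -/

set_option autoImplicit false
set_option linter.unusedSectionVars false

namespace Pool.Agent.NH35.HK

open Finset

section bls

variable {m : ℕ} [NeZero m]

private theorem NI_dvd' (J : Finset m.primeFactors) : NI m J ∣ m := by
  unfold NI
  refine Finset.prod_dvd_of_isRelPrime ?_ (fun q _ => Nat.ordProj_dvd m q.1)
  intro q _ r _ hqr
  have hq := Nat.prime_of_mem_primeFactors q.2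
  have hr := Nat.prime_of_mem_primeFactors r.2
  have h1 : Nat.Coprime q.1 r.1 := (Nat.coprime_primes hq hr).2 (fun h => hqr (Subtype.ext h))
  exact Nat.coprime_iff_isRelPrime.1 (Nat.Coprime.pow _ _ h1)

private theorem val_unitsMap {N : ℕ} (hN : N ∣ m) (x : (ZMod m)ˣ) :
    ((ZMod.unitsMap hN x : (ZMod N)ˣ) : ZMod N).val = (x : ZMod m).val % N := by
  have h1 : ((ZMod.unitsMap hN x : (ZMod N)ˣ) : ZMod N) = ((x : ZMod m).val : ZMod N) := by
    rw [ZMod.unitsMap_val]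
    rw [← ZMod.natCast_val]
  rw [h1, ZMod.val_natCast]

private theorem unitsMap_eq_iff {N : ℕ} [NeZero N] (hN : N ∣ m) (x y : (ZMod m)ˣ) :
    ZMod.unitsMap hN x = ZMod.unitsMap hN y ↔ (x : ZMod m).val ≡ (y : ZMod m).val [MOD N] := by
  constructor
  · intro h
    unfold Nat.ModEq
    rw [← val_unitsMap hN, ← val_unitsMap hN, h]
  · intro h
    apply Units.ext
    apply ZMod.val_injective
    rw [val_unitsMap, val_unitsMap]
    exact h

private theorem sum_box (C : Co m) (J : Finset m.primeFactors) (N : ℕ) [NeZero N]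
    (hN : N = NI m J) (hNm : N ∣ m) {Q : Type} [AddCommGroup Q] (F : (ZMod N)ˣ → Q) :
    (∑ u : ∀ q : m.primeFactors, HH m q, (open Classical in
      if ∀ q, q ∉ J → u q = 1 then F (ZMod.unitsMap hNm (C.E u)) else 0)) =
    ∑ a : (ZMod N)ˣ, F a := by
  classical
  rw [← Finset.sum_filter]
  have key : ∀ u v : (∀ q : m.primeFactors, HH m q),
      ZMod.unitsMap hNm (C.E u) = ZMod.unitsMap hNm (C.E v) ↔ ∀ q ∈ J, u q = v q := by
    intro u v
    rw [unitsMap_eq_iff]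
    constructor
    · intro h q hq
      have h2 : q.1 ^ m.factorization q.1 ∣ N := by
        rw [hN]
        exact Finset.dvd_prod_of_mem (fun q : m.primeFactors => q.1 ^ m.factorization q.1) hq
      rw [← C.hE u q, ← C.hE v q, unitsMap_eq_iff]
      exact h.of_dvd h2
    · intro h
      rw [Nat.modEq_iff_dvd, hN]
      unfold NI
      rw [Nat.cast_prod]
      refine Finset.prod_dvd_of_coprime ?_ ?_
      · intro q _ r _ hqr
        have hq := Nat.prime_of_mem_primeFactors q.2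
        have hr := Nat.prime_of_mem_primeFactors r.2
        have h1 : Nat.Coprime q.1 r.1 :=
          (Nat.coprime_primes hq hr).2 (fun h => hqr (Subtype.ext h))
        have h2 := Nat.Coprime.pow (m.factorization q.1) (m.factorization r.1) h1
        exact Nat.isCoprime_iff_coprime.2 h2
      · intro q hq
        have h1 := h q hq
        rw [← C.hE u q, ← C.hE v q, unitsMap_eq_iff, Nat.modEq_iff_dvd] at h1
        exact h1
  refine Finset.sum_bij (fun u _ => ZMod.unitsMap hNm (C.E u)) (fun u _ => Finset.mem_univ _) ?_ ?_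
    (fun u _ => rfl)
  · intro u hu v hv h
    rw [Finset.mem_filter] at hu hv
    rw [key] at h
    funext q
    by_cases hq : q ∈ J
    · exact h q hq
    · rw [hu.2 q hq, hv.2 q hq]
  · intro a _
    obtain ⟨x, hx⟩ := ZMod.unitsMap_surjective hNm a
    obtain ⟨v, hv⟩ := C.E.surjective x
    refine ⟨fun q => if q ∈ J then v q else 1, ?_, ?_⟩
    · rw [Finset.mem_filter]
      refine ⟨Finset.mem_univ _, fun q hq => ?_⟩
      beta_reduce
      rw [if_neg hq]
    · rw [← hx, ← hv, key]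
      intro q hq
      rw [if_pos hq]

private theorem mul_en {N : ℕ} (hNm : N ∣ m) (x : (ZMod m)ˣ) :
    (x : ZMod m) * en m N =
      ((((ZMod.unitsMap hNm x : (ZMod N)ˣ) : ZMod N).val * (m / N) : ℕ) : ZMod m) := by
  rw [val_unitsMap]
  unfold en
  have h1 : (x : ZMod m) = (((x : ZMod m).val : ℕ) : ZMod m) := (ZMod.natCast_zmod_val _).symm
  conv_lhs => rw [h1, ← Nat.cast_mul]
  rw [ZMod.natCast_eq_natCast_iff]
  obtain ⟨k, hk⟩ := hNm
  have hN0 : 0 < N := by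
    rcases Nat.eq_zero_or_pos N with h | h
    · exfalso
      rw [h, zero_mul] at hk
      exact NeZero.ne m hk
    · exact h
  have h2 : m / N = k := by rw [hk]; exact Nat.mul_div_cancel_left k hN0
  rw [h2]
  have h3 : (x : ZMod m).val * k = m * ((x : ZMod m).val / N) + (x : ZMod m).val % N * k := by
    calc (x : ZMod m).val * k
        = (N * ((x : ZMod m).val / N) + (x : ZMod m).val % N) * k := by rw [Nat.div_add_mod]
      _ = (N * k) * ((x : ZMod m).val / N) + (x : ZMod m).val % N * k := by ring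
      _ = _ := by rw [← hk]
  rw [h3]
  unfold Nat.ModEq
  rw [Nat.mul_add_mod]

end bls

theorem bls_ok : S_bls := by
  classical
  intro m _ _ C ℓ i3 _ _ hi3 hℓ3 K R hK hR Q _ D
  have hne : i3 ≠ ℓ := fun h => hℓ3 (by rw [← h]; exact hi3)
  have hne' : ℓ ≠ i3 := fun h => hne h.symm
  obtain ⟨p, hp⟩ : ∃ p, p = ℓ.1 ^ m.factorization ℓ.1 := ⟨_, rfl⟩
  -- the moduli
  have hN1 : ℓ.1 ^ m.factorization ℓ.1 * 3 ^ m.factorization 3 = NI m {ℓ, i3} := by
    unfold NI
    rw [Finset.prod_insert (by rw [Finset.mem_singleton]; exact hne'), Finset.prod_singleton, hi3]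
  have hN2 : ℓ.1 ^ m.factorization ℓ.1 = NI m {ℓ} := by
    unfold NI
    rw [Finset.prod_singleton]
  have hd1 : ℓ.1 ^ m.factorization ℓ.1 * 3 ^ m.factorization 3 ∣ m := hN1 ▸ NI_dvd' _
  have hd2 : ℓ.1 ^ m.factorization ℓ.1 ∣ m := Nat.ordProj_dvd m ℓ.1
  have h3m : 3 ∣ 3 ^ m.factorization 3 := by
    refine dvd_pow_self 3 ?_
    have h1 : 3 ∈ m.primeFactors := by rw [← hi3]; exact i3.2
    exact Finsupp.mem_support_iff.1 (by rw [Nat.support_factorization]; exact h1)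
  -- the sum over the types
  have hpair : pair (BL C.d ℓ i3 K R) (sy C ℓ D) =
      (∑ u : ∀ q : m.primeFactors, HH m q, if u ℓ ∈ R ∧ u i3 ∈ K ∧ (∀ i, i ≠ ℓ → i ≠ i3 → u i = 1) then
        D (((C.E u : (ZMod m)ˣ) : ZMod m) * en m (NI m {ℓ, i3})) else 0) +
      ∑ u : ∀ q : m.primeFactors, HH m q, if C.d.κ ℓ * u ℓ ∈ R ∧ C.d.κ ℓ * C.d.τ i3 ℓ * u ℓ ∉ R ∧
        (∀ i, i ≠ ℓ → u i = 1) then D (((C.E u : (ZMod m)ˣ) : ZMod m) * en m (NI m {ℓ})) else 0 := by
    unfold pair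
    have h1 : ∀ (I : Finset m.primeFactors) (u : ∀ q : m.primeFactors, HH m q),
        BL C.d ℓ i3 K R I u • sy C ℓ D I u =
        (if I = {ℓ, i3} then (if u ℓ ∈ R ∧ u i3 ∈ K ∧ (∀ i, i ≠ ℓ → i ≠ i3 → u i = 1) then
          D (((C.E u : (ZMod m)ˣ) : ZMod m) * en m (NI m {ℓ, i3})) else 0) else 0) +
        (if I = {ℓ} then (if C.d.κ ℓ * u ℓ ∈ R ∧ C.d.κ ℓ * C.d.τ i3 ℓ * u ℓ ∉ R ∧
        (∀ i, i ≠ ℓ → u i = 1) then D (((C.E u : (ZMod m)ˣ) : ZMod m) * en m (NI m {ℓ})) else 0)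
          else 0) := by
      intro I u
      unfold BL
      rw [if_neg hne, add_smul]
      congr 1
      · by_cases hI : I = {ℓ, i3}
        · subst hI
          rw [if_pos rfl]
          by_cases h2 : u ℓ ∈ R ∧ u i3 ∈ K ∧ (∀ i, i ≠ ℓ → i ≠ i3 → u i = 1)
          · rw [if_pos ⟨rfl, h2⟩, if_pos h2, one_smul]
            unfold sy
            rw [if_pos (Finset.mem_insert_self _ _)]
          · rw [if_neg (fun h => h2 h.2), if_neg h2, zero_smul]
        · rw [if_neg hI, if_neg (fun h => hI h.1), zero_smul]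
      · by_cases hI : I = {ℓ}
        · subst hI
          rw [if_pos rfl]
          by_cases h2 : C.d.κ ℓ * u ℓ ∈ R ∧ C.d.κ ℓ * C.d.τ i3 ℓ * u ℓ ∉ R ∧
            (∀ i, i ≠ ℓ → u i = 1)
          · rw [if_pos ⟨rfl, h2⟩, if_pos h2, one_smul]
            unfold sy
            rw [if_pos (Finset.mem_singleton_self _)]
          · rw [if_neg (fun h => h2 h.2), if_neg h2, zero_smul]
        · rw [if_neg hI, if_neg (fun h => hI h.1), zero_smul]
    simp only [h1]
    rw [Finset.sum_comm]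
    simp only [Finset.sum_add_distrib, Finset.sum_ite_eq', Finset.mem_univ, if_true]
  rw [hpair]
  unfold BLs BLg
  congr 1
  · rw [← sum_box C {ℓ, i3} _ hN1 hd1]
    refine Finset.sum_congr rfl fun u _ => ?_
    have hiff : (∀ q, q ∉ ({ℓ, i3} : Finset m.primeFactors) → u q = 1) ↔
        ∀ i, i ≠ ℓ → i ≠ i3 → u i = 1 := by
      constructor
      · intro h i h1 h2
        exact h i (by simp [h1, h2])
      · intro h q hq
        rw [Finset.mem_insert, Finset.mem_singleton] at hq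
        push Not at hq
        exact h q hq.1 hq.2
    have hval : ((ZMod.unitsMap hd1 (C.E u) :
        (ZMod (ℓ.1 ^ m.factorization ℓ.1 * 3 ^ m.factorization 3))ˣ) : ZMod (ℓ.1 ^ m.factorization ℓ.1 * 3 ^ m.factorization 3)).val =
      ((C.E u : (ZMod m)ˣ) : ZMod m).val % (ℓ.1 ^ m.factorization ℓ.1 * 3 ^ m.factorization 3) :=
      val_unitsMap hd1 _
    have hRu : u ℓ ∈ R ↔ 2 * (((ZMod.unitsMap hd1 (C.E u) :
        (ZMod (ℓ.1 ^ m.factorization ℓ.1 * 3 ^ m.factorization 3))ˣ) : ZMod (ℓ.1 ^ m.factorization ℓ.1 * 3 ^ m.factorization 3)).val %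
        ℓ.1 ^ m.factorization ℓ.1) < ℓ.1 ^ m.factorization ℓ.1 := by
      rw [hR, hval, Nat.mod_mod_of_dvd _ (Dvd.intro _ rfl), ← C.hE u ℓ, val_unitsMap]
    have hKu : u i3 ∈ K ↔ ((ZMod.unitsMap hd1 (C.E u) :
        (ZMod (ℓ.1 ^ m.factorization ℓ.1 * 3 ^ m.factorization 3))ˣ) : ZMod (ℓ.1 ^ m.factorization ℓ.1 * 3 ^ m.factorization 3)).val % 3 = 1 := by
      have h3 : 3 ∣ i3.1 ^ m.factorization i3.1 := by
        rw [hi3]; exact h3m
      rw [hK, hval, Nat.mod_mod_of_dvd _ (h3m.trans (Dvd.intro_left _ rfl)), ← C.hE u i3,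
        val_unitsMap, Nat.mod_mod_of_dvd _ h3]
    by_cases h1 : ∀ i, i ≠ ℓ → i ≠ i3 → u i = 1
    · rw [if_pos (hiff.2 h1)]
      by_cases h2 : u ℓ ∈ R ∧ u i3 ∈ K
      · rw [if_pos ⟨h2.1, h2.2, h1⟩, if_pos ⟨hRu.1 h2.1, hKu.1 h2.2⟩, ← hN1, mul_en hd1]
      · rw [if_neg (fun h => h2 ⟨h.1, h.2.1⟩), if_neg (fun h => h2 ⟨hRu.2 h.1, hKu.2 h.2⟩)]
    · rw [if_neg (fun h => h1 h.2.2), if_neg (fun h => h1 (hiff.1 h))]
  · rw [← sum_box C {ℓ} _ hN2 hd2]
    refine Finset.sum_congr rfl fun u _ => ?_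
    have hiff : (∀ q, q ∉ ({ℓ} : Finset m.primeFactors) → u q = 1) ↔
        ∀ i, i ≠ ℓ → u i = 1 := by
      constructor
      · intro h i h1
        exact h i (by simp [h1])
      · intro h q hq
        rw [Finset.mem_singleton] at hq
        exact h q hq
    have hu : ZMod.unitsMap hd2 (C.E u) = u ℓ := C.hE u ℓ
    have hR1 : C.d.κ ℓ * u ℓ ∈ R ↔ 2 * (-((u ℓ : HH m ℓ) : ZMod (ℓ.1 ^ m.factorization ℓ.1))).val <
        ℓ.1 ^ m.factorization ℓ.1 := by
      rw [hR, C.hκ, neg_one_mul, Units.val_neg]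
    have hR2 : C.d.κ ℓ * C.d.τ i3 ℓ * u ℓ ∈ R ↔
        2 * (-(3 * ((u ℓ : HH m ℓ) : ZMod (ℓ.1 ^ m.factorization ℓ.1)))).val <
        ℓ.1 ^ m.factorization ℓ.1 := by
      rw [hR, C.hκ, neg_one_mul, neg_mul, Units.val_neg, Units.val_mul, C.hτ i3 ℓ hne', hi3]
      norm_num
    by_cases h1 : ∀ i, i ≠ ℓ → u i = 1
    · rw [if_pos (hiff.2 h1), hu]
      by_cases h2 : C.d.κ ℓ * u ℓ ∈ R ∧ C.d.κ ℓ * C.d.τ i3 ℓ * u ℓ ∉ R
      · rw [if_pos ⟨h2.1, h2.2, h1⟩, if_pos ⟨hR1.1 h2.1, fun h => h2.2 (hR2.2 h)⟩, ← hN2,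
          mul_en hd2, hu]
      · rw [if_neg (fun h => h2 ⟨h.1, h.2.1⟩),
          if_neg (fun h => h2 ⟨hR1.2 h.1, fun h3 => h.2 (hR2.1 h3)⟩)]
    · rw [if_neg (fun h => h1 h.2.2), if_neg (fun h => h1 (hiff.1 h))]

end Pool.Agent.NH35.HK
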