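import Pool.Agent.NH35.HK.Stm

/-! The boxes of the elements of a multiset. -/

set_option autoImplicit false
set_option linter.unusedSectionVars false

namespace Pool.Agent.NH35.HK

open Finset Pool.Agent.H916R2 Pool.Agent.NH35.HG Pool.Agent.NH35.HE

private lemma bx_ord {m : ℕ} [NeZero m] (z : ZMod m) : addOrderOf z ∣ m := by
  have := addOrderOf_dvd_card (x := z)
  rwa [ZMod.card] at this

private lemma bx_ord_pos {m : ℕ} [NeZero m] (z : ZMod m) : 0 < addOrderOf z :=
  Nat.pos_of_dvd_of_pos (bx_ord z) (Nat.pos_of_ne_zero (NeZero.ne m))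

private lemma bx_dvd {m : ℕ} [NeZero m] (z : ZMod m) (q : m.primeFactors) :
    q.1 ^ (addOrderOf z).factorization q.1 ∣ q.1 ^ m.factorization q.1 :=
  pow_dvd_pow _ ((Nat.factorization_le_iff_dvd (bx_ord_pos z).ne' (NeZero.ne m)).2 (bx_ord z) q.1)

private lemma bx_card {n k : ℕ} [NeZero n] [NeZero k] (h : k ∣ n) (v : (ZMod n)ˣ) :
    (univ.filter fun s : (ZMod n)ˣ => ZMod.unitsMap h s = ZMod.unitsMap h v).card *
      Fintype.card (ZMod k)ˣ = Fintype.card (ZMod n)ˣ := by
  classical
  have hs := ZMod.unitsMap_surjective h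
  have h1 : Fintype.card (ZMod n)ˣ = ∑ y : (ZMod k)ˣ,
      (univ.filter fun s : (ZMod n)ˣ => ZMod.unitsMap h s = y).card := by
    rw [← Finset.card_univ (α := (ZMod n)ˣ)]
    exact Finset.card_eq_sum_card_fiberwise (f := ZMod.unitsMap h) (t := univ) (by intro x _; simp)
  have h2 : ∀ y : (ZMod k)ˣ, (univ.filter fun s : (ZMod n)ˣ => ZMod.unitsMap h s = y).card =
      (univ.filter fun s : (ZMod n)ˣ => ZMod.unitsMap h s = ZMod.unitsMap h v).card := fun y =>
    MonoidHom.card_fiber_eq_of_mem_range (ZMod.unitsMap h) (x := y) (y := ZMod.unitsMap h v)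
      (by simpa using hs y) ⟨v, rfl⟩
  rw [h1, Finset.sum_congr rfl fun y _ => h2 y, Finset.sum_const, Finset.card_univ, smul_eq_mul,
    mul_comm]

private lemma bx_neg {n k : ℕ} (h : k ∣ n) (x : (ZMod n)ˣ) :
    ZMod.unitsMap h (-x) = - ZMod.unitsMap h x := by
  ext
  change ZMod.castHom h (ZMod k) ((-x : (ZMod n)ˣ) : ZMod n) =
    - ZMod.castHom h (ZMod k) (x : ZMod n)
  rw [Units.val_neg, map_neg]

private lemma bx_cast {m N : ℕ} [NeZero m] (hN : N ∣ m) (X : ZMod m) :
    ZMod.castHom hN (ZMod N) X = 0 ↔ N ∣ X.val := by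
  conv_lhs => rw [← ZMod.natCast_zmod_val X]
  rw [map_natCast, ZMod.natCast_eq_zero_iff]

private lemma bx_mul {m N : ℕ} [NeZero m] (hN : N ∣ m) (X : ZMod m) :
    X * en m N = 0 ↔ N ∣ X.val := by
  obtain ⟨k, hk⟩ := hN
  have hm : m ≠ 0 := NeZero.ne m
  have hN0 : 0 < N := Nat.pos_of_ne_zero (by rintro rfl; simp at hk; exact hm hk)
  have hk0 : 0 < k := Nat.pos_of_ne_zero (by rintro rfl; simp at hk; exact hm hk)
  have h1 : m / N = k := by rw [hk]; exact Nat.mul_div_cancel_left k hN0
  have h2 : (m ∣ X.val * k) ↔ (N * k ∣ X.val * k) := by rw [← hk]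
  have h3 : X * en m N = ((X.val * k : ℕ) : ZMod m) := by
    unfold en
    rw [h1, Nat.cast_mul, ZMod.natCast_zmod_val]
  rw [h3, ZMod.natCast_eq_zero_iff, h2]
  exact Nat.mul_dvd_mul_iff_right hk0

private lemma bx_units {m N : ℕ} [NeZero m] (hN : N ∣ m) (U V : (ZMod m)ˣ) :
    ZMod.unitsMap hN U = ZMod.unitsMap hN V ↔ N ∣ ((U : ZMod m) - V).val := by
  rw [← bx_cast hN, map_sub, sub_eq_zero, Units.ext_iff]
  rfl

private lemma bx_mem_ty {m : ℕ} (z : ZMod m) (q : m.primeFactors) :
    q ∈ ty z ↔ q.1 ∣ addOrderOf z := by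
  simp [ty]

private lemma bx_eq {m : ℕ} [NeZero m] (C : Co m) (z : ZMod m)
    (u v : ∀ q : m.primeFactors, HH m q) :
    ((C.E u : (ZMod m)ˣ) : ZMod m) * en m (addOrderOf z) =
      ((C.E v : (ZMod m)ˣ) : ZMod m) * en m (addOrderOf z) ↔
    ∀ q ∈ ty z, ZMod.unitsMap (bx_dvd z q) (u q) = ZMod.unitsMap (bx_dvd z q) (v q) := by
  rw [← sub_eq_zero, ← sub_mul, bx_mul (bx_ord z)]
  have key : ∀ q : m.primeFactors, ZMod.unitsMap (bx_dvd z q) (u q) =
      ZMod.unitsMap (bx_dvd z q) (v q) ↔ q.1 ^ (addOrderOf z).factorization q.1 ∣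
        (((C.E u : (ZMod m)ˣ) : ZMod m) - ((C.E v : (ZMod m)ˣ) : ZMod m)).val := by
    intro q
    rw [← bx_units ((bx_dvd z q).trans (Nat.ordProj_dvd m q.1))]
    rw [← C.hE u q, ← C.hE v q]
    rw [← MonoidHom.comp_apply, ← MonoidHom.comp_apply, ZMod.unitsMap_comp]
  constructor
  · intro h q hq
    rw [key]
    exact (Nat.ordProj_dvd _ _).trans h
  · intro h
    rw [Nat.dvd_iff_prime_pow_dvd_dvd]
    intro p k hp hpk
    rcases Nat.eq_zero_or_pos k with rfl | hk
    · simp
    have hpo : p ∣ addOrderOf z := (dvd_pow_self p hk.ne').trans hpk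
    have hpm : p ∈ m.primeFactors :=
      Nat.mem_primeFactors.2 ⟨hp, hpo.trans (bx_ord z), NeZero.ne m⟩
    have h1 := (key ⟨p, hpm⟩).1 (h ⟨p, hpm⟩ ((bx_mem_ty z _).2 hpo))
    refine dvd_trans ?_ h1
    exact pow_dvd_pow _ ((hp.pow_dvd_iff_le_factorization (bx_ord_pos z).ne').1 hpk)

private lemma bx_exists {m : ℕ} [NeZero m] (z : ZMod m) :
    ∃ U : (ZMod m)ˣ, (U : ZMod m) * en m (addOrderOf z) = z := by
  have hm : m ≠ 0 := NeZero.ne m
  have hord : addOrderOf z = m / m.gcd z.val := by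
    conv_lhs => rw [← ZMod.natCast_zmod_val z]
    exact ZMod.addOrderOf_coe _ hm
  set d := m.gcd z.val with hd
  have hd0 : 0 < d := Nat.gcd_pos_of_pos_left _ (Nat.pos_of_ne_zero hm)
  have hdm : d ∣ m := Nat.gcd_dvd_left _ _
  obtain ⟨z', hz'⟩ : d ∣ z.val := Nat.gcd_dvd_right _ _
  have hcop : z'.Coprime (m / d) := by
    have h1 := Nat.coprime_div_gcd_div_gcd (m := m) (n := z.val) hd0
    have h2 : z.val / m.gcd z.val = z' := by
      rw [← hd, hz']; exact Nat.mul_div_cancel_left _ hd0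
    rw [h2] at h1
    exact h1.symm
  have hdd : m / d ∣ m := Nat.div_dvd_of_dvd hdm
  obtain ⟨U, hU⟩ := ZMod.unitsMap_surjective hdd (ZMod.unitOfCoprime z' hcop)
  refine ⟨U, ?_⟩
  have hk : m / (m / d) = d := Nat.div_div_self hdm hm
  have h1 : (z' : ZMod m) * en m (m / d) = z := by
    unfold en
    rw [hk, ← Nat.cast_mul, mul_comm z' d, ← hz', ZMod.natCast_zmod_val]
  rw [hord]
  conv_rhs => rw [← h1]
  rw [← sub_eq_zero, ← sub_mul, bx_mul hdd, ← bx_cast hdd, map_sub, sub_eq_zero, map_natCast]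
  have h2 := congrArg Units.val hU
  rw [ZMod.coe_unitOfCoprime] at h2
  rw [← h2]
  rfl

private lemma bx_target {q a : ℕ} (hq : q.Prime) (ha : 0 < a) [NeZero (q ^ a)] :
    q - 1 ≤ Fintype.card (ZMod (q ^ a))ˣ ∧
      (2 < q → ¬ (q = 3 ∧ a = 1) → 2 < Fintype.card (ZMod (q ^ a))ˣ) := by
  rw [ZMod.card_units_eq_totient, Nat.totient_prime_pow hq ha]
  have h1 : 1 ≤ q ^ (a - 1) := Nat.one_le_pow _ _ hq.pos
  refine ⟨Nat.le_mul_of_pos_left _ h1, fun h2 h3 => ?_⟩
  by_cases h4 : q = 3
  · have h5 : 1 ≤ a - 1 := by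
      rcases Nat.lt_or_ge a 2 with h | h
      · exact absurd ⟨h4, by omega⟩ h3
      · omega
    subst h4
    have h6 : 3 ^ 1 ≤ 3 ^ (a - 1) := Nat.pow_le_pow_right (by norm_num) h5
    omega
  · have h5 : 3 ≤ q - 1 := by omega
    calc 2 < q - 1 := by omega
      _ ≤ q ^ (a - 1) * (q - 1) := Nat.le_mul_of_pos_left _ h1

theorem box_ok : S_box := by
  classical
  intro m _ hm C ℓ i3 K s hs hℓ3 h3 hK
  set s' := s.filter fun z => ℓ.1 ∣ addOrderOf z with hs'
  have hex : ∀ z : ZMod m, ∃ v : ∀ q : m.primeFactors, HH m q,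
      ((C.E v : (ZMod m)ˣ) : ZMod m) * en m (addOrderOf z) = z := by
    intro z
    obtain ⟨U, hU⟩ := bx_exists z
    exact ⟨C.E.symm U, by rw [MulEquiv.apply_symm_apply]; exact hU⟩
  choose v hv using hex
  have hprime : ∀ q : m.primeFactors, q.1.Prime := fun q => Nat.prime_of_mem_primeFactors q.2
  have hodd : ∀ q : m.primeFactors, 2 < q.1 := by
    intro q
    have h1 := (hprime q).two_le
    have h2 : q.1 ≠ 2 := by
      intro h
      have h3 : 2 ∣ m := h ▸ Nat.dvd_of_mem_primeFactors q.2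
      exact (Nat.not_even_iff_odd.2 hm) (even_iff_two_dvd.2 h3)
    omega
  have hnz : ∀ (z : ZMod m) (q : m.primeFactors),
      NeZero (q.1 ^ (addOrderOf z).factorization q.1) :=
    fun z q => ⟨pow_ne_zero _ (hprime q).ne_zero⟩
  have hfac : ∀ (z : ZMod m) (q : m.primeFactors), q ∈ ty z →
      0 < (addOrderOf z).factorization q.1 := by
    intro z q hq
    exact (hprime q).factorization_pos_of_dvd (bx_ord_pos z).ne' ((bx_mem_ty z q).1 hq)
  let b : ZMod m → ∀ q : m.primeFactors, Finset (HH m q) := fun z q =>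
    univ.filter fun x => ZMod.unitsMap (bx_dvd z q) x = ZMod.unitsMap (bx_dvd z q) (v z q)
  have hb : ∀ z q x, x ∈ b z q ↔
      ZMod.unitsMap (bx_dvd z q) x = ZMod.unitsMap (bx_dvd z q) (v z q) := by
    intro z q x
    simp only [b, mem_filter, mem_univ, true_and]
  have hbne : ∀ z q, (b z q).Nonempty := fun z q => ⟨v z q, (hb z q _).2 rfl⟩
  have hcard : ∀ z q, (b z q).card *
      (haveI := hnz z q; Fintype.card (ZMod (q.1 ^ (addOrderOf z).factorization q.1))ˣ) =
      Fintype.card (HH m q) := by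
    intro z q
    have := hnz z q
    exact bx_card (bx_dvd z q) (v z q)
  let T := s'.ToType
  have hTmem : ∀ t : s'.ToType, ℓ.1 ∣ addOrderOf (t.1 : ZMod m) := by
    intro t
    have h1 : (t.1 : ZMod m) ∈ s' := Multiset.coe_mem
    exact (Multiset.mem_filter.1 h1).2
  let β : Bx C.d ℓ i3 K s'.ToType :=
    { A := fun t => ty (t.1 : ZMod m)
      b := fun t q => b t.1 q
      ε := fun _ => 1
      hε := fun _ => Or.inl rfl
      hℓ := fun t => (bx_mem_ty _ _).2 (hTmem t)
      hsmall := by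
        intro t
        have := hnz t.1 ℓ
        have h1 := hcard t.1 ℓ
        have h2 := (bx_target (hprime ℓ) (hfac t.1 ℓ ((bx_mem_ty _ _).2 (hTmem t)))).1
        have h3 : Fintype.card s'.ToType ≤ Multiset.card s := by
          rw [Multiset.card_coe]
          exact Multiset.card_le_card (Multiset.filter_le _ _)
        have h4 : 0 < (b t.1 ℓ).card := (hbne t.1 ℓ).card_pos
        rw [← h1, mul_comm (b t.1 ℓ).card]
        exact Nat.mul_lt_mul_of_pos_right (by omega) h4
      hne := fun t q _ => hbne t.1 q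
      hdis := by
        intro t q hq x hx hx'
        have := hnz t.1 q
        rw [hb] at hx hx'
        rw [C.hκ, neg_mul, one_mul] at hx'
        rw [bx_neg, hx] at hx'
        have h2 : (-1 : (ZMod (q.1 ^ (addOrderOf (t.1 : ZMod m)).factorization q.1))ˣ) = 1 := by
          have h5 : (-1 : (ZMod (q.1 ^ (addOrderOf (t.1 : ZMod m)).factorization q.1))ˣ) *
              ZMod.unitsMap (bx_dvd t.1 q) (v t.1 q) =
              1 * ZMod.unitsMap (bx_dvd t.1 q) (v t.1 q) := by
            rw [neg_mul, one_mul]; exact hx'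
          exact mul_right_cancel h5
        have h3 : (-1 : ZMod (q.1 ^ (addOrderOf (t.1 : ZMod m)).factorization q.1)) = 1 := by
          have := congrArg Units.val h2
          simpa using this
        have : Fact (2 < q.1 ^ (addOrderOf (t.1 : ZMod m)).factorization q.1) := by
          refine ⟨lt_of_lt_of_le (hodd q) ?_⟩
          exact Nat.le_self_pow (hfac t.1 q hq).ne' q.1
        exact ZMod.neg_one_ne_one h3
      hcov := by
        intro t q hq hqℓ
        have := hnz t.1 q
        by_cases h : q.1 = 3 ∧ (addOrderOf (t.1 : ZMod m)).factorization q.1 = 1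
        · right
          have hq3 := h3 q h.1
          refine ⟨hq3, (v t.1 q)⁻¹, ?_⟩
          subst hq3
          intro x
          change x ∈ b t.1 q ↔ (v t.1 q)⁻¹ * x ∈ K
          rw [hb, hK h.1]
          have h5 : ZMod.unitsMap (bx_dvd t.1 q) x = ZMod.unitsMap (bx_dvd t.1 q) (v t.1 q) ↔
              ZMod.unitsMap (bx_dvd t.1 q) ((v t.1 q)⁻¹ * x) = 1 := by
            rw [map_mul, map_inv, inv_mul_eq_one, eq_comm]
          rw [h5]
          set y := (v t.1 q)⁻¹ * x with hy
          rw [Units.ext_iff, Units.val_one]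
          change ZMod.castHom (bx_dvd t.1 q) _ (y : ZMod _) = 1 ↔ _
          conv_lhs => rw [← ZMod.natCast_zmod_val (y : ZMod (q.1 ^ m.factorization q.1))]
          rw [map_natCast, ← Nat.cast_one, ZMod.natCast_eq_natCast_iff]
          rw [h.2, pow_one]
          generalize (y : ZMod (q.1 ^ m.factorization q.1)).val = w
          rw [h.1]
          rfl
        · left
          by_contra hcon
          push Not at hcon
          have h1 := hcard t.1 q
          have h2 := (bx_target (hprime q) (hfac t.1 q hq)).2 (hodd q) h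
          have h4 : 0 < (b t.1 q).card := (hbne t.1 q).card_pos
          have h5 : (univ : Finset (HH m q)) ⊆
              b t.1 q ∪ (b t.1 q).image (fun x => (C.d.κ q)⁻¹ * x) := by
            intro x _
            rw [mem_union, mem_image]
            by_cases h6 : x ∈ b t.1 q
            · exact Or.inl h6
            · exact Or.inr ⟨_, hcon x h6, by rw [inv_mul_cancel_left]⟩
          have h6 := Finset.card_le_card h5
          have h7 := Finset.card_union_le (b t.1 q) ((b t.1 q).image (fun x => (C.d.κ q)⁻¹ * x))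
          have h8 := Finset.card_image_le (s := b t.1 q) (f := fun x => (C.d.κ q)⁻¹ * x)
          rw [Finset.card_univ, ← h1] at h6
          have h9 : (b t.1 q).card * 3 ≤ (b t.1 q).card *
              Fintype.card (ZMod (q.1 ^ (addOrderOf (t.1 : ZMod m)).factorization q.1))ˣ :=
            Nat.mul_le_mul_left _ h2
          omega }
  have hin : ∀ (z : ZMod m) (u : ∀ q : m.primeFactors, HH m q), InBox C z u ↔
      (∀ q ∈ ty z, u q ∈ b z q) ∧ ∀ q, q ∉ ty z → u q = 1 := by
    intro z u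
    unfold InBox
    have h1 : (((C.E u : (ZMod m)ˣ) : ZMod m) * en m (addOrderOf z) = z) ↔
        ∀ q ∈ ty z, u q ∈ b z q := by
      have h2 := bx_eq C z u (v z)
      rw [hv z] at h2
      rw [h2]
      simp only [hb]
    rw [h1]
  refine ⟨s'.ToType, inferInstance, β, ?_⟩
  intro Q _ c
  have h1 : pair β.X c = ∑ t : s'.ToType, ev C c (t.1 : ZMod m) := by
    unfold pair Bx.X
    simp only [Finset.sum_smul, ite_smul, zero_smul]
    calc _ = ∑ I : Finset m.primeFactors, ∑ t : s'.ToType, ∑ u : ∀ q : m.primeFactors, HH m q,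
          (if β.A t = I ∧ (∀ i ∈ I, u i ∈ β.b t i) ∧ (∀ i, i ∉ I → u i = 1)
            then β.ε t • c I u else 0) := Finset.sum_congr rfl fun I _ => Finset.sum_comm
      _ = ∑ t : s'.ToType, ∑ I : Finset m.primeFactors, ∑ u : ∀ q : m.primeFactors, HH m q,
          (if β.A t = I ∧ (∀ i ∈ I, u i ∈ β.b t i) ∧ (∀ i, i ∉ I → u i = 1)
            then β.ε t • c I u else 0) := Finset.sum_comm
      _ = _ := by
        refine Finset.sum_congr rfl fun t _ => ?_
        rw [Finset.sum_eq_single (ty (t.1 : ZMod m))]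
        · unfold ev
          refine Finset.sum_congr rfl fun u _ => ?_
          by_cases h5 : InBox C (t.1 : ZMod m) u
          · rw [if_pos h5, if_pos]
            · exact one_smul _ _
            · exact ⟨rfl, ((hin _ _).1 h5).1, ((hin _ _).1 h5).2⟩
          · rw [if_neg h5, if_neg]
            rintro ⟨-, h6, h7⟩
            exact h5 ((hin _ _).2 ⟨h6, h7⟩)
        · intro I _ hI
          refine Finset.sum_eq_zero fun u _ => ?_
          rw [if_neg]
          rintro ⟨h6, -⟩
          exact hI h6.symm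
        · intro h6
          exact absurd (mem_univ _) h6
  rw [h1]
  have h2 : (s'.map (ev C c)).sum = ∑ t : s'.ToType, ev C c (t.1 : ZMod m) := by
    rw [← Multiset.map_univ s' (ev C c)]
    rfl
  rw [h2]

end Pool.Agent.NH35.HK
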