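import Pool.Agent.NH35.HK.Stm
import Pool.Agent.H916R2.Relations

/-! (L13) the criterion at level `4 * m` gives the criterion at level `m`. -/

set_option autoImplicit false
set_option linter.unusedSectionVars false

namespace Pool.Agent.NH35.HK

open Finset Pool.Agent.H916R2 Pool.Agent.NH35.HG Pool.Agent.NH35.HE

/-- lifting of units -/
private lemma lift4_h70 (n : ℕ) [NeZero n] (hn : Odd n) (t : (ZMod n)ˣ) :
    ∃ T : (ZMod (4 * n))ˣ, (T : ZMod (4 * n)).val % 4 = 1 ∧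
      (((T : ZMod (4 * n)).val : ℕ) : ZMod n) = t := by
  have hco : Nat.Coprime 4 n := by
    have h1 : Nat.Coprime 2 n := (Nat.coprime_two_left).2 hn
    exact Nat.Coprime.pow_left 2 h1
  obtain ⟨k, hk1, hk2⟩ := Nat.chineseRemainder hco 1 (t : ZMod n).val
  have hk4 : k % 4 = 1 := by
    have : k % 4 = 1 % 4 := hk1
    omega
  have hc4 : Nat.Coprime k 4 := by
    have h1 : k.Coprime 2 := (Nat.coprime_two_right).2 (Nat.odd_iff.2 (by omega))
    exact Nat.Coprime.pow_right 2 h1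
  have hcn : Nat.Coprime k n := by
    have h1 : Nat.gcd k n = Nat.gcd (t : ZMod n).val n := hk2.gcd_eq
    have h2 : Nat.Coprime (t : ZMod n).val n := ZMod.val_coe_unit_coprime t
    unfold Nat.Coprime
    rw [h1]
    exact h2
  refine ⟨ZMod.unitOfCoprime k (Nat.Coprime.mul_right hc4 hcn), ?_, ?_⟩
  · rw [ZMod.coe_unitOfCoprime, ZMod.val_natCast, Nat.mod_mul_right_mod, hk4]
  · rw [ZMod.coe_unitOfCoprime, ZMod.val_natCast]
    have h1 : ((k % (4 * n) : ℕ) : ZMod n) = ((k : ℕ) : ZMod n) := by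
      rw [ZMod.natCast_eq_natCast_iff']
      exact Nat.mod_mul_left_mod k 4 n
    rw [h1]
    have h2 : ((k : ℕ) : ZMod n) = (((t : ZMod n).val : ℕ) : ZMod n) := by
      rw [ZMod.natCast_eq_natCast_iff]
      exact hk2
    rw [h2, ZMod.natCast_zmod_val]

/-- values modulo `4 * n` of multiples of four -/
private lemma val4_h70 (n m r j : ℕ) [NeZero n] [NeZero m] (T : (ZMod (4 * n))ˣ) (t : (ZMod n)ˣ)
    (hT : (((T : ZMod (4 * n)).val : ℕ) : ZMod n) = t) (z : ZMod m) :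
    ((T : ZMod (4 * n)) * ((r : ZMod (4 * n)) ^ j *
      (((iota 4 z : ZMod (4 * m)).val : ℕ) : ZMod (4 * n)))).val =
      4 * ((t : ZMod n) * ((r : ZMod n) ^ j * ((z.val : ℕ) : ZMod n))).val := by
  have : NeZero (4 * n) := ⟨mul_ne_zero (by norm_num) (NeZero.ne n)⟩
  have hz : (iota 4 z : ZMod (4 * m)).val = 4 * z.val := by
    unfold iota
    rw [ZMod.val_natCast, Nat.mod_eq_of_lt]
    have := ZMod.val_lt z
    omega
  have h1 : (T : ZMod (4 * n)) * ((r : ZMod (4 * n)) ^ j *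
      (((iota 4 z : ZMod (4 * m)).val : ℕ) : ZMod (4 * n))) =
      ((4 * ((T : ZMod (4 * n)).val * (r ^ j * z.val)) : ℕ) : ZMod (4 * n)) := by
    rw [hz]
    push_cast
    rw [ZMod.natCast_zmod_val]
    ring
  have h2 : (t : ZMod n) * ((r : ZMod n) ^ j * ((z.val : ℕ) : ZMod n)) =
      (((T : ZMod (4 * n)).val * (r ^ j * z.val) : ℕ) : ZMod n) := by
    rw [← hT]
    push_cast
    rfl
  rw [h1, h2, ZMod.val_natCast, ZMod.val_natCast, Nat.mul_mod_mul_left]

private lemma dI4_h70 (r n f m : ℕ) [NeZero n] [NeZero m] (T T' : (ZMod (4 * n))ˣ)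
    (t t' : (ZMod n)ˣ) (hT : (((T : ZMod (4 * n)).val : ℕ) : ZMod n) = t)
    (hT' : (((T' : ZMod (4 * n)).val : ℕ) : ZMod n) = t') (z : ZMod m) :
    dI r (4 * n) f T T' (iota 4 z : ZMod (4 * m)) = 4 * dI r n f t t' z := by
  unfold dI
  rw [Finset.mul_sum]
  refine Finset.sum_congr rfl fun j _ => ?_
  rw [val4_h70 n m r j T t hT z, val4_h70 n m r j T' t' hT' z]
  push_cast
  ring

private lemma dI_per_h70 (r n f0 g m : ℕ) (h0 : (r : ZMod n) ^ f0 = 1) (t t' : (ZMod n)ˣ)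
    (z : ZMod m) : ((r : ℤ) ^ f0 - 1) * dI r n (g * f0) t t' z =
      ((r : ℤ) ^ (g * f0) - 1) * dI r n f0 t t' z := by
  induction g with
  | zero => simp [dI]
  | succ g ih =>
    have h1 : dI r n ((g + 1) * f0) t t' z = (r : ℤ) ^ f0 * dI r n (g * f0) t t' z +
        dI r n f0 t t' z := by
      rw [add_mul, one_mul]
      unfold dI
      rw [Finset.sum_range_add, Finset.mul_sum]
      congr 1
      · refine Finset.sum_congr rfl fun j hj => ?_
        have hj' : j < g * f0 := Finset.mem_range.1 hj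
        have h2 : g * f0 + f0 - j = f0 + (g * f0 - j) := by omega
        rw [h2, pow_add, mul_assoc]
      · refine Finset.sum_congr rfl fun j hj => ?_
        have h2 : (r : ZMod n) ^ (g * f0 + j) = (r : ZMod n) ^ j := by
          rw [pow_add, mul_comm g, pow_mul, h0, one_pow, one_mul]
        rw [h2]
        congr 2
        omega
    rw [h1, mul_add, mul_left_comm, ih, add_mul, one_mul, pow_add]
    ring

theorem cecd_ok : S_cecd := by
  intro m _ _ hm s H r a n hr ha hrn hmn hn1 t t'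
  have hrm : r ∣ m := by
    rw [← hmn]
    exact Dvd.dvd.mul_right (dvd_pow_self r ha.ne') n
  have hr2 : r ≠ 2 := by
    rintro rfl
    obtain ⟨k, hk⟩ := hm
    omega
  have hnm : n ∣ m := ⟨r ^ a, by rw [← hmn]; ring⟩
  have hn : Odd n := Odd.of_dvd_nat hm hnm
  have hn0 : NeZero n := ⟨by omega⟩
  have hr4 : ¬ r ∣ 4 * n := by
    intro h
    rcases (Nat.Prime.dvd_mul hr).1 h with h | h
    · have h2 : r ∣ 2 ^ 2 := h
      exact hr2 ((Nat.prime_dvd_prime_iff_eq hr Nat.prime_two).1 (hr.dvd_of_dvd_pow h2))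
    · exact hrn h
  obtain ⟨f, hf, hrf, N, k, hN, hdiv⟩ := H r a (4 * n) hr hr2 ha hr4 (by rw [← hmn]; ring)
  obtain ⟨T, hT4, hT⟩ := lift4_h70 n hn t
  obtain ⟨T', hT4', hT'⟩ := lift4_h70 n hn t'
  have h1 := hdiv T T'
  -- the sum at the level `4 * m`
  set S : ℕ → ℤ := fun g => ∑ z : ZMod m, ((s.count z : ℕ) : ℤ) * dI r n g t t' z with hS
  have hsum : ∑ z : ZMod (4 * m), (((s.map (iota 4 : ZMod m → ZMod (4 * m))).count z : ℕ) : ℤ) *
      dI r (4 * n) f T T' z = 4 * S f := by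
    have e1 := sum_count (s.map (iota 4 : ZMod m → ZMod (4 * m)))
      (fun z => dI r (4 * n) f T T' z)
    have e2 := sum_count s (fun z : ZMod m => 4 * dI r n f t t' z)
    simp only [smul_eq_mul] at e1 e2
    rw [e1, Multiset.map_map]
    have e3 : s.map ((fun z => dI r (4 * n) f T T' z) ∘ (iota 4 : ZMod m → ZMod (4 * m))) =
        s.map (fun z : ZMod m => 4 * dI r n f t t' z) := by
      refine Multiset.map_congr rfl fun z _ => ?_
      exact dI4_h70 r n f m T T' t t' hT hT' z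
    rw [e3, ← e2, hS, Finset.mul_sum]
    refine Finset.sum_congr rfl fun z _ => ?_
    ring
  rw [hsum] at h1
  have hw : ∃ w : ℤ, (((T : ZMod (4 * n)).val : ℤ)) - (((T' : ZMod (4 * n)).val : ℤ)) = 4 * w := by
    refine ⟨(((T : ZMod (4 * n)).val / 4 : ℕ) : ℤ) - (((T' : ZMod (4 * n)).val / 4 : ℕ) : ℤ), ?_⟩
    omega
  obtain ⟨w, hw⟩ := hw
  rw [hw] at h1
  have h2 : ((r : ℤ) ^ f - 1) ∣ N * S f := by
    obtain ⟨v, hv⟩ := h1
    push_cast at hv
    refine ⟨(n : ℤ) * v + k * w, ?_⟩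
    have h3 : 4 * (N * S f) = 4 * (((r : ℤ) ^ f - 1) * ((n : ℤ) * v + k * w)) := by
      linear_combination hv
    exact mul_left_cancel₀ (by norm_num) h3
  -- the order
  have hrf' : (r : ZMod n) ^ f = 1 := by
    have h3 := congrArg (ZMod.castHom (Dvd.intro_left 4 rfl : n ∣ 4 * n) (ZMod n)) hrf
    rwa [map_pow, map_natCast, map_one] at h3
  set f0 := orderOf (r : ZMod n) with hf0
  obtain ⟨g, hg⟩ := orderOf_dvd_of_pow_eq_one hrf'
  have h0 : (r : ZMod n) ^ f0 = 1 := pow_orderOf_eq_one _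
  have hf0pos : 0 < f0 := by
    rcases Nat.eq_zero_or_pos f0 with h | h
    · rw [← hf0, h, zero_mul] at hg
      omega
    · exact h
  have hr3 : 2 < r := by
    have := hr.two_le
    omega
  have hfne : ((r : ℤ) ^ f - 1) ≠ 0 := by
    have h3 : 1 < r ^ f := Nat.one_lt_pow hf.ne' (by omega)
    have h4 : (1 : ℤ) < (r : ℤ) ^ f := by exact_mod_cast h3
    omega
  have hper : ((r : ℤ) ^ f0 - 1) * S f = ((r : ℤ) ^ f - 1) * S f0 := by
    rw [hS]
    simp only
    rw [Finset.mul_sum, Finset.mul_sum]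
    refine Finset.sum_congr rfl fun z _ => ?_
    have h3 := dI_per_h70 r n f0 g m h0 t t' z
    have h4 : g * f0 = f := by rw [hg, hf0, mul_comm]
    rw [h4] at h3
    linear_combination ((s.count z : ℕ) : ℤ) * h3
  have h5 : ((r : ℤ) ^ f0 - 1) ∣ N * S f0 := by
    obtain ⟨v, hv⟩ := h2
    refine ⟨v, ?_⟩
    apply mul_left_cancel₀ hfne
    linear_combination (-N) * hper + ((r : ℤ) ^ f0 - 1) * hv
  refine ⟨N, hN, ?_⟩
  have hDD : ∀ z : ZMod m, DD r n f0 t t' z = ((dI r n f0 t t' z : ℤ) : ZMod (r ^ f0 - 1)) := by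
    intro z
    unfold DD dI
    push_cast
    rfl
  have h6 : N • ∑ z : ZMod m, ((s.count z : ℕ) : ℤ) • DD r n f0 t t' z =
      ((N * S f0 : ℤ) : ZMod (r ^ f0 - 1)) := by
    rw [hS]
    simp only [hDD, zsmul_eq_mul]
    push_cast
    rfl
  rw [h6, ZMod.intCast_zmod_eq_zero_iff_dvd]
  have h7 : (((r ^ f0 - 1 : ℕ)) : ℤ) = (r : ℤ) ^ f0 - 1 := by
    have h8 : 1 ≤ r ^ f0 := Nat.one_le_pow _ _ (by omega)
    push_cast [Nat.cast_sub h8]
    rfl
  rw [h7]
  exact h5

end Pool.Agent.NH35.HK
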