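import Pool.Agent.NH35.HK.Stm
import Pool.Agent.H916K.Level

/-! HL-7: the part of a short relation at a large prime. -/

set_option autoImplicit false
set_option linter.unusedSectionVars false

namespace Pool.Agent.NH35.HK

open Finset Pool.Agent.H916R2 Pool.Agent.NH35.HG Pool.Agent.NH35.HE

namespace Conc

theorem sum_filter_ite {α : Type} {Q : Type} [AddCommGroup Q] (p : α → Prop) [DecidablePred p]
    (f : α → Q) (s : Multiset α) :
    (s.map fun z => if p z then f z else 0).sum = ((s.filter p).map f).sum := by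
  induction s using Multiset.induction_on with
  | empty => simp
  | cons a s ih =>
    rw [Multiset.map_cons, Multiset.sum_cons, ih]
    by_cases h : p a
    · rw [if_pos h, Multiset.filter_cons_of_pos _ h, Multiset.map_cons, Multiset.sum_cons]
    · rw [if_neg h, Multiset.filter_cons_of_neg _ h, zero_add]

/-- the core: general `i3` and `K` -/
theorem core (h0 : S_abs) (h2 : S_sy) (h3 : S_rev) (h4 : S_box) (h5 : S_bls)
    (m : ℕ) [NeZero m] (hm : Odd m) (C : Co m) (lq i3 : m.primeFactors) (hl3 : lq.1 ≠ 3)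
    [NeZero (lq.1 ^ m.factorization lq.1)]
    [NeZero (lq.1 ^ m.factorization lq.1 * 3 ^ m.factorization 3)]
    (K : Subgroup (HH m i3)) (R : Finset (HH m lq))
    (hKK : i3 ≠ lq → ∀ s, s ∈ K ↔ C.d.κ i3 * s ∉ K)
    (hRR : ∀ s, s ∈ R ↔ C.d.κ lq * s ∉ R)
    (hi : ∀ q : m.primeFactors, q.1 = 3 → q = i3) (hi' : i3 ≠ lq → i3.1 = 3)
    (hK : i3.1 = 3 → ∀ g : HH m i3, g ∈ K ↔ (g : ZMod (i3.1 ^ m.factorization i3.1)).val % 3 = 1)
    (hR : ∀ g : HH m lq, g ∈ R ↔
      2 * (g : ZMod (lq.1 ^ m.factorization lq.1)).val < lq.1 ^ m.factorization lq.1)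
    (s : Multiset (ZMod m)) (hs : Multiset.card s + 1 < lq.1)
    (hrel : Rel (fun z : ZMod m => (s.count z : ℤ))) :
    ∃ e : ℤ, (e = 0 ∨ (i3 ≠ lq ∧ (e = 1 ∨ e = -1))) ∧ ∀ (Q : Type) [AddCommGroup Q] (c : ZMod m → Q),
      OddDist c → ((s.filter fun z => lq.1 ∣ addOrderOf z).map c).sum = e • BLs m lq.1 c := by
  obtain ⟨T, hT, β, hβ⟩ := h4 m hm C lq i3 K s hs hl3 hi hK
  obtain ⟨e, he, hall⟩ := h0 m.primeFactors (HH m) C.d lq i3 K R T β hKK hRR (by
    intro γ hγ1 hγ2 hγ3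
    rw [hβ ℤ γ, ← sum_filter_ite]
    have hg := h3 m hm C lq γ hγ1 hγ2 hγ3
    have h := H916K.rel_int hrel hg
    have h' := sum_count s (fun z : ZMod m => if lq.1 ∣ addOrderOf z then ev C γ z else 0)
    simp only [smul_eq_mul] at h'
    rw [← h']
    exact h)
  refine ⟨e, he, fun Q _ c hc => ?_⟩
  obtain ⟨hs1, hs2, hs3⟩ := h2 m hm C lq Q c hc
  have h6 := hall Q (sy C lq c) hs1 hs2
  rw [hβ Q (sy C lq c)] at h6
  have h7 : ((s.filter fun z => lq.1 ∣ addOrderOf z).map (ev C (sy C lq c))) =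
      ((s.filter fun z => lq.1 ∣ addOrderOf z).map c) :=
    Multiset.map_congr rfl fun z hz => hs3 z (Multiset.mem_filter.1 hz).2
  rw [h7] at h6
  rw [h6]
  rcases he with h | ⟨hne, _⟩
  · rw [h, zero_smul, zero_smul]
  · rw [h5 m hm C lq i3 (hi' hne) hl3 K R (hK (hi' hne)) hR Q c]

theorem unit3 (x : (ZMod 3)ˣ) : x = 1 ↔ ¬ (-1 * x = 1) := by
  revert x
  decide

end Conc

open Conc in
/-- (L6) the part of a short relation at a large prime -/
theorem conc_of (h0 : S_abs) (h1 : S_co) (h2 : S_sy) (h3 : S_rev) (h4 : S_box) (h5 : S_bls) :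
    S_conc := by
  classical
  intro m ℓ _ _ _ hm hℓ hℓm hℓ3 s hs hrel
  obtain ⟨C⟩ := h1 m hm
  let lq : m.primeFactors := ⟨ℓ, Nat.mem_primeFactors.2 ⟨hℓ, hℓm, NeZero.ne m⟩⟩
  have i1 : NeZero (lq.1 ^ m.factorization lq.1) :=
    inferInstanceAs (NeZero (ℓ ^ m.factorization ℓ))
  have i2 : NeZero (lq.1 ^ m.factorization lq.1 * 3 ^ m.factorization 3) :=
    inferInstanceAs (NeZero (ℓ ^ m.factorization ℓ * 3 ^ m.factorization 3))
  let R : Finset (HH m lq) := univ.filter fun g =>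
    2 * (g : ZMod (lq.1 ^ m.factorization lq.1)).val < lq.1 ^ m.factorization lq.1
  have hR : ∀ g : HH m lq, g ∈ R ↔
      2 * (g : ZMod (lq.1 ^ m.factorization lq.1)).val < lq.1 ^ m.factorization lq.1 := by
    intro g
    simp [R]
  have hodd : Odd (lq.1 ^ m.factorization lq.1) := Odd.of_dvd_nat hm (Nat.ordProj_dvd m lq.1)
  have hfac : m.factorization lq.1 ≠ 0 := (hℓ.factorization_pos_of_dvd (NeZero.ne m) hℓm).ne'
  have hgt : 1 < lq.1 ^ m.factorization lq.1 := Nat.one_lt_pow hfac hℓ.one_lt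
  have : Fact (1 < lq.1 ^ m.factorization lq.1) := ⟨hgt⟩
  have hRR : ∀ g, g ∈ R ↔ C.d.κ lq * g ∉ R := by
    intro g
    rw [hR, hR, C.hκ]
    have hg0 : (g : ZMod (lq.1 ^ m.factorization lq.1)) ≠ 0 := g.ne_zero
    haveI : NeZero (g : ZMod (lq.1 ^ m.factorization lq.1)) := ⟨hg0⟩
    have h6 : (((-1 * g : HH m lq)) : ZMod (lq.1 ^ m.factorization lq.1)) =
        -(g : ZMod (lq.1 ^ m.factorization lq.1)) := by
      rw [Units.val_mul, Units.val_neg, Units.val_one, neg_mul, one_mul]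
    rw [h6, ZMod.val_neg_of_ne_zero]
    have h7 := ZMod.val_lt (g : ZMod (lq.1 ^ m.factorization lq.1))
    obtain ⟨k, hk⟩ := hodd
    omega
  by_cases h3m : 3 ∣ m
  · let i3 : m.primeFactors := ⟨3, Nat.mem_primeFactors.2 ⟨Nat.prime_three, h3m, NeZero.ne m⟩⟩
    have hfac3 : m.factorization 3 ≠ 0 :=
      (Nat.prime_three.factorization_pos_of_dvd (NeZero.ne m) h3m).ne'
    have hd3 : 3 ∣ i3.1 ^ m.factorization i3.1 := dvd_pow_self 3 hfac3
    let K : Subgroup (HH m i3) := (ZMod.unitsMap hd3).ker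
    have hK0 : ∀ g : HH m i3, g ∈ K ↔ ZMod.unitsMap hd3 g = 1 := fun g => MonoidHom.mem_ker
    have hK : ∀ g : HH m i3, g ∈ K ↔
        (g : ZMod (i3.1 ^ m.factorization i3.1)).val % 3 = 1 := by
      intro g
      rw [hK0, Units.ext_iff, ZMod.unitsMap_val, Units.val_one]
      rw [ZMod.cast_eq_val, ← Nat.cast_one, ZMod.natCast_eq_natCast_iff']
    have hKK : ∀ g : HH m i3, g ∈ K ↔ C.d.κ i3 * g ∉ K := by
      intro g
      rw [hK0, hK0, C.hκ, map_mul]
      have h6 : ZMod.unitsMap hd3 (-1 : HH m i3) = -1 := by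
        apply Units.ext
        rw [ZMod.unitsMap_val, Units.val_neg, Units.val_one, Units.val_neg, Units.val_one]
        rw [ZMod.cast_neg hd3, ZMod.cast_one hd3]
      rw [h6]
      exact unit3 _
    obtain ⟨e, he, hall⟩ := core h0 h2 h3 h4 h5 m hm C lq i3 hℓ3 K R (fun _ => hKK) hRR
      (fun q hq => Subtype.ext hq) (fun _ => rfl) (fun _ => hK) hR s hs hrel
    refine ⟨e, ?_, hall⟩
    rcases he with h | ⟨_, h⟩
    · exact Or.inl h
    · exact Or.inr ⟨h3m, h⟩
  · have hno : ∀ q : m.primeFactors, q.1 ≠ 3 := by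
      intro q hq
      exact h3m (hq ▸ Nat.dvd_of_mem_primeFactors q.2)
    obtain ⟨e, he, hall⟩ := core h0 h2 h3 h4 h5 m hm C lq lq hℓ3 ⊤ R (fun h => absurd rfl h) hRR
      (fun q hq => absurd hq (hno q)) (fun h => absurd rfl h) (fun h => absurd h (hno lq)) hR s hs
      hrel
    refine ⟨e, ?_, hall⟩
    rcases he with h | ⟨h, _⟩
    · exact Or.inl h
    · exact absurd rfl h

end Pool.Agent.NH35.HK
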