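import Pool.Agent.NH35.HK.Stm

/-! Coordinates on the group of units modulo an odd number. -/

set_option autoImplicit false

namespace Pool.Agent.NH35.HK

open Finset

private lemma prime_coo {m : ℕ} (q : m.primeFactors) : q.1.Prime :=
  Nat.prime_of_mem_primeFactors q.2

private lemma two_lt_coo {m : ℕ} (hm : Odd m) (q : m.primeFactors) :
    2 < q.1 ^ m.factorization q.1 := by
  have hq := prime_coo q
  have hqm : q.1 ∣ m := Nat.dvd_of_mem_primeFactors q.2
  have hm0 : m ≠ 0 := by
    rintro rfl
    exact absurd hm (by decide)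
  have hodd : Odd q.1 := Odd.of_dvd_nat hm hqm
  have hq3 : 3 ≤ q.1 := by
    have h2 := hq.two_le
    have hne : q.1 ≠ 2 := by
      intro h
      rw [h] at hodd
      exact absurd hodd (by decide)
    omega
  have hA : 1 ≤ m.factorization q.1 := (hq.dvd_iff_one_le_factorization hm0).1 hqm
  calc 2 < q.1 := hq3
    _ = q.1 ^ 1 := (pow_one _).symm
    _ ≤ q.1 ^ m.factorization q.1 := Nat.pow_le_pow_right hq.pos hA

private lemma inj_coo (m : ℕ) [NeZero m] (v : (ZMod m)ˣ)
    (h : ∀ q : m.primeFactors, ZMod.unitsMap (Nat.ordProj_dvd m q.1) v = 1) : v = 1 := by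
  have hm0 : m ≠ 0 := NeZero.ne m
  have key : Nat.ModEq m (v : ZMod m).val 1 := by
    rw [Nat.modEq_iff_dvd]
    rw [← Int.dvd_natAbs, Int.natCast_dvd_natCast, Nat.dvd_iff_prime_pow_dvd_dvd]
    intro p k hp hk
    rcases Nat.eq_zero_or_pos k with rfl | hk0
    · simp
    have hpm : p ∣ m := dvd_trans (dvd_pow_self p hk0.ne') hk
    have hmem : p ∈ m.primeFactors := Nat.mem_primeFactors.2 ⟨hp, hpm, hm0⟩
    have hle : k ≤ m.factorization p := (hp.pow_dvd_iff_le_factorization hm0).1 hk
    have h1 := h ⟨p, hmem⟩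
    have h2 := congrArg (fun w : (ZMod (p ^ m.factorization p))ˣ => (w : ZMod (p ^ m.factorization p))) h1
    simp only [ZMod.unitsMap_val, Units.val_one] at h2
    rw [← ZMod.natCast_val] at h2
    have h3 : (((v : ZMod m).val : ℕ) : ZMod (p ^ m.factorization p)) = ((1 : ℕ) : ZMod _) := by
      rw [h2, Nat.cast_one]
    rw [ZMod.natCast_eq_natCast_iff, Nat.modEq_iff_dvd, ← Int.dvd_natAbs, Int.natCast_dvd_natCast] at h3
    exact dvd_trans (pow_dvd_pow p hle) h3
  apply Units.ext
  rw [Units.val_one]
  have h4 := (ZMod.natCast_eq_natCast_iff _ _ _).2 key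
  rwa [ZMod.natCast_zmod_val, Nat.cast_one] at h4

private lemma card_coo (m : ℕ) [NeZero m] :
    Fintype.card (ZMod m)ˣ = Fintype.card (∀ q : m.primeFactors, HH m q) := by
  classical
  rw [Fintype.card_pi, ZMod.card_units_eq_totient]
  rw [Nat.multiplicative_factorization Nat.totient (fun x y h => Nat.totient_mul h)
    Nat.totient_one (NeZero.ne m)]
  rw [Finsupp.prod, Nat.support_factorization]
  rw [← Finset.prod_coe_sort]
  refine Finset.prod_congr rfl fun q _ => ?_
  rw [ZMod.card_units_eq_totient]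

/-- the homomorphism to the product of the components -/
private noncomputable def phi_coo (m : ℕ) : (ZMod m)ˣ →* (∀ q : m.primeFactors, HH m q) :=
  MonoidHom.pi fun q => ZMod.unitsMap (Nat.ordProj_dvd m q.1)

private lemma bij_coo (m : ℕ) [NeZero m] : Function.Bijective (phi_coo m) := by
  classical
  rw [Fintype.bijective_iff_injective_and_card]
  refine ⟨?_, card_coo m⟩
  rw [injective_iff_map_eq_one]
  intro v hv
  exact inj_coo m v fun q => congrFun hv q

theorem co_ok : S_co := by
  intro m _ hodd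
  classical
  refine ⟨⟨(MulEquiv.ofBijective (phi_coo m) (bij_coo m)).symm, ?_,
    ⟨fun q r => if h : r = q then 1 else ZMod.unitOfCoprime q.1 ?_, fun _ => -1, ?_, ?_, ?_⟩,
    ?_, ?_⟩⟩
  · intro u q
    have h := (MulEquiv.ofBijective (phi_coo m) (bij_coo m)).apply_symm_apply u
    exact congrFun h q
  · exact Nat.Coprime.pow_right _ ((Nat.coprime_primes (prime_coo q) (prime_coo r)).2
      fun h' => h (Subtype.ext h'.symm))
  · intro i
    simp
  · funext q
    simp
  · intro q h
    have h2 := congrArg (fun w : HH m q => (w : ZMod (q.1 ^ m.factorization q.1))) h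
    simp only [Units.val_neg, Units.val_one] at h2
    have : Fact (2 < q.1 ^ m.factorization q.1) := ⟨two_lt_coo hodd q⟩
    exact ZMod.neg_one_ne_one h2
  · intro q
    rfl
  · intro q r hrq
    simp [hrq]

end Pool.Agent.NH35.HK
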