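import Pool.Agent.NH35.HK.Sys

/-! Decomposition of systems of functions: the leading terms of an odd system are split off. -/

set_option autoImplicit false
set_option linter.unusedSectionVars false

namespace Pool.Agent.NH35.HK

open Finset

variable {ι : Type} [Fintype ι] [DecidableEq ι] {H : ι → Type} [∀ i, CommGroup (H i)]
  [∀ i, Fintype (H i)] [∀ i, DecidableEq (H i)] {Q : Type} [AddCommGroup Q]

theorem nn_zero68 (q : ι) (u : ∀ i, H i) : NN q (0 : (∀ i, H i) → Q) u = 0 := by
  simp [NN]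

theorem nn_sub68 (q : ι) (f g : (∀ i, H i) → Q) (u : ∀ i, H i) :
    NN q (f - g) u = NN q f u - NN q g u := by
  simp [NN, Finset.sum_sub_distrib]

theorem nn_add68 (q : ι) (f g : (∀ i, H i) → Q) (u : ∀ i, H i) :
    NN q (f + g) u = NN q f u + NN q g u := by
  simp [NN, Finset.sum_add_distrib]

theorem sys_zero68 (d : Dat H) (ℓ : ι) : Sys d ℓ (0 : Finset ι → (∀ i, H i) → Q) :=
  ⟨fun _ _ _ _ => rfl, fun _ _ => rfl, fun I q _ _ u => by
    rw [Pi.zero_apply, nn_zero68]; simp⟩

theorem sys_sub68 (d : Dat H) (ℓ : ι) {a b : Finset ι → (∀ i, H i) → Q} (ha : Sys d ℓ a)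
    (hb : Sys d ℓ b) : Sys d ℓ (a - b) :=
  ⟨fun I u v h => by
      rw [Pi.sub_apply, Pi.sub_apply, Pi.sub_apply, ha.dep I u v h, hb.dep I u v h],
    fun I h => by rw [Pi.sub_apply, ha.sup I h, hb.sup I h, sub_zero],
    fun I q h1 h2 u => by
      rw [Pi.sub_apply, nn_sub68, ha.rel I q h1 h2, hb.rel I q h1 h2]
      simp only [Pi.sub_apply]
      abel⟩

theorem sys_add68 (d : Dat H) (ℓ : ι) {a b : Finset ι → (∀ i, H i) → Q} (ha : Sys d ℓ a)
    (hb : Sys d ℓ b) : Sys d ℓ (a + b) :=
  ⟨fun I u v h => by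
      rw [Pi.add_apply, Pi.add_apply, Pi.add_apply, ha.dep I u v h, hb.dep I u v h],
    fun I h => by rw [Pi.add_apply, ha.sup I h, hb.sup I h, add_zero],
    fun I q h1 h2 u => by
      rw [Pi.add_apply, nn_add68, ha.rel I q h1 h2, hb.rel I q h1 h2]
      simp only [Pi.add_apply]
      abel⟩

theorem sys_sum68 (d : Dat H) (ℓ : ι) {α : Type} (s : Finset α)
    (f : α → Finset ι → (∀ i, H i) → Q) (h : ∀ t ∈ s, Sys d ℓ (f t)) :
    Sys d ℓ (∑ t ∈ s, f t) := by
  classical
  induction s using Finset.induction_on with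
  | empty => rw [Finset.sum_empty]; exact sys_zero68 d ℓ
  | insert a s ha ih =>
    rw [Finset.sum_insert ha]
    exact sys_add68 d ℓ (h a (Finset.mem_insert_self _ _))
      (ih fun t ht => h t (Finset.mem_insert_of_mem ht))

theorem odd_sub68 (d : Dat H) {a b : Finset ι → (∀ i, H i) → Q} (ha : Odd1 d a)
    (hb : Odd1 d b) : Odd1 d (a - b) := fun I u => by
  rw [Pi.sub_apply, Pi.sub_apply, Pi.sub_apply, ha I u, hb I u]
  abel

theorem odd_sum68 (d : Dat H) {α : Type} (s : Finset α)
    (f : α → Finset ι → (∀ i, H i) → Q) (h : ∀ t ∈ s, Odd1 d (f t)) :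
    Odd1 d (∑ t ∈ s, f t) := by
  intro I u
  rw [Finset.sum_apply, Finset.sum_apply, Finset.sum_apply, ← Finset.sum_neg_distrib]
  exact Finset.sum_congr rfl fun t ht => h t ht I u

theorem dec_of (h : S_ext) : S_dec := by
  intro ι _ _ H _ _ _ d ℓ R hR Q _ γ hγ hodd k hk
  have hT : ∀ I : Finset ι, I.card = k → Tst ℓ I (fun u => if u ℓ ∈ R then γ I u else 0) := by
    intro I hI
    refine ⟨?_, ?_⟩
    · intro u v huv
      by_cases hl : ℓ ∈ I
      · simp only
        rw [huv ℓ hl, hγ.dep I u v huv]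
      · simp only
        rw [hγ.sup I hl]
        simp
    · intro q hq hql u
      have hz : NN q (γ I) u = 0 := by
        rw [hγ.rel I q hq hql u, hk (I.erase q) ?_]
        · simp
        · rw [Finset.card_erase_of_mem hq, hI]
          have : 0 < I.card := Finset.card_pos.2 ⟨q, hq⟩
          omega
      have hu : ∀ s : H q, Function.update u q s ℓ = u ℓ := fun s =>
        Function.update_of_ne (Ne.symm hql) s u
      unfold NN at hz ⊢
      simp only [hu]
      by_cases hr : u ℓ ∈ R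
      · simp only [hr, if_true]
        exact hz
      · simp only [hr, if_false, Finset.sum_const_zero]
  refine ⟨hT, ?_⟩
  set S : Finset (Finset ι) := (univ.powersetCard k).filter (fun I => ℓ ∈ I) with hS
  have hSm : ∀ I, I ∈ S ↔ I.card = k ∧ ℓ ∈ I := by
    intro I
    simp [hS, Finset.mem_powersetCard]
  set E : Finset ι → Finset ι → (∀ i, H i) → Q := fun I =>
    Od d (Ext d I 1 (fun u => if u ℓ ∈ R then γ I u else 0)) with hE
  have hEx := fun (I : Finset ι) (hI : I ∈ S) =>
    h ι H d ℓ I ((hSm I).1 hI).2 1 Q _ (hT I ((hSm I).1 hI).1)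
  refine ⟨γ - ∑ I ∈ S, E I, ?_, ?_, ?_, ?_⟩
  · exact sys_sub68 d ℓ hγ (sys_sum68 d ℓ S E fun I hI => (hEx I hI).2.1)
  · exact odd_sub68 d hodd (odd_sum68 d S E fun I hI => (hEx I hI).2.2.1)
  · intro A hA
    funext u
    rw [Pi.sub_apply, Pi.sub_apply, Finset.sum_apply, Finset.sum_apply, Pi.zero_apply]
    have hzero : ∀ I ∈ S, I ≠ A → E I A u = 0 := by
      intro I hI hne
      have hns : ¬ I ⊆ A := by
        intro hsub
        refine hne (Finset.eq_of_subset_of_card_le hsub ?_)
        rw [((hSm I).1 hI).1]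
        exact hA
      have := (hEx I hI).2.2.2.2.1 A hns
      exact congrFun this u
    by_cases hAS : A ∈ S
    · rw [Finset.sum_eq_single_of_mem A hAS (fun I hI hne => hzero I hI hne)]
      have h1 : E A A u = (if u ℓ ∈ R then γ A u else 0) -
          (if (d.κ * u) ℓ ∈ R then γ A (d.κ * u) else 0) := (hEx A hAS).2.2.2.1 u
      rw [h1, hodd A u, Pi.mul_apply]
      by_cases hr : u ℓ ∈ R
      · have h2 : d.κ ℓ * u ℓ ∉ R := (hR _).1 hr
        simp [hr, h2]
      · have h2 : d.κ ℓ * u ℓ ∈ R := by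
          by_contra hcon
          exact hr ((hR _).2 hcon)
        simp [hr, h2]
    · rw [Finset.sum_eq_zero (fun I hI => hzero I hI (fun he => hAS (he ▸ hI))), sub_zero]
      rcases hA.lt_or_eq with hlt | heq
      · rw [hk A hlt, Pi.zero_apply]
      · have hl : ℓ ∉ A := fun hl => hAS ((hSm A).2 ⟨heq, hl⟩)
        rw [hγ.sup A hl, Pi.zero_apply]
  · intro A u
    rw [Pi.sub_apply, Pi.sub_apply, Finset.sum_apply, Finset.sum_apply]
    abel

end Pool.Agent.NH35.HK
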