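import Pool.Agent.NH35.HK.Sys

/-! (K1) the extension of a function is a system. -/

set_option autoImplicit false
set_option linter.unusedSectionVars false

namespace Pool.Agent.NH35.HK

open Finset

variable {ι : Type} [Fintype ι] [DecidableEq ι] {H : ι → Type} [∀ i, CommGroup (H i)]
  [∀ i, Fintype (H i)] [∀ i, DecidableEq (H i)]

private lemma mul_update_h70 (g u : ∀ i, H i) (q : ι) (s : H q) :
    g * Function.update u q s = Function.update (g * u) q (g q * s) := by
  funext i
  by_cases hi : i = q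
  · subst hi
    simp
  · simp [Pi.mul_apply, Function.update_of_ne hi]

private lemma NN_mul_h70 (q : ι) {Q : Type} [AddCommGroup Q] (f : (∀ i, H i) → Q)
    (g u : ∀ i, H i) : NN q (fun v => f (g * v)) u = NN q f (g * u) := by
  unfold NN
  simp only [mul_update_h70]
  exact Fintype.sum_equiv (Equiv.mulLeft (g q)) _ _ (fun s => by simp)

private lemma NN_in_h70 (d : Dat H) (I : Finset ι) (w : ∀ i, H i) {Q : Type} [AddCommGroup Q]
    (F : (∀ i, H i) → Q) (A : Finset ι) (q : ι) (hq : q ∈ I) (h0 : ∀ u, NN q F u = 0)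
    (u : ∀ i, H i) : NN q (Ext d I w F A) u = 0 := by
  unfold NN Ext
  by_cases hI : I ⊆ A
  · simp only [if_pos hI]
    rw [Finset.sum_comm]
    refine Finset.sum_eq_zero fun B _ => ?_
    rw [← Finset.smul_sum]
    have h1 : ∀ s : H q, (∀ r ∈ A \ I, Function.update u q s r = pr d B r * w r) ↔
        (∀ r ∈ A \ I, u r = pr d B r * w r) := by
      intro s
      refine forall₂_congr fun r hr => ?_
      have hrq : r ≠ q := by
        rintro rfl
        exact (Finset.mem_sdiff.1 hr).2 hq
      rw [Function.update_of_ne hrq]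
    simp only [h1]
    by_cases hP : ∀ r ∈ A \ I, u r = pr d B r * w r
    · simp only [if_pos hP]
      have h2 := NN_mul_h70 q F (pr d B)⁻¹ u
      rw [h0] at h2
      unfold NN at h2
      rw [h2, smul_zero]
    · simp only [if_neg hP, Finset.sum_const_zero, smul_zero]
  · simp only [if_neg hI, Finset.sum_const_zero]

private lemma NN_out_h70 (I : Finset ι) (w : ∀ i, H i) {Q : Type} [AddCommGroup Q]
    (F : (∀ i, H i) → Q) (hF : Dep I F) (S : Finset ι) (q : ι) (hqI : q ∉ I) (hqS : q ∉ S)
    (p u : ∀ i, H i) :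
    (∑ s : H q, if ∀ r ∈ insert q S, Function.update u q s r = p r * w r then
      F (p⁻¹ * Function.update u q s) else 0) =
    if ∀ r ∈ S, u r = p r * w r then F (p⁻¹ * u) else 0 := by
  have h1 : ∀ s : H q, (∀ r ∈ insert q S, Function.update u q s r = p r * w r) ↔
      (s = p q * w q ∧ ∀ r ∈ S, u r = p r * w r) := by
    intro s
    rw [Finset.forall_mem_insert]
    refine and_congr ?_ ?_
    · simp
    · refine forall₂_congr fun r hr => ?_
      have hrq : r ≠ q := by
        rintro rfl
        exact hqS hr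
      rw [Function.update_of_ne hrq]
  have h2 : ∀ s : H q, F (p⁻¹ * Function.update u q s) = F (p⁻¹ * u) := by
    intro s
    refine hF _ _ fun i hi => ?_
    have hiq : i ≠ q := by
      rintro rfl
      exact hqI hi
    rw [Pi.mul_apply, Pi.mul_apply, Function.update_of_ne hiq]
  simp only [h1, h2]
  by_cases hP : ∀ r ∈ S, u r = p r * w r
  · rw [if_pos hP]
    have h3 : ∀ s : H q, (s = p q * w q ∧ ∀ r ∈ S, u r = p r * w r) ↔ s = p q * w q :=
      fun s => ⟨fun h => h.1, fun h => ⟨h, hP⟩⟩
    simp only [h3, Finset.sum_ite_eq', Finset.mem_univ, if_true]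
  · rw [if_neg hP]
    refine Finset.sum_eq_zero fun s _ => ?_
    rw [if_neg (fun h => hP h.2)]

private lemma Ext_sys_h70 (d : Dat H) (ℓ : ι) (I : Finset ι) (hℓ : ℓ ∈ I) (w : ∀ i, H i)
    {Q : Type} [AddCommGroup Q] (F : (∀ i, H i) → Q) (hF : Tst ℓ I F) :
    Sys d ℓ (Ext d I w F) := by
  refine ⟨?_, ?_, ?_⟩
  · intro A u v huv
    unfold Ext
    by_cases hI : I ⊆ A
    · rw [if_pos hI, if_pos hI]
      refine Finset.sum_congr rfl fun B _ => ?_
      have h1 : (∀ r ∈ A \ I, u r = pr d B r * w r) ↔ (∀ r ∈ A \ I, v r = pr d B r * w r) := by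
        refine forall₂_congr fun r hr => ?_
        rw [huv r (Finset.mem_sdiff.1 hr).1]
      have h2 : F ((pr d B)⁻¹ * u) = F ((pr d B)⁻¹ * v) := by
        refine hF.dep _ _ fun i hi => ?_
        rw [Pi.mul_apply, Pi.mul_apply, huv i (hI hi)]
      simp only [h1, h2]
    · rw [if_neg hI, if_neg hI]
  · intro A hA
    funext u
    unfold Ext
    rw [if_neg (fun h => hA (h hℓ))]
    rfl
  · intro A q hqA hqℓ u
    by_cases hqI : q ∈ I
    · rw [NN_in_h70 d I w F A q hqI (hF.nul q hqI hqℓ) u]
      have hn : ¬ I ⊆ A.erase q := fun h => (Finset.notMem_erase q A) (h hqI)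
      unfold Ext
      rw [if_neg hn, if_neg hn, sub_zero]
    · by_cases hI : I ⊆ A
      · have hI' : I ⊆ A.erase q := Finset.subset_erase.2 ⟨hI, hqI⟩
        have hqS : q ∉ A.erase q \ I := by simp
        have hS : A \ I = insert q (A.erase q \ I) := by
          ext r
          simp only [Finset.mem_sdiff, Finset.mem_insert, Finset.mem_erase]
          constructor
          · intro h
            by_cases hr : r = q
            · exact Or.inl hr
            · exact Or.inr ⟨⟨hr, h.1⟩, h.2⟩
          · rintro (rfl | h)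
            · exact ⟨hqA, hqI⟩
            · exact ⟨h.1.2, h.2⟩
        unfold NN Ext
        simp only [if_pos hI, if_pos hI']
        rw [hS]
        simp only [Finset.sum_powerset_insert hqS]
        rw [Finset.sum_add_distrib, sub_eq_add_neg, ← Finset.sum_neg_distrib]
        congr 1
        · rw [Finset.sum_comm]
          refine Finset.sum_congr rfl fun B _ => ?_
          rw [← Finset.smul_sum, NN_out_h70 I w F hF.dep _ q hqI hqS (pr d B) u]
        · rw [Finset.sum_comm]
          refine Finset.sum_congr rfl fun B hB => ?_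
          have hqB : q ∉ B := fun h => hqS (Finset.mem_powerset.1 hB h)
          rw [← Finset.smul_sum, NN_out_h70 I w F hF.dep _ q hqI hqS (pr d (insert q B)) u,
            Finset.card_insert_of_notMem hqB, pow_succ, mul_neg_one, neg_smul]
          congr 2
          have hp : pr d (insert q B) = d.τ q * pr d B := by
            unfold pr
            rw [Finset.prod_insert hqB]
          rw [hp]
          have h1 : (∀ r ∈ A.erase q \ I, u r = (d.τ q * pr d B) r * w r) ↔
              (∀ r ∈ A.erase q \ I, ((d.τ q)⁻¹ * u) r = pr d B r * w r) := by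
            refine forall₂_congr fun r _ => ?_
            rw [Pi.mul_apply, Pi.mul_apply, Pi.inv_apply, inv_mul_eq_iff_eq_mul, mul_assoc]
          have h2 : (d.τ q * pr d B)⁻¹ * u = (pr d B)⁻¹ * ((d.τ q)⁻¹ * u) := by
            rw [mul_inv, mul_comm (d.τ q)⁻¹, mul_assoc]
          simp only [h1, h2]
      · have hI' : ¬ I ⊆ A.erase q := fun h => hI (h.trans (Finset.erase_subset q A))
        unfold NN Ext
        simp only [if_neg hI, if_neg hI', Finset.sum_const_zero, sub_zero]

private lemma NN_Od_h70 (d : Dat H) (q : ι) {Q : Type} [AddCommGroup Q]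
    (c : Finset ι → (∀ i, H i) → Q) (A : Finset ι) (u : ∀ i, H i) :
    NN q (Od d c A) u = NN q (c A) u - NN q (c A) (d.κ * u) := by
  rw [← NN_mul_h70 q (c A) d.κ u]
  unfold NN Od
  rw [Finset.sum_sub_distrib]

private lemma Od_sys_h70 (d : Dat H) (ℓ : ι) {Q : Type} [AddCommGroup Q]
    (c : Finset ι → (∀ i, H i) → Q) (hc : Sys d ℓ c) : Sys d ℓ (Od d c) := by
  refine ⟨?_, ?_, ?_⟩
  · intro A u v huv
    unfold Od
    rw [hc.dep A u v huv, hc.dep A (d.κ * u) (d.κ * v) fun i hi => by
      rw [Pi.mul_apply, Pi.mul_apply, huv i hi]]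
  · intro A hA
    funext u
    unfold Od
    rw [hc.sup A hA]
    simp
  · intro A q hqA hqℓ u
    rw [NN_Od_h70, hc.rel A q hqA hqℓ, hc.rel A q hqA hqℓ]
    unfold Od
    rw [mul_left_comm (d.τ q)⁻¹ d.κ u]
    abel

private lemma Od_odd_h70 (d : Dat H) {Q : Type} [AddCommGroup Q]
    (c : Finset ι → (∀ i, H i) → Q) : Odd1 d (Od d c) := by
  intro A u
  unfold Od
  rw [← mul_assoc, d.hκ, one_mul, neg_sub]

private lemma Ext_self_h70 (d : Dat H) (I : Finset ι) (w : ∀ i, H i) {Q : Type} [AddCommGroup Q]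
    (F : (∀ i, H i) → Q) (u : ∀ i, H i) : Ext d I w F I u = F u := by
  unfold Ext
  rw [if_pos (Finset.Subset.refl I), Finset.sdiff_self, Finset.powerset_empty,
    Finset.sum_singleton]
  simp [pr]

private lemma Ext_kappa_h70 (d : Dat H) (I : Finset ι) (w : ∀ i, H i) {Q : Type} [AddCommGroup Q]
    (F : (∀ i, H i) → Q) (A : Finset ι) (u : ∀ i, H i) :
    Ext d I w (fun v => F (d.κ * v)) A u = Ext d I (d.κ * w) F A (d.κ * u) := by
  unfold Ext
  by_cases hI : I ⊆ A
  · rw [if_pos hI, if_pos hI]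
    refine Finset.sum_congr rfl fun B _ => ?_
    have h1 : (∀ r ∈ A \ I, (d.κ * u) r = pr d B r * (d.κ * w) r) ↔
        (∀ r ∈ A \ I, u r = pr d B r * w r) := by
      refine forall₂_congr fun r _ => ?_
      rw [Pi.mul_apply, Pi.mul_apply, mul_left_comm, mul_right_inj]
    have h2 : (pr d B)⁻¹ * (d.κ * u) = d.κ * ((pr d B)⁻¹ * u) := mul_left_comm _ _ _
    simp only [h1, h2]
  · rw [if_neg hI, if_neg hI]

theorem ext_ok : S_ext := by
  intro ι _ _ H _ _ _ d ℓ I hℓ w Q _ F hF
  have hs := Ext_sys_h70 d ℓ I hℓ w F hF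
  refine ⟨hs, Od_sys_h70 d ℓ _ hs, Od_odd_h70 d _, ?_, ?_, ?_, ?_⟩
  · intro u
    unfold Od
    rw [Ext_self_h70, Ext_self_h70]
  · intro A hA
    funext u
    unfold Od Ext
    rw [if_neg hA, if_neg hA, sub_zero]
    rfl
  · intro h0 A u
    refine ⟨NN_in_h70 d I w F A ℓ hℓ h0 u, ?_⟩
    rw [NN_Od_h70, NN_in_h70 d I w F A ℓ hℓ h0, NN_in_h70 d I w F A ℓ hℓ h0, sub_zero]
  · funext A u
    show Od d (Ext d I w (fun u => F (d.κ * u))) A u = - Od d (Ext d I (d.κ * w) F) A u
    unfold Od
    rw [Ext_kappa_h70, Ext_kappa_h70, ← mul_assoc, d.hκ, one_mul, neg_sub]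

end Pool.Agent.NH35.HK
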