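import Pool.Agent.NH35.HK.Stm
import Pool.Agent.NH35.HG.Dd
import Pool.Agent.H916R2.Relations

/-! HL-9: the arithmetic condition excludes `e = 1` and `e = -1`. -/

set_option autoImplicit false
set_option linter.unusedSectionVars false

namespace Pool.Agent.NH35.HK

open Finset Pool.Agent.H916R2 Pool.Agent.NH35.HG Pool.Agent.NH35.HE

namespace Kill



/-- the odd number `w` -/
theorem kl_w (l χ : ℤ) (hl : Odd l) (hχ : χ * χ = 1) (A : ℕ) :
    ∃ w : ℤ, Odd w ∧ l ^ A * (l - 1) - χ ^ (A + 1) * (1 - χ) = (l - χ) * w := by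
  induction A with
  | zero => exact ⟨1, odd_one, by linear_combination hχ⟩
  | succ A ih =>
    obtain ⟨w, hw, h⟩ := ih
    have hχo : Odd χ := by
      rcases Int.even_or_odd χ with h1 | h1
      · obtain ⟨k, hk⟩ := h1
        exfalso
        rw [hk] at hχ
        have : (2 : ℤ) ∣ 1 := ⟨2 * k * k, by linear_combination -hχ⟩
        omega
      · exact h1
    refine ⟨l * w + χ ^ (A + 1) * (1 - χ), ?_, ?_⟩
    · refine (hl.mul hw).add_even (Even.mul_left ?_ _)
      exact odd_one.sub_odd hχo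
    · rw [pow_succ χ (A + 1), pow_succ l A]
      linear_combination l * h

/-- the geometric sum -/
theorem kl_geo (l χ : ℤ) (hχ : χ * χ = 1) (f : ℕ) :
    (l - χ) * ∑ j ∈ range f, l ^ (f - j) * χ ^ j = l * (l ^ f - χ ^ f) := by
  induction f with
  | zero => simp
  | succ f ih =>
    rw [sum_range_succ]
    have h1 : ∑ j ∈ range f, l ^ (f + 1 - j) * χ ^ j = l * ∑ j ∈ range f, l ^ (f - j) * χ ^ j := by
      rw [mul_sum]
      refine sum_congr rfl fun j hj => ?_
      have : f + 1 - j = (f - j) + 1 := by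
        have := mem_range.1 hj
        omega
      rw [this, pow_succ]
      ring
    rw [h1, show f + 1 - f = 1 by omega]
    linear_combination l * ih

/-- the final contradiction -/
theorem kl_final (l χ e y k M G h S S1 S0 : ℤ) (A f : ℕ) (hl : Odd l) (hχ : χ * χ = 1)
    (he : e = 1 ∨ e = -1) (hy : Odd y) (hk : Odd k) (hM : M = l ^ f - 1) (hM0 : M ≠ 0)
    (hχf : χ ^ f = 1) (hG : G = ∑ j ∈ range f, l ^ (f - j) * χ ^ j)
    (hh : 2 * h = l ^ A * (l - 1)) (hS : S = S1 + S0) (h1 : M ∣ S1 - (-e * h * y * G))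
    (h0 : 2 * S0 = e * y * χ ^ (A + 1) * (1 - χ) * G) (hkS : M ∣ k * S) : False := by
  obtain ⟨w, hw, hw'⟩ := kl_w l χ hl hχ A
  have hg := kl_geo l χ hχ f
  rw [← hG, hχf, ← hM] at hg
  obtain ⟨a, ha⟩ := h1
  obtain ⟨b, hb⟩ := hkS
  have he' : Odd e := by
    rcases he with rfl | rfl
    · exact odd_one
    · exact ⟨-1, by ring⟩
  have h2 : 2 * S = -(e * y * w * l) * M + 2 * M * a := by
    have e1 : 2 * S = 2 * S1 + 2 * S0 := by rw [hS]; ring
    have e2 : 2 * S1 = -(e * y * G) * (2 * h) + 2 * M * a := by linear_combination 2 * ha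
    rw [e1, e2, h0, hh]
    linear_combination (-e * y * G) * hw' - e * y * w * hg
  have h3 : M * (2 * (b - k * a) + k * (e * y * w * l)) = 0 := by
    linear_combination -2 * hb + k * h2
  have h4 := (mul_eq_zero.1 h3).resolve_left hM0
  have h5 : Odd (k * (e * y * w * l)) := hk.mul (((he'.mul hy).mul hw).mul hl)
  obtain ⟨c, hc⟩ := h5
  omega

/-- reduction modulo three -/
theorem kl_mod3 {x : ℕ} [NeZero x] (h3 : 3 ∣ x) (b : ZMod x) :
    b.val % 3 = 1 ↔ ZMod.castHom h3 (ZMod 3) b = 1 := by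
  rw [ZMod.castHom_apply, ← ZMod.natCast_val]
  constructor
  · intro h
    have := (ZMod.natCast_eq_natCast_iff' b.val 1 3).2 (by rw [h])
    rw [this]; rfl
  · intro h
    have h1 : ((b.val : ℕ) : ZMod 3) = ((1 : ℕ) : ZMod 3) := by rw [h]; rfl
    have := (ZMod.natCast_eq_natCast_iff' b.val 1 3).1 h1
    rw [this]

theorem kl_sum1 (X : ℤ) (y : ℕ) : ∑ i ∈ range (3 * y), (if i % 3 = 1 then 2 * (i : ℤ) - X else 0) =
    3 * (y : ℤ) ^ 2 - y - y * X := by
  induction y with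
  | zero => simp
  | succ y ih =>
    rw [show 3 * (y + 1) = 3 * y + 1 + 1 + 1 by ring, sum_range_succ, sum_range_succ,
      sum_range_succ, ih, if_neg (by omega), if_pos (by omega), if_neg (by omega)]
    push_cast
    ring

/-- the sum over the classes congruent to one -/
theorem kl_T1 {x y : ℕ} [NeZero x] (hx : x = 3 * y) :
    ∑ a : ZMod x, (if a.val % 3 = 1 then saw a else 0) = -(y : ℤ) := by
  have h1 : ∑ a : ZMod x, (if a.val % 3 = 1 then saw a else 0) =
      ∑ i ∈ range (3 * y), (if i % 3 = 1 then 2 * (i : ℤ) - x else 0) := by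
    refine sum_nbij' (fun a => a.val) (fun i => (i : ZMod x)) ?_ ?_ ?_ ?_ ?_
    · intro a _
      rw [mem_range, ← hx]
      exact ZMod.val_lt a
    · intro i _
      exact mem_univ _
    · intro a _
      exact ZMod.natCast_zmod_val a
    · intro i hi
      exact ZMod.val_cast_of_lt (by rw [hx]; exact mem_range.1 hi)
    · intro a _
      by_cases h : a.val % 3 = 1
      · rw [if_pos h, if_pos h]
        unfold saw
        rw [if_neg]
        intro h0
        rw [h0, ZMod.val_zero] at h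
        exact absurd h (by decide)
      · rw [if_neg h, if_neg h]
  rw [h1, kl_sum1, hx]
  push_cast
  ring

/-- the same for units -/
theorem kl_units {x B : ℕ} [NeZero x] (hx : x = 3 ^ B) (F : ZMod x → ℤ) (r : ZMod 3)
    (h3 : 3 ∣ x) (hr : r ≠ 0) :
    ∑ b : (ZMod x)ˣ, (if ZMod.castHom h3 (ZMod 3) (b : ZMod x) = r then F b else 0) =
      ∑ a : ZMod x, (if ZMod.castHom h3 (ZMod 3) a = r then F a else 0) := by
  refine Fintype.sum_of_injective (fun b : (ZMod x)ˣ => (b : ZMod x)) (fun a b h => Units.ext h) _ _ ?_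
    (fun _ => rfl)
  intro a ha
  rw [if_neg]
  intro h
  refine ha ?_
  have h1 : IsUnit a := by
    have h8 : a.val.Coprime (3 ^ B) := by
      refine Nat.Coprime.pow_right _ ?_
      rw [Nat.coprime_comm, Nat.Prime.coprime_iff_not_dvd Nat.prime_three]
      intro h2
      rw [ZMod.castHom_apply, ← ZMod.natCast_val] at h
      rw [(ZMod.natCast_eq_zero_iff _ _).2 h2] at h
      exact hr h.symm
    rw [← hx] at h8
    rw [← ZMod.natCast_zmod_val a, ZMod.isUnit_iff_coprime]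
    exact h8
  obtain ⟨u, hu⟩ := h1
  exact ⟨u, hu⟩

/-- the sign of a unit modulo three -/
def chi3 (r : ZMod 3) : ℤ := if r = 1 then 1 else -1

/-- the sum over the units congruent to one modulo three -/
theorem kl_T {x y B : ℕ} [NeZero x] (hx : x = 3 * y) (hB : x = 3 ^ B) (h3 : 3 ∣ x) (u : (ZMod x)ˣ) :
    ∑ b : (ZMod x)ˣ, (if (b : ZMod x).val % 3 = 1 then saw ((u : ZMod x) * (b : ZMod x)) else 0) =
      -(chi3 (ZMod.castHom h3 (ZMod 3) (u : ZMod x)) * y) := by
  have hT : ∑ a : ZMod x, (if ZMod.castHom h3 (ZMod 3) a = 1 then saw a else 0) = -(y : ℤ) := by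
    rw [← kl_T1 hx]
    refine sum_congr rfl fun a _ => ?_
    by_cases h : a.val % 3 = 1
    · rw [if_pos h, if_pos ((kl_mod3 h3 a).1 h)]
    · rw [if_neg h, if_neg (fun h' => h ((kl_mod3 h3 a).2 h'))]
  have hu0 : ZMod.castHom h3 (ZMod 3) (u : ZMod x) ≠ 0 := by
    exact (u.isUnit.map (ZMod.castHom h3 (ZMod 3))).ne_zero
  have h1 : ∑ b : (ZMod x)ˣ, (if (b : ZMod x).val % 3 = 1 then saw ((u : ZMod x) * (b : ZMod x)) else 0) =
      ∑ b : (ZMod x)ˣ, (if ZMod.castHom h3 (ZMod 3) (b : ZMod x) =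
        ZMod.castHom h3 (ZMod 3) (u : ZMod x) then saw (b : ZMod x) else 0) := by
    refine Fintype.sum_equiv (Equiv.mulLeft u) _ _ fun b => ?_
    rw [Equiv.coe_mulLeft, Units.val_mul, map_mul]
    have h2 : (b : ZMod x).val % 3 = 1 ↔ ZMod.castHom h3 (ZMod 3) (u : ZMod x) *
        ZMod.castHom h3 (ZMod 3) (b : ZMod x) = ZMod.castHom h3 (ZMod 3) (u : ZMod x) := by
      rw [kl_mod3 h3]
      constructor
      · intro h; rw [h, mul_one]
      · intro h; exact mul_left_cancel₀ hu0 (by rw [h, mul_one])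
    by_cases h : (b : ZMod x).val % 3 = 1
    · rw [if_pos h, if_pos (h2.1 h)]
    · rw [if_neg h, if_neg (fun h' => h (h2.2 h'))]
  rw [h1, kl_units hB saw _ h3 hu0]
  have hcase : ∀ r : ZMod 3, r ≠ 0 → r = 1 ∨ r = 2 := by decide
  unfold chi3
  rcases hcase _ hu0 with h | h
  · rw [h, if_pos rfl, hT, one_mul]
  · rw [h, if_neg (by decide)]
    have h4 : ∑ a : ZMod x, (if ZMod.castHom h3 (ZMod 3) a = 2 then saw a else 0) =
        ∑ a : ZMod x, (if ZMod.castHom h3 (ZMod 3) a = 1 then -saw a else 0) := by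
      refine Fintype.sum_equiv (Equiv.neg (ZMod x)) _ _ fun a => ?_
      rw [Equiv.neg_apply, map_neg, saw_neg, neg_neg]
      have h5 : ZMod.castHom h3 (ZMod 3) a = 2 ↔ -ZMod.castHom h3 (ZMod 3) a = 1 := by
        generalize ZMod.castHom h3 (ZMod 3) a = r
        revert r
        decide
      by_cases h : ZMod.castHom h3 (ZMod 3) a = 2
      · rw [if_pos h, if_pos (h5.1 h)]
      · rw [if_neg h, if_neg (fun h' => h (h5.2 h'))]
    rw [h4]
    have h6 : ∑ a : ZMod x, (if ZMod.castHom h3 (ZMod 3) a = 1 then -saw a else 0) =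
        -∑ a : ZMod x, (if ZMod.castHom h3 (ZMod 3) a = 1 then saw a else 0) := by
      rw [← sum_neg_distrib]
      refine sum_congr rfl fun a _ => ?_
      split_ifs <;> simp
    rw [h6, hT]
    ring

/-- half of the units -/
theorem kl_H {p l A : ℕ} [NeZero p] (hl : l.Prime) (hp : p = l ^ (A + 1)) (hodd : Odd p) :
    2 * ∑ v : (ZMod p)ˣ, (if 2 * (v : ZMod p).val < p then (1 : ℤ) else 0) =
      (l : ℤ) ^ A * (l - 1) := by
  have h1 : ∑ v : (ZMod p)ˣ, (if 2 * (v : ZMod p).val < p then (1 : ℤ) else 0) =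
      ∑ v : (ZMod p)ˣ, (if 2 * (v : ZMod p).val < p then (0 : ℤ) else 1) := by
    refine Fintype.sum_equiv (Equiv.neg _) _ _ fun v => ?_
    have hp1 : 1 < p := by
      rw [hp]
      exact Nat.one_lt_pow (Nat.succ_ne_zero A) hl.one_lt
    have _ : Fact (1 < p) := ⟨hp1⟩
    have hv : (v : ZMod p) ≠ 0 := v.ne_zero
    have h2 : (((Equiv.neg (ZMod p)ˣ) v : (ZMod p)ˣ) : ZMod p).val = p - (v : ZMod p).val := by
      rw [Equiv.neg_apply, Units.val_neg, ZMod.neg_val, if_neg hv]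
    rw [h2]
    have h3 := ZMod.val_lt (v : ZMod p)
    obtain ⟨c, hc⟩ := hodd
    by_cases h : 2 * (v : ZMod p).val < p
    · rw [if_pos h, if_neg (by omega)]
    · rw [if_neg h, if_pos (by omega)]
  have h2 : ∑ v : (ZMod p)ˣ, (if 2 * (v : ZMod p).val < p then (1 : ℤ) else 0) +
      ∑ v : (ZMod p)ˣ, (if 2 * (v : ZMod p).val < p then (0 : ℤ) else 1) =
      (Fintype.card (ZMod p)ˣ : ℤ) := by
    rw [← sum_add_distrib]
    rw [show (Fintype.card (ZMod p)ˣ : ℤ) = ∑ _v : (ZMod p)ˣ, (1 : ℤ) by simp]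
    refine sum_congr rfl fun v _ => ?_
    split_ifs <;> rfl
  have h3 : (Fintype.card (ZMod p)ˣ : ℤ) = (l : ℤ) ^ A * (l - 1) := by
    rw [ZMod.card_units_eq_totient, hp, Nat.totient_prime_pow_succ hl]
    push_cast
    rw [Nat.cast_sub hl.one_lt.le]
    simp
  linarith




theorem kl_crt {p x : ℕ} [NeZero p] [NeZero x] [NeZero (p * x)] (hc : Nat.Coprime p x)
    (h3 : 3 ∣ x) (F : ZMod x → ℤ) :
    ∑ a : (ZMod (p * x))ˣ, (if 2 * ((a : ZMod (p * x)).val % p) < p ∧
      (a : ZMod (p * x)).val % 3 = 1 then F (((a : ZMod (p * x)).val : ℕ) : ZMod x) else 0) =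
      (∑ v : (ZMod p)ˣ, if 2 * (v : ZMod p).val < p then (1 : ℤ) else 0) *
      ∑ b : (ZMod x)ˣ, (if (b : ZMod x).val % 3 = 1 then F (b : ZMod x) else 0) := by
  let ψ := ZMod.chineseRemainder hc
  let E : (ZMod (p * x))ˣ ≃* (ZMod p)ˣ × (ZMod x)ˣ :=
    (Units.mapEquiv ψ.toMulEquiv).trans MulEquiv.prodUnits
  rw [Fintype.sum_mul_sum, ← Fintype.sum_prod_type' (f := fun (v : (ZMod p)ˣ) (b : (ZMod x)ˣ) =>
    (if 2 * (v : ZMod p).val < p then (1 : ℤ) else 0) *
      (if (b : ZMod x).val % 3 = 1 then F (b : ZMod x) else 0))]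
  refine Fintype.sum_equiv E.toEquiv _ _ fun a => ?_
  have hψ : ψ (a : ZMod (p * x)) = ((((a : ZMod (p * x)).val : ℕ) : ZMod p),
      (((a : ZMod (p * x)).val : ℕ) : ZMod x)) := by
    conv_lhs => rw [← ZMod.natCast_zmod_val (a : ZMod (p * x)), map_natCast]
    rfl
  have h1 : ((E a).1 : ZMod p) = (((a : ZMod (p * x)).val : ℕ) : ZMod p) := by
    change (ψ (a : ZMod (p * x))).1 = _
    rw [hψ]
  have h2 : ((E a).2 : ZMod x) = (((a : ZMod (p * x)).val : ℕ) : ZMod x) := by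
    change (ψ (a : ZMod (p * x))).2 = _
    rw [hψ]
  change _ = (if 2 * ((E a).1 : ZMod p).val < p then (1 : ℤ) else 0) *
      (if ((E a).2 : ZMod x).val % 3 = 1 then F ((E a).2 : ZMod x) else 0)
  rw [h1, h2, ZMod.val_natCast, ZMod.val_natCast, Nat.mod_mod_of_dvd _ h3]
  by_cases hA : 2 * ((a : ZMod (p * x)).val % p) < p
  · by_cases hB : (a : ZMod (p * x)).val % 3 = 1
    · rw [if_pos ⟨hA, hB⟩, if_pos hA, if_pos hB, one_mul]
    · rw [if_neg (fun h => hB h.2), if_neg hB, mul_zero]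
  · rw [if_neg (fun h => hA h.1), if_neg hA, zero_mul]

theorem chi3_mul : ∀ r s : ZMod 3, r ≠ 0 → s ≠ 0 → chi3 (r * s) = chi3 r * chi3 s := by
  decide

theorem chi3_one : chi3 1 = 1 := rfl

theorem chi3_pow (r : ZMod 3) (hr : r ≠ 0) (j : ℕ) : chi3 (r ^ j) = chi3 r ^ j := by
  induction j with
  | zero => rw [pow_zero, pow_zero, chi3_one]
  | succ j ih => rw [pow_succ, pow_succ, chi3_mul _ _ (pow_ne_zero _ hr) hr, ih]

theorem chi3_sq (r : ZMod 3) : chi3 r * chi3 r = 1 := by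
  revert r
  decide

theorem kl_castval {m n : ℕ} (hnm : n ∣ m) (N : ℕ) :
    ((((N : ℕ) : ZMod m).val : ℕ) : ZMod n) = (N : ZMod n) := by
  rw [ZMod.val_natCast, ZMod.natCast_eq_natCast_iff', Nat.mod_mod_of_dvd _ hnm]

theorem kl_val {n M : ℕ} [NeZero n] (a : ZMod n) :
    ((a.val : ℕ) : ZMod M) - (((-a).val : ℕ) : ZMod M) = ((saw a : ℤ) : ZMod M) := by
  unfold saw
  by_cases h : a = 0
  · simp [h]
  · rw [if_neg h, ZMod.neg_val, if_neg h, Nat.cast_sub (ZMod.val_lt a).le]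
    push_cast
    ring


end Kill

namespace Kill

/-- the sawtooth and its conjugates are odd distributions -/
theorem kl_saw {m : ℕ} [NeZero m] (t : (ZMod m)ˣ) :
    OddDist (fun a : ZMod m => saw ((t : ZMod m) * a)) where
  neg := fun a => by rw [mul_neg, saw_neg]
  half := fun a ha => saw_half (by rw [← mul_add, ha, mul_zero])
  dist := fun p d _ hpd a => saw_dist_unit hpd t a

end Kill

open Kill

theorem kill_of (h : S_two2) : S_kill := by
  intro m l _ _ _ hm hl hlm hl3 h3m s hrel hCD e he H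
  -- the numbers
  have hm0 : m ≠ 0 := NeZero.ne m
  obtain ⟨A, hA⟩ : ∃ A, m.factorization l = A + 1 := by
    have h1 := hl.factorization_pos_of_dvd hm0 hlm
    exact ⟨m.factorization l - 1, by omega⟩
  obtain ⟨p, hp⟩ : ∃ p, p = l ^ m.factorization l := ⟨_, rfl⟩
  obtain ⟨x, hx⟩ : ∃ x, x = 3 ^ m.factorization 3 := ⟨_, rfl⟩
  have hlodd : Odd l := hm.of_dvd_nat hlm
  have hpodd : Odd p := by rw [hp]; exact hlodd.pow
  have hNp : NeZero p := ⟨by rw [hp]; exact pow_ne_zero _ hl.ne_zero⟩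
  have hNx : NeZero x := ⟨by rw [hx]; exact pow_ne_zero _ three_ne_zero⟩
  have hNpx : NeZero (p * x) := ⟨mul_ne_zero (NeZero.ne p) (NeZero.ne x)⟩
  have hpm : p ∣ m := by rw [hp]; exact Nat.ordProj_dvd m l
  obtain ⟨n, hn⟩ := hpm
  have hn0 : n ≠ 0 := by
    rintro rfl
    rw [mul_zero] at hn
    exact hm0 hn
  have : NeZero n := ⟨hn0⟩
  have hnm : n ∣ m := ⟨p, by rw [hn, mul_comm]⟩
  have hnodd : Odd n := hm.of_dvd_nat hnm
  have hln : ¬ l ∣ n := by
    have h1 := Nat.not_dvd_ordCompl hl hm0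
    have h2 : m / l ^ m.factorization l = n := by
      rw [← hp]
      conv_lhs => rw [hn]
      exact Nat.mul_div_cancel_left n (NeZero.pos p)
    rwa [h2] at h1
  have hl3c : Nat.Coprime l 3 := (Nat.coprime_primes hl Nat.prime_three).2 hl3
  have hpx : Nat.Coprime p x := by
    rw [hp, hx]
    exact Nat.Coprime.pow _ _ hl3c
  have hxm : x ∣ m := by rw [hx]; exact Nat.ordProj_dvd m 3
  have hxn : x ∣ n := by
    rw [hn] at hxm
    exact hpx.symm.dvd_of_dvd_mul_left hxm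
  have h3x : 3 ∣ x := by
    rw [hx]
    exact dvd_pow_self 3 (Nat.prime_three.factorization_pos_of_dvd hm0 h3m).ne'
  have h3n : 3 ∣ n := h3x.trans hxn
  have hn1 : 1 < n := lt_of_lt_of_le (by decide) (Nat.le_of_dvd (NeZero.pos n) h3n)
  obtain ⟨y, hy⟩ := h3x
  obtain ⟨q, hq⟩ := hxn
  have h3x : 3 ∣ x := ⟨y, hy⟩
  have hxn : x ∣ n := ⟨q, hq⟩
  -- `n = x q`, `x = 3 y`
  have hYodd : Odd (q * y) := by
    have h1 : q * y ∣ n := ⟨3, by rw [hq, hy]; ring⟩
    exact hnodd.of_dvd_nat h1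
  have hcop : Nat.Coprime l n := (hl.coprime_iff_not_dvd).2 hln
  let uN : (ZMod n)ˣ := ZMod.unitOfCoprime l hcop
  have huN : (uN : ZMod n) = (l : ZMod n) := ZMod.coe_unitOfCoprime l hcop
  obtain ⟨f, hf⟩ : ∃ f, f = orderOf (l : ZMod n) := ⟨_, rfl⟩
  have hf0 : 0 < f := by
    rw [hf, ← huN, orderOf_units]
    exact orderOf_pos _
  have hlf : (l : ZMod n) ^ f = 1 := by rw [hf]; exact pow_orderOf_eq_one _
  have hM1 : 1 ≤ l ^ f := Nat.one_le_pow _ _ hl.pos
  have hMz : ((l ^ f - 1 : ℕ) : ℤ) = (l : ℤ) ^ f - 1 := by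
    rw [Nat.cast_sub hM1]
    push_cast
    ring
  -- the character
  let χ : ℤ := chi3 ((l : ℕ) : ZMod 3)
  have hl30 : ((l : ℕ) : ZMod 3) ≠ 0 := by
    intro h1
    have h2 := (ZMod.natCast_eq_zero_iff l 3).1 h1
    have h3 := (Nat.prime_dvd_prime_iff_eq Nat.prime_three hl).1 h2
    exact hl3 h3.symm
  have hχ : χ * χ = 1 := chi3_sq _
  have hχf : χ ^ f = 1 := by
    have h1 := congrArg (ZMod.castHom h3n (ZMod 3)) hlf
    rw [map_pow, map_natCast, map_one] at h1
    change chi3 _ ^ f = 1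
    rw [← chi3_pow _ hl30, h1, chi3_one]
  -- the integral digit sum
  let w : ZMod m → ℤ := fun z => ∑ j ∈ range f, (l : ℤ) ^ (f - j) *
    saw ((l : ZMod n) ^ j * ((z.val : ℕ) : ZMod n))
  have hDD : ∀ z : ZMod m, DD l n f (1 : (ZMod n)ˣ) (-1) z =
      ((w z : ℤ) : ZMod (l ^ f - 1)) := by
    intro z
    unfold DD
    change _ = ((∑ j ∈ range f, _ : ℤ) : ZMod (l ^ f - 1))
    rw [Int.cast_sum]
    refine sum_congr rfl fun j _ => ?_
    rw [Units.val_neg, Units.val_one, one_mul, neg_one_mul, kl_val]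
    push_cast
    ring
  obtain ⟨S1, hS1⟩ : ∃ S1, S1 = ((s.filter fun z => l ∣ addOrderOf z).map w).sum := ⟨_, rfl⟩
  obtain ⟨S0, hS0⟩ : ∃ S0, S0 = ((s.filter fun z => ¬ l ∣ addOrderOf z).map w).sum := ⟨_, rfl⟩
  have hS : (s.map w).sum = S1 + S0 := by
    conv_lhs => rw [← Multiset.filter_add_not (fun z => l ∣ addOrderOf z) s]
    rw [Multiset.map_add, Multiset.sum_add, hS1, hS0]
  have hcast : ∀ t : Multiset (ZMod m), (t.map (DD l n f (1 : (ZMod n)ˣ) (-1))).sum =
      (((t.map w).sum : ℤ) : ZMod (l ^ f - 1)) := by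
    intro t
    induction t using Multiset.induction_on with
    | empty => simp
    | cons a t ih =>
      rw [Multiset.map_cons, Multiset.sum_cons, Multiset.map_cons, Multiset.sum_cons, ih, hDD]
      push_cast
      ring
  -- the condition
  obtain ⟨k, hk, hk0⟩ := hCD l (m.factorization l) n hl (by omega) hln (by rw [← hp, hn]) hn1 1 (-1)
  have hkS : ((l ^ f - 1 : ℕ) : ℤ) ∣ k * (s.map w).sum := by
    rw [← hf] at hk0
    have h1 := sum_count s (DD l n f (1 : (ZMod n)ˣ) (-1))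
    rw [hcast] at h1
    have h2 : k • (((s.map w).sum : ℤ) : ZMod (l ^ f - 1)) = 0 := by
      rw [← h1]
      exact hk0
    rw [← CharP.intCast_eq_zero_iff (ZMod (l ^ f - 1)) (l ^ f - 1)]
    rw [zsmul_eq_mul, ← Int.cast_mul] at h2
    exact h2
  -- the sums over the units modulo `x`
  have hlx : Nat.Coprime l x := by
    rw [hx]
    exact Nat.Coprime.pow_right _ hl3c
  let uX : (ZMod x)ˣ := ZMod.unitOfCoprime l hlx
  have huX : (uX : ZMod x) = (l : ZMod x) := ZMod.coe_unitOfCoprime l hlx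
  obtain ⟨hh, hhh⟩ : ∃ hh, hh = ∑ v : (ZMod p)ˣ, (if 2 * (v : ZMod p).val < p then (1 : ℤ) else 0) :=
    ⟨_, rfl⟩
  have h2h : 2 * hh = (l : ℤ) ^ A * (l - 1) := by
    rw [hhh]
    exact kl_H hl (by rw [hp, hA]) hpodd
  obtain ⟨G, hG⟩ : ∃ G, G = ∑ j ∈ range f, (l : ℤ) ^ (f - j) * χ ^ j := ⟨_, rfl⟩
  have hTj : ∀ j : ℕ, ∑ b : (ZMod x)ˣ, (if (b : ZMod x).val % 3 = 1 then
      saw ((l : ZMod x) ^ j * (b : ZMod x)) else 0) = -(χ ^ j * y) := by
    intro j
    have h1 := kl_T hy hx h3x (uX ^ j)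
    rw [Units.val_pow_eq_pow_val, huX, map_pow, map_natCast, chi3_pow _ hl30] at h1
    exact h1
  -- the part at `l`
  have hmp : m / p = n := by
    conv_lhs => rw [hn]
    exact Nat.mul_div_cancel_left n (NeZero.pos p)
  have hmpx : m / (p * x) = q := by
    conv_lhs => rw [hn, hq, ← mul_assoc]
    exact Nat.mul_div_cancel_left q (NeZero.pos (p * x))
  have hmx : m / x = p * q := by
    have h1 : m = x * (p * q) := by rw [hn, hq]; ring
    conv_lhs => rw [h1]
    exact Nat.mul_div_cancel_left _ (NeZero.pos x)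
  have hqx : q * x = n := by rw [hq, mul_comm]
  have hpqx : (p * q) * x = m := by rw [hn, hq]; ring
  let FX : ZMod x → ℤ := fun b => ∑ j ∈ range f, (l : ℤ) ^ (f - j) *
    ((q : ℤ) * saw ((l : ZMod x) ^ j * b))
  have hFX : ∑ b : (ZMod x)ˣ, (if (b : ZMod x).val % 3 = 1 then FX (b : ZMod x) else 0) =
      -((q : ℤ) * y * G) := by
    have h1 : ∀ b : (ZMod x)ˣ, (if (b : ZMod x).val % 3 = 1 then FX (b : ZMod x) else 0) =
        ∑ j ∈ range f, (l : ℤ) ^ (f - j) * ((q : ℤ) * (if (b : ZMod x).val % 3 = 1 then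
          saw ((l : ZMod x) ^ j * (b : ZMod x)) else 0)) := by
      intro b
      by_cases hb : (b : ZMod x).val % 3 = 1
      · rw [if_pos hb]
        exact sum_congr rfl fun j _ => by rw [if_pos hb]
      · rw [if_neg hb]
        exact (sum_eq_zero fun j _ => by rw [if_neg hb, mul_zero, mul_zero]).symm
    rw [sum_congr rfl fun b _ => h1 b, sum_comm, hG, mul_sum, ← sum_neg_distrib]
    refine sum_congr rfl fun j _ => ?_
    rw [← mul_sum, ← mul_sum, hTj j]
    ring
  have hwX : ∀ N : ℕ, w ((N * q : ℕ) : ZMod m) = FX ((N : ℕ) : ZMod x) := by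
    intro N
    refine sum_congr rfl fun j _ => ?_
    rw [kl_castval hnm]
    have h1 : ((N * q : ℕ) : ZMod n) = iota q ((N : ℕ) : ZMod x) := by
      rw [iota_natCast hqx, mul_comm]
    have h2 := iota_natMul hqx (l ^ j) ((N : ℕ) : ZMod x)
    rw [Nat.cast_pow, Nat.cast_pow] at h2
    rw [h1, ← h2, saw_iota hqx]
  have hpart : BLg m p x (DD l n f (1 : (ZMod n)ˣ) (-1)) =
      ((-(hh * (q * y * G)) : ℤ) : ZMod (l ^ f - 1)) := by
    unfold BLg
    have h1 : ∑ a : (ZMod p)ˣ, (if 2 * (-(a : ZMod p)).val < p ∧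
        ¬ 2 * (-(3 * (a : ZMod p))).val < p then
        DD l n f (1 : (ZMod n)ˣ) (-1) (((a : ZMod p).val * (m / p) : ℕ) : ZMod m) else 0) = 0 := by
      refine sum_eq_zero fun a _ => ?_
      have h2 : w (((a : ZMod p).val * (m / p) : ℕ) : ZMod m) = 0 := by
        refine sum_eq_zero fun j _ => ?_
        rw [kl_castval hnm, hmp, Nat.cast_mul, ZMod.natCast_self, mul_zero, mul_zero, saw_zero,
          mul_zero]
      rw [hDD, h2, Int.cast_zero, ite_self]
    have h3 : ∀ a : (ZMod (p * x))ˣ, (if 2 * ((a : ZMod (p * x)).val % p) < p ∧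
        (a : ZMod (p * x)).val % 3 = 1 then
        DD l n f (1 : (ZMod n)ˣ) (-1) (((a : ZMod (p * x)).val * (m / (p * x)) : ℕ) : ZMod m)
        else 0) = (((if 2 * ((a : ZMod (p * x)).val % p) < p ∧
        (a : ZMod (p * x)).val % 3 = 1 then FX (((a : ZMod (p * x)).val : ℕ) : ZMod x) else 0 : ℤ)) :
          ZMod (l ^ f - 1)) := by
      intro a
      rw [hDD, hmpx, hwX]
      split_ifs
      · rfl
      · rw [Int.cast_zero]
    rw [h1, add_zero, sum_congr rfl fun a _ => h3 a, ← Int.cast_sum, kl_crt hpx h3x FX, ← hhh, hFX]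
    congr 1
    ring
  have hBLs : ∀ (Q : Type) [AddCommGroup Q] (c : ZMod m → Q), BLs m l c = BLg m p x c := by
    intro Q _ c
    subst hp hx
    rfl
  have hS1' : ((l ^ f - 1 : ℕ) : ℤ) ∣ S1 - (-e * hh * (q * y : ℕ) * G) := by
    have h1 := H (ZMod (l ^ f - 1)) (DD l n f (1 : (ZMod n)ˣ) (-1))
      (dd l (m.factorization l) n f m hl (by omega) hln (by rw [← hp, hn]) hm hf0 hlf 1 (-1))
    rw [hcast, ← hS1, hBLs, hpart] at h1
    rw [← CharP.intCast_eq_zero_iff (ZMod (l ^ f - 1)) (l ^ f - 1), Int.cast_sub, h1, zsmul_eq_mul]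
    push_cast
    ring
  -- the part prime to `l`
  have hR : ∀ j : ℕ, 2 * ((s.filter fun z => ¬ l ∣ addOrderOf z).map
      (fun z => saw ((l : ZMod n) ^ j * ((z.val : ℕ) : ZMod n)))).sum =
      e * (q * y : ℕ) * χ ^ (A + 1) * (1 - χ) * χ ^ j := by
    intro j
    obtain ⟨t, ht⟩ := ZMod.unitsMap_surjective hnm (uN ^ (A + 1 + j))
    have htn : (((t : ZMod m).val : ℕ) : ZMod n) = (l : ZMod n) ^ (A + 1 + j) := by
      have h1 := congrArg (fun u : (ZMod n)ˣ => (u : ZMod n)) ht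
      beta_reduce at h1
      rw [ZMod.unitsMap_val, Units.val_pow_eq_pow_val, huN] at h1
      rw [ZMod.natCast_val]
      exact h1
    obtain ⟨g, hg⟩ : ∃ g : ZMod m → ℤ, g = fun a => saw ((t : ZMod m) * a) := ⟨_, rfl⟩
    have hgd : OddDist g := by rw [hg]; exact kl_saw t
    have h1 : (s.map g).sum = 0 := by
      have h3 := sum_count s g
      have h4 := hrel t
      rw [← h3, hg]
      simpa only [smul_eq_mul] using h4
    have h2 := H ℤ g hgd
    have h3 : ((s.filter fun z => ¬ l ∣ addOrderOf z).map g).sum = -(e * BLs m l g) := by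
      have h4 := h1
      rw [← Multiset.filter_add_not (fun z => l ∣ addOrderOf z) s, Multiset.map_add,
        Multiset.sum_add, h2, smul_eq_mul] at h4
      linear_combination h4
    have h4 : 2 * BLs m l g = ∑ b : (ZMod x)ˣ, if (b : ZMod x).val % 3 = 1 then
        g (((b : ZMod x).val * (m / x) : ℕ) : ZMod m) -
        g ((((((l : ℕ) : ZMod x))⁻¹ * (b : ZMod x)).val * (m / x) : ℕ) : ZMod m) else 0 := by
      subst hx
      exact h m l hm hl hlm hl3 h3m ℤ g hgd
    obtain ⟨T, hT⟩ : ∃ T : (ZMod x)ˣ, T = ZMod.unitsMap (Dvd.intro_left (p * q) hpqx : x ∣ m) t :=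
      ⟨_, rfl⟩
    have hT3 : chi3 (ZMod.castHom h3x (ZMod 3) (T : ZMod x)) = χ ^ (A + 1 + j) := by
      have h5 : (T : ZMod x) = (((t : ZMod m).val : ℕ) : ZMod x) := by
        rw [hT, ZMod.unitsMap_val, ZMod.natCast_val]
      have h6 := congrArg (ZMod.castHom h3n (ZMod 3)) htn
      rw [map_natCast, map_pow, map_natCast] at h6
      rw [h5, map_natCast, h6, chi3_pow _ hl30]
    have hgb : ∀ b : ZMod x, g ((b.val * (m / x) : ℕ) : ZMod m) = (p * q : ℕ) * saw ((T : ZMod x) * b) := by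
      intro b
      have h5 : ((b.val * (m / x) : ℕ) : ZMod m) = iota (p * q) b := by
        unfold iota
        rw [hmx, mul_comm]
      rw [hg, h5]
      beta_reduce
      rw [unit_iota hpqx, saw_iota hpqx, hT]
    have hinv : ((l : ℕ) : ZMod x)⁻¹ = ((uX⁻¹ : (ZMod x)ˣ) : ZMod x) := by
      rw [← huX, ZMod.inv_coe_unit]
    have hTu : chi3 (ZMod.castHom h3x (ZMod 3) ((T * uX⁻¹ : (ZMod x)ˣ) : ZMod x)) =
        χ ^ (A + 1 + j) * χ := by
      have h5 : ZMod.castHom h3x (ZMod 3) ((uX⁻¹ : (ZMod x)ˣ) : ZMod x) * ((l : ℕ) : ZMod 3) = 1 := by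
        have h6 : ((uX⁻¹ : (ZMod x)ˣ) : ZMod x) * (l : ZMod x) = 1 := by
          rw [← huX, Units.inv_mul]
        have h7 := congrArg (ZMod.castHom h3x (ZMod 3)) h6
        rwa [map_mul, map_natCast, map_one] at h7
      have h8 : ZMod.castHom h3x (ZMod 3) ((uX⁻¹ : (ZMod x)ˣ) : ZMod x) ≠ 0 := by
        intro h9
        rw [h9, zero_mul] at h5
        exact absurd h5 (by decide)
      have h9 : ZMod.castHom h3x (ZMod 3) (T : ZMod x) ≠ 0 :=
        (T.isUnit.map (ZMod.castHom h3x (ZMod 3))).ne_zero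
      have h10 := congrArg chi3 h5
      rw [chi3_mul _ _ h8 hl30, chi3_one] at h10
      rw [Units.val_mul, map_mul, chi3_mul _ _ h9 h8, hT3]
      have h11 : chi3 (ZMod.castHom h3x (ZMod 3) ((uX⁻¹ : (ZMod x)ˣ) : ZMod x)) = χ := by
        change _ * χ = 1 at h10
        linear_combination χ * h10 - chi3 (ZMod.castHom h3x (ZMod 3)
          ((uX⁻¹ : (ZMod x)ˣ) : ZMod x)) * hχ
      rw [h11]
    have h5 : 2 * BLs m l g = -((p * q : ℕ) * y * (χ ^ (A + 1 + j) * (1 - χ))) := by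
      have h6 : ∀ b : (ZMod x)ˣ, (if (b : ZMod x).val % 3 = 1 then
          g (((b : ZMod x).val * (m / x) : ℕ) : ZMod m) -
          g ((((((l : ℕ) : ZMod x))⁻¹ * (b : ZMod x)).val * (m / x) : ℕ) : ZMod m) else 0) =
          (p * q : ℕ) * (if (b : ZMod x).val % 3 = 1 then saw ((T : ZMod x) * (b : ZMod x)) else 0) -
          (p * q : ℕ) * (if (b : ZMod x).val % 3 = 1 then
            saw (((T * uX⁻¹ : (ZMod x)ˣ) : ZMod x) * (b : ZMod x)) else 0) := by
        intro b
        split_ifs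
        · rw [hgb, hgb, hinv, Units.val_mul, mul_assoc]
        · rw [mul_zero, sub_zero]
      rw [h4, sum_congr rfl fun b _ => h6 b, sum_sub_distrib, ← mul_sum, ← mul_sum,
        kl_T hy hx h3x T, kl_T hy hx h3x (T * uX⁻¹), hT3, hTu]
      ring
    have h6 : ∀ z ∈ s.filter (fun z => ¬ l ∣ addOrderOf z), g z =
        (p : ℤ) * saw ((l : ZMod n) ^ j * ((z.val : ℕ) : ZMod n)) := by
      intro z hz
      have hz' : ¬ l ∣ addOrderOf z := (Multiset.mem_filter.1 hz).2
      have h7 : addOrderOf z ∣ p * n := by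
        rw [← hn]
        refine addOrderOf_dvd_of_nsmul_eq_zero ?_
        rw [nsmul_eq_mul, ZMod.natCast_self, zero_mul]
      have h8 : addOrderOf z ∣ n := by
        refine Nat.Coprime.dvd_of_dvd_mul_left ?_ h7
        rw [hp]
        exact (Nat.Coprime.pow_left _ ((hl.coprime_iff_not_dvd).2 hz')).symm
      have h9 : p ∣ z.val := by
        have h10 : n • z = 0 := addOrderOf_dvd_iff_nsmul_eq_zero.1 h8
        rw [nsmul_eq_mul] at h10
        have h11 : ((n * z.val : ℕ) : ZMod m) = 0 := by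
          rw [Nat.cast_mul, ZMod.natCast_zmod_val]
          exact h10
        have h12 := (ZMod.natCast_eq_zero_iff _ _).1 h11
        have h13 : n * p ∣ n * z.val := by rwa [mul_comm n p, ← hn]
        exact Nat.dvd_of_mul_dvd_mul_left (NeZero.pos n) h13
      obtain ⟨b, hb⟩ := h9
      have h10 : z = iota p ((b : ℕ) : ZMod n) := by
        rw [iota_natCast hn.symm, ← hb, ZMod.natCast_zmod_val]
      have h11 : g z = (p : ℤ) * saw (((l : ZMod n) ^ (A + 1 + j)) * ((b : ℕ) : ZMod n)) := by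
        rw [hg]
        beta_reduce
        conv_lhs => rw [h10]
        rw [unit_iota hn.symm, saw_iota hn.symm, ZMod.unitsMap_val, ← htn, ZMod.natCast_val]
      rw [h11, hb, hp, hA]
      congr 2
      push_cast
      ring
    have h7 : ((s.filter fun z => ¬ l ∣ addOrderOf z).map g).sum = (p : ℤ) *
        ((s.filter fun z => ¬ l ∣ addOrderOf z).map
          (fun z => saw ((l : ZMod n) ^ j * ((z.val : ℕ) : ZMod n)))).sum := by
      rw [Multiset.map_congr rfl h6, Multiset.sum_map_mul_left]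
    have hp0 : (p : ℤ) ≠ 0 := by exact_mod_cast NeZero.ne p
    refine mul_left_cancel₀ hp0 ?_
    rw [h7] at h3
    push_cast at h5 ⊢
    rw [pow_add] at h5
    linear_combination 2 * h3 - e * h5
  have hw : ∀ t : Multiset (ZMod m), (t.map w).sum = ∑ j ∈ range f, (l : ℤ) ^ (f - j) *
      (t.map (fun z => saw ((l : ZMod n) ^ j * ((z.val : ℕ) : ZMod n)))).sum := by
    intro t
    induction t using Multiset.induction_on with
    | empty => simp
    | cons a t ih =>
      simp only [Multiset.map_cons, Multiset.sum_cons]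
      rw [ih, ← sum_add_distrib]
      exact sum_congr rfl fun j _ => by ring
  have hS0' : 2 * S0 = e * (q * y : ℕ) * χ ^ (A + 1) * (1 - χ) * G := by
    rw [hS0, hw, mul_sum, hG, mul_sum]
    refine sum_congr rfl fun j _ => ?_
    linear_combination (l : ℤ) ^ (f - j) * hR j
  have hMM : ((l ^ f - 1 : ℕ) : ℤ) ≠ 0 := by
    have h1 : 1 < l ^ f := Nat.one_lt_pow hf0.ne' hl.one_lt
    have h2 : l ^ f - 1 ≠ 0 := by omega
    exact_mod_cast h2
  exact kl_final (l : ℤ) χ e ((q * y : ℕ) : ℤ) k _ G hh _ S1 S0 A f (by exact_mod_cast hlodd) hχ he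
    (by exact_mod_cast hYodd) hk hMz hMM hχf hG h2h hS hS1' hS0' hkS

end Pool.Agent.NH35.HK
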