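import Pool.Agent.NH35.HK.Stm

/-! Transfer of the criterion to a lower level. -/

set_option autoImplicit false

namespace Pool.Agent.NH35.HK

open Finset Pool.Agent.H916R2 Pool.Agent.NH35.HG Pool.Agent.NH35.HE

/-- the integral digit sum -/
def ui68 (r n f : ℕ) (t t' : (ZMod n)ˣ) (v : ℕ) : ℤ :=
  ∑ j ∈ range f, (r : ℤ) ^ (f - j) *
    ((((t : ZMod n) * ((r : ZMod n) ^ j * (v : ZMod n))).val : ℤ) -
      (((t' : ZMod n) * ((r : ZMod n) ^ j * (v : ZMod n))).val : ℤ))

theorem dd_ui68 {r n f m : ℕ} (t t' : (ZMod n)ˣ) (z : ZMod m) :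
    DD r n f t t' z = ((ui68 r n f t t' z.val : ℤ) : ZMod (r ^ f - 1)) := by
  unfold DD ui68
  push_cast
  rfl

theorem dd_sum68 {r n f m : ℕ} [NeZero m] (t t' : (ZMod n)ˣ) (s : Multiset (ZMod m)) :
    ∑ z : ZMod m, ((s.count z : ℕ) : ℤ) • DD r n f t t' z =
      (((s.map fun z => ui68 r n f t t' z.val).sum : ℤ) : ZMod (r ^ f - 1)) := by
  rw [sum_count]
  induction s using Multiset.induction_on with
  | empty => simp
  | cons a s ih =>
    rw [Multiset.map_cons, Multiset.map_cons, Multiset.sum_cons, Multiset.sum_cons, ih, dd_ui68]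
    push_cast
    rfl

theorem val_lift68 {k n0 n : ℕ} [NeZero n] (h : k * n0 = n) (t : (ZMod n)ˣ)
    (t0 : (ZMod n0)ˣ) (ht : ZMod.unitsMap (Dvd.intro_left k h) t = t0) (r v j : ℕ) :
    ((t : ZMod n) * ((r : ZMod n) ^ j * ((k * v : ℕ) : ZMod n))).val =
      k * ((t0 : ZMod n0) * ((r : ZMod n0) ^ j * (v : ZMod n0))).val := by
  have ht' : (t0 : ZMod n0) = (((t : ZMod n).val : ℕ) : ZMod n0) := by
    rw [← ht, ZMod.unitsMap_val, ZMod.natCast_val]
  have h1 : (t0 : ZMod n0) * ((r : ZMod n0) ^ j * (v : ZMod n0)) =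
      (((t : ZMod n).val * (r ^ j * v) : ℕ) : ZMod n0) := by
    rw [ht']
    push_cast
    ring
  have h2 : (t : ZMod n) * ((r : ZMod n) ^ j * ((k * v : ℕ) : ZMod n)) =
      ((k * ((t : ZMod n).val * (r ^ j * v)) : ℕ) : ZMod n) := by
    push_cast
    rw [ZMod.natCast_zmod_val]
    ring
  have h3 : ∀ a : ℕ, k * a % n = k * (a % n0) := fun a => by
    rw [← h, Nat.mul_mod_mul_left]
  rw [h1, h2, ZMod.val_natCast, ZMod.val_natCast, h3]

theorem ui_lift68 {k n0 n : ℕ} [NeZero n] (h : k * n0 = n) (t t' : (ZMod n)ˣ)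
    (t0 t0' : (ZMod n0)ˣ) (ht : ZMod.unitsMap (Dvd.intro_left k h) t = t0)
    (ht' : ZMod.unitsMap (Dvd.intro_left k h) t' = t0') (r v f0 g : ℕ)
    (hf : (r : ZMod n0) ^ f0 = 1) :
    ui68 r n (f0 * g) t t' (k * v) =
      k * (∑ i ∈ range g, ((r : ℤ) ^ f0) ^ i) * ui68 r n0 f0 t0 t0' v := by
  induction g with
  | zero => simp [ui68]
  | succ g ih =>
    have h1 : ui68 r n (f0 * (g + 1)) t t' (k * v) =
        (r : ℤ) ^ f0 * ui68 r n (f0 * g) t t' (k * v) + k * ui68 r n0 f0 t0 t0' v := by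
      unfold ui68
      rw [mul_add, mul_one, Finset.sum_range_add, Finset.mul_sum, Finset.mul_sum]
      congr 1
      · refine Finset.sum_congr rfl fun j hj => ?_
        have hj' : j < f0 * g := Finset.mem_range.1 hj
        have e : f0 * g + f0 - j = f0 + (f0 * g - j) := by omega
        rw [e, pow_add]
        ring
      · refine Finset.sum_congr rfl fun j hj => ?_
        have hj' : j < f0 := Finset.mem_range.1 hj
        have e : f0 * g + f0 - (f0 * g + j) = f0 - j := by omega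
        have e2 : (r : ZMod n0) ^ (f0 * g + j) = (r : ZMod n0) ^ j := by
          rw [pow_add, pow_mul, hf, one_pow, one_mul]
        rw [val_lift68 h t t0 ht, val_lift68 h t' t0' ht', e, e2]
        push_cast
        ring
    rw [h1, ih, Finset.sum_range_succ' (fun i => ((r : ℤ) ^ f0) ^ i), pow_zero]
    have e : ∑ i ∈ range g, ((r : ℤ) ^ f0) ^ (i + 1) =
        (r : ℤ) ^ f0 * ∑ i ∈ range g, ((r : ℤ) ^ f0) ^ i := by
      rw [Finset.mul_sum]
      exact Finset.sum_congr rfl fun i _ => by ring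
    rw [e]
    ring

theorem lev_ok : S_lev := by
  intro m m0 k _ _ hm hk hcop s0
  have hm0 : 0 < m := Nat.pos_of_ne_zero (NeZero.ne m)
  have hk0 : 0 < k := Nat.pos_of_ne_zero (by rintro rfl; simp at hk; omega)
  have hkodd : Odd k := by
    rw [← hk] at hm
    exact Nat.Odd.of_mul_right (by rwa [mul_comm] at hm)
  constructor
  · intro hR t0
    obtain ⟨t, ht⟩ := ZMod.unitsMap_surjective (Dvd.intro_left k hk : m0 ∣ m) t0
    have h1 := hR t
    have h2 := sum_count (s0.map (iota k : ZMod m0 → ZMod m)) (fun a => saw ((t : ZMod m) * a))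
    simp only [smul_eq_mul] at h2
    rw [h1, Multiset.map_map] at h2
    have h3 : ∀ b : ZMod m0, saw ((t : ZMod m) * iota k b) = k * saw ((t0 : ZMod m0) * b) := by
      intro b
      rw [← saw_iota hk]
      congr 1
      have ht' : (t0 : ZMod m0) = (((t : ZMod m).val : ℕ) : ZMod m0) := by
        rw [← ht, ZMod.unitsMap_val, ZMod.natCast_val]
      rw [ht', iota_natMul hk, ZMod.natCast_zmod_val]
    simp only [Function.comp_def, h3] at h2
    rw [Multiset.sum_map_mul_left] at h2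
    have h4 := sum_count s0 (fun a => saw ((t0 : ZMod m0) * a))
    simp only [smul_eq_mul] at h4
    rw [h4]
    have hkz : (k : ℤ) ≠ 0 := by exact_mod_cast hk0.ne'
    exact (mul_eq_zero.mp h2.symm).resolve_left hkz
  · intro hC r a n0 hr ha hrn hran hn0 t0 t0'
    have hkn : k * n0 ≠ 0 := by positivity
    have : NeZero (k * n0) := ⟨hkn⟩
    have hrm0 : r ∣ m0 := by
      rw [← hran]
      exact Dvd.dvd.mul_right (dvd_pow_self r ha.ne') n0
    have hrk : ¬ r ∣ k := by
      intro h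
      have h1 : r ∣ Nat.gcd k m0 := Nat.dvd_gcd h hrm0
      rw [hcop] at h1
      exact hr.one_lt.ne' (Nat.dvd_one.1 h1)
    have hrkn : ¬ r ∣ k * n0 := fun h => (hr.dvd_mul.1 h).elim hrk hrn
    have hmn : r ^ a * (k * n0) = m := by
      rw [← hk, ← hran]
      ring
    have hn1 : 1 < k * n0 := lt_of_lt_of_le hn0 (Nat.le_mul_of_pos_left n0 hk0)
    have hdvd : n0 ∣ k * n0 := Dvd.intro_left k rfl
    obtain ⟨t, ht⟩ := ZMod.unitsMap_surjective hdvd t0
    obtain ⟨t', ht'⟩ := ZMod.unitsMap_surjective hdvd t0'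
    obtain ⟨κ, hκ, hsum⟩ := hC r a (k * n0) hr ha hrkn hmn hn1 t t'
    set f := orderOf (r : ZMod (k * n0)) with hf
    set f0 := orderOf (r : ZMod n0) with hf0
    have hff : f0 ∣ f := by
      have h1 := orderOf_map_dvd (ZMod.castHom hdvd (ZMod n0)).toMonoidHom (r : ZMod (k * n0))
      have h2 : (ZMod.castHom hdvd (ZMod n0)).toMonoidHom (r : ZMod (k * n0)) = (r : ZMod n0) :=
        map_natCast (ZMod.castHom hdvd (ZMod n0)) r
      rwa [h2] at h1
    obtain ⟨g, hg⟩ := hff
    have hfpos : 0 < f := by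
      have hc : Nat.Coprime r (k * n0) := (Nat.Prime.coprime_iff_not_dvd hr).2 hrkn
      have h1 : ((ZMod.unitOfCoprime r hc : (ZMod (k * n0))ˣ) : ZMod (k * n0)) = r :=
        ZMod.coe_unitOfCoprime r hc
      rw [hf, ← h1, orderOf_units]
      exact orderOf_pos _
    have hgpos : 0 < g := Nat.pos_of_ne_zero (by rintro rfl; simp at hg; omega)
    have hr1 : (1 : ℤ) ≤ (r : ℤ) ^ f0 := by
      have : 1 ≤ r ^ f0 := Nat.one_le_pow _ _ hr.pos
      exact_mod_cast this
    set S : ℤ := ∑ i ∈ range g, ((r : ℤ) ^ f0) ^ i with hS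
    have hSpos : 0 < S := by
      refine Finset.sum_pos (fun i _ => by positivity) ⟨0, Finset.mem_range.2 hgpos⟩
    have hgeom : ((r : ℤ) ^ f0 - 1) * S = (r : ℤ) ^ f - 1 := by
      rw [hg, pow_mul, hS]
      exact mul_geom_sum _ _
    have hcast : ∀ e : ℕ, ((r ^ e - 1 : ℕ) : ℤ) = (r : ℤ) ^ e - 1 := by
      intro e
      have : 1 ≤ r ^ e := Nat.one_le_pow _ _ hr.pos
      push_cast [Nat.cast_sub this]
      ring
    have hone : (r : ZMod n0) ^ f0 = 1 := pow_orderOf_eq_one _
    refine ⟨κ * k, hκ.mul (by exact_mod_cast hkodd), ?_⟩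
    rw [dd_sum68, zsmul_eq_mul, ← Int.cast_mul, ZMod.intCast_zmod_eq_zero_iff_dvd, hcast,
      Multiset.map_map] at hsum
    rw [dd_sum68, zsmul_eq_mul, ← Int.cast_mul, ZMod.intCast_zmod_eq_zero_iff_dvd, hcast]
    have hval : ∀ b : ZMod m0, (iota k b : ZMod m).val = k * b.val := by
      intro b
      have hb := ZMod.val_lt b
      unfold iota
      refine ZMod.val_cast_of_lt ?_
      rw [← hk]
      exact Nat.mul_lt_mul_of_pos_left hb hk0
    have e : (s0.map ((fun z : ZMod m => ui68 r (k * n0) f t t' z.val) ∘ (iota k))).sum =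
        k * S * (s0.map fun z => ui68 r n0 f0 t0 t0' z.val).sum := by
      rw [← Multiset.sum_map_mul_left]
      congr 1
      refine Multiset.map_congr rfl fun b _ => ?_
      simp only [Function.comp_apply]
      rw [hval, hg]
      exact ui_lift68 rfl t t' t0 t0' ht ht' r b.val f0 g hone
    rw [e, ← hgeom] at hsum
    set T := (s0.map fun z => ui68 r n0 f0 t0 t0' z.val).sum with hT
    have h3 : ((r : ℤ) ^ f0 - 1) * S ∣ (κ * k * T) * S := by
      convert hsum using 1
      ring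
    exact Int.dvd_of_mul_dvd_mul_right hSpos.ne' h3

end Pool.Agent.NH35.HK
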