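import Pool.Agent.NH35.HK.Stm
import Pool.Agent.NH35.HG.Dd
import Pool.Agent.H916R2.Relations

/-! HL-10: large primes can be removed. -/

set_option autoImplicit false
set_option linter.unusedSectionVars false

namespace Pool.Agent.NH35.HK

open Finset Pool.Agent.H916R2 Pool.Agent.NH35.HG Pool.Agent.NH35.HE

/-- the sawtooth and its conjugates are odd distributions -/
theorem oddDist_saw_rem {m : ℕ} [NeZero m] (t : (ZMod m)ˣ) :
    OddDist (fun a : ZMod m => saw ((t : ZMod m) * a)) where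
  neg := fun a => by rw [mul_neg, saw_neg]
  half := fun a ha => saw_half (by rw [← mul_add, ha, mul_zero])
  dist := fun p d _ hpd a => saw_dist_unit hpd t a

theorem orderOf_pos_rem {r n : ℕ} (hn : 1 < n) (hr : r.Prime) (h : ¬ r ∣ n) :
    0 < orderOf (r : ZMod n) := by
  have : NeZero n := ⟨by omega⟩
  have h1 : Nat.Coprime r n := (hr.coprime_iff_not_dvd).2 h
  have h2 : ((ZMod.unitOfCoprime r h1 : (ZMod n)ˣ) : ZMod n) = (r : ZMod n) :=
    ZMod.coe_unitOfCoprime r h1
  rw [← h2, orderOf_units]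
  exact orderOf_pos _

theorem rem_of (h1 : S_conc) (h2 : S_kill) : S_rem := by
  intro m ℓ _ hm hℓ hℓm hℓ3 s hcard hrel hCD
  have : NeZero (ℓ ^ m.factorization ℓ) := ⟨pow_ne_zero _ hℓ.ne_zero⟩
  have : NeZero (ℓ ^ m.factorization ℓ * 3 ^ m.factorization 3) :=
    ⟨mul_ne_zero (pow_ne_zero _ hℓ.ne_zero) (pow_ne_zero _ three_ne_zero)⟩
  obtain ⟨e, he, hf⟩ := h1 m ℓ hm hℓ hℓm hℓ3 s hcard hrel
  have he0 : e = 0 := by
    rcases he with he | ⟨h3, he⟩
    · exact he
    · exact absurd hf (h2 m ℓ hm hℓ hℓm hℓ3 h3 s hrel hCD e he)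
  subst he0
  have hA : ∀ (Q : Type) [AddCommGroup Q] (c : ZMod m → Q), OddDist c →
      ((s.filter fun z => ℓ ∣ addOrderOf z).map c).sum = 0 := by
    intro Q _ c hc
    rw [hf Q c hc, zero_smul]
  have hB : ∀ (Q : Type) [AddCommGroup Q] (c : ZMod m → Q), OddDist c →
      ((s.filter fun z => ¬ ℓ ∣ addOrderOf z).map c).sum = (s.map c).sum := by
    intro Q _ c hc
    have h3 := Multiset.filter_add_not (fun z => ℓ ∣ addOrderOf z) s
    conv_rhs => rw [← h3]
    rw [Multiset.map_add, Multiset.sum_add, hA Q c hc, zero_add]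
  refine ⟨hA, ?_, ?_⟩
  · intro t
    have h3 := sum_count (s.filter fun z => ¬ ℓ ∣ addOrderOf z) (fun a => saw ((t : ZMod m) * a))
    rw [hB ℤ _ (oddDist_saw_rem t), ← sum_count] at h3
    have h4 := hrel t
    simp only [smul_eq_mul] at h3
    exact h3.trans h4
  · intro r a n hr ha hrn hrm hn t t'
    obtain ⟨k, hk, hk0⟩ := hCD r a n hr ha hrn hrm hn t t'
    refine ⟨k, hk, ?_⟩
    have h3 : OddDist (DD r n (orderOf (r : ZMod n)) (m := m) t t') :=
      dd r a n _ m hr ha hrn hrm hm (orderOf_pos_rem hn hr hrn) (pow_orderOf_eq_one _) t t'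
    have h4 := sum_count (s.filter fun z => ¬ ℓ ∣ addOrderOf z)
      (DD r n (orderOf (r : ZMod n)) (m := m) t t')
    rw [hB _ _ h3, ← sum_count] at h4
    rw [h4]
    exact hk0

end Pool.Agent.NH35.HK
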