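import Pool.Agent.NH35.HK.Stm

/-! HL-4 (helper71): from systems to distributions, `S_rev`. -/

set_option autoImplicit false
set_option linter.unusedSectionVars false

namespace Pool.Agent.NH35.HK

open Finset Pool.Agent.H916R2 Pool.Agent.NH35.HG Pool.Agent.NH35.HE

namespace HL4

variable {m : ℕ} [NeZero m]

lemma castHom_eq_zero_iff {k : ℕ} (h : k ∣ m) (x : ZMod m) :
    ZMod.castHom h (ZMod k) x = 0 ↔ k ∣ x.val := by
  have e : ZMod.castHom h (ZMod k) x = ((x.val : ℕ) : ZMod k) := by
    conv_lhs => rw [← ZMod.natCast_zmod_val x]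
    rw [map_natCast]
  rw [e, ZMod.natCast_eq_zero_iff]

lemma mul_en_eq_zero_of_dvd {N : ℕ} (hN : N ∣ m) {x : ZMod m} (h : N ∣ x.val) :
    x * en m N = 0 := by
  obtain ⟨t, ht⟩ := h
  rw [← ZMod.natCast_zmod_val x, ht, en, ← Nat.cast_mul, ZMod.natCast_eq_zero_iff]
  obtain ⟨s, hs⟩ := hN
  have hN0 : 0 < N := by
    rcases Nat.eq_zero_or_pos N with h0 | h0
    · rw [h0, zero_mul] at hs; exact absurd hs (NeZero.ne m)
    · exact h0
  rw [hs, Nat.mul_div_cancel_left _ hN0]
  exact ⟨t, by ring⟩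

lemma mul_en_eq_zero {N : ℕ} (hN : N ∣ m) {x : ZMod m}
    (h : ∀ q : m.primeFactors, q.1 ∣ N →
      ZMod.castHom (Nat.ordProj_dvd m q.1) (ZMod (q.1 ^ m.factorization q.1)) x = 0) :
    x * en m N = 0 := by
  refine mul_en_eq_zero_of_dvd hN ?_
  rw [Nat.dvd_iff_prime_pow_dvd_dvd]
  intro p k hp hk
  rcases Nat.eq_zero_or_pos k with rfl | hk0
  · simp
  have hpN : p ∣ N := (dvd_pow_self p hk0.ne').trans hk
  have hpm : p ∣ m := hpN.trans hN
  have h1 := h ⟨p, Nat.mem_primeFactors.2 ⟨hp, hpm, NeZero.ne m⟩⟩ hpN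
  rw [castHom_eq_zero_iff] at h1
  exact ((hp.pow_dvd_iff_dvd_ordProj (NeZero.ne m)).1 (hk.trans hN)).trans h1

lemma hE' (C : Co m) (u : ∀ q : m.primeFactors, HH m q) (q : m.primeFactors) :
    ZMod.castHom (Nat.ordProj_dvd m q.1) (ZMod (q.1 ^ m.factorization q.1))
      ((C.E u : (ZMod m)ˣ) : ZMod m) = ((u q : HH m q) : ZMod (q.1 ^ m.factorization q.1)) := by
  have h := C.hE u q
  rw [← h, ZMod.unitsMap_val]
  rfl

/-- `E u * en N` depends on the coordinates at the primes of `N` only -/
lemma E_en_congr (C : Co m) {N : ℕ} (hN : N ∣ m) {u v : ∀ q : m.primeFactors, HH m q}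
    (h : ∀ q : m.primeFactors, q.1 ∣ N → u q = v q) :
    ((C.E u : (ZMod m)ˣ) : ZMod m) * en m N = ((C.E v : (ZMod m)ˣ) : ZMod m) * en m N := by
  rw [← sub_eq_zero, ← sub_mul]
  refine mul_en_eq_zero hN fun q hq => ?_
  rw [map_sub, hE', hE', h q hq, sub_self]

lemma addOrderOf_en {N : ℕ} (hN : N ∣ m) : addOrderOf (en m N) = N := by
  obtain ⟨s, hs⟩ := hN
  have hm := NeZero.ne m
  have hN0 : 0 < N := by
    rcases Nat.eq_zero_or_pos N with h0 | h0
    · rw [h0, zero_mul] at hs; exact absurd hs hm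
    · exact h0
  have hs0 : 0 < s := by
    rcases Nat.eq_zero_or_pos s with h0 | h0
    · rw [h0, mul_zero] at hs; exact absurd hs hm
    · exact h0
  have e : m / N = s := by rw [hs, Nat.mul_div_cancel_left _ hN0]
  rw [en, e, ZMod.addOrderOf_coe _ hm]
  rw [Nat.gcd_eq_right ⟨N, by rw [hs]; ring⟩]
  rw [hs, Nat.mul_div_cancel _ hs0]

lemma addOrderOf_unit_mul (v : (ZMod m)ˣ) (x : ZMod m) :
    addOrderOf ((v : ZMod m) * x) = addOrderOf x := by
  have := addOrderOf_injective (AddMonoidHom.mulLeft (v : ZMod m))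
    (fun a b h => by simpa using h) x
  simpa using this

lemma ord_dvd (z : ZMod m) : addOrderOf z ∣ m := by
  have := addOrderOf_dvd_card (x := z)
  rwa [ZMod.card] at this

/-- every element is a unit times the standard element -/
lemma exists_E (C : Co m) (z : ZMod m) : ∃ u, ((C.E u : (ZMod m)ˣ) : ZMod m) *
    en m (addOrderOf z) = z := by
  have hm := NeZero.ne m
  set N := addOrderOf z with hNdef
  have hN : N ∣ m := ord_dvd z
  have hNv : N = m / m.gcd z.val := by
    rw [hNdef]
    conv_lhs => rw [← ZMod.natCast_zmod_val z]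
    rw [ZMod.addOrderOf_coe _ hm]
  set g := m.gcd z.val with hg
  have hgm : g ∣ m := Nat.gcd_dvd_left _ _
  have hg0 : 0 < g := Nat.gcd_pos_of_pos_left _ (Nat.pos_of_ne_zero hm)
  have hmN : m / N = g := by rw [hNv, Nat.div_div_self hgm hm]
  obtain ⟨t, ht⟩ : g ∣ z.val := Nat.gcd_dvd_right _ _
  have hcop : t.Coprime N := by
    have := Nat.coprime_div_gcd_div_gcd (m := m) (n := z.val) hg0
    rw [← hg, ← hNv, ht, Nat.mul_div_cancel_left _ hg0] at this
    exact this.symm
  obtain ⟨v, hv⟩ := ZMod.unitsMap_surjective hN (ZMod.unitOfCoprime t hcop)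
  refine ⟨C.E.symm v, ?_⟩
  rw [MulEquiv.apply_symm_apply]
  have h1 : ZMod.castHom hN (ZMod N) ((v : ZMod m) - (t : ZMod m)) = 0 := by
    rw [map_sub, map_natCast, sub_eq_zero]
    have := congrArg (fun w : (ZMod N)ˣ => (w : ZMod N)) hv
    simpa [ZMod.unitsMap_val] using this
  rw [castHom_eq_zero_iff] at h1
  have h2 := mul_en_eq_zero_of_dvd hN h1
  rw [sub_mul, sub_eq_zero] at h2
  rw [h2, en, hmN, ← Nat.cast_mul, mul_comm t g, ← ht, ZMod.natCast_zmod_val]

/-- the fibre of the multiplication by `p` -/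
lemma sum_fibre {Q : Type} [AddCommGroup Q] (c : ZMod m → Q) (p d : ℕ) (hp : 0 < p)
    (hpd : p * d = m) (a : ZMod m) :
    ∑ i ∈ range p, c (a + (i : ZMod m) * (d : ZMod m)) =
      ∑ w ∈ univ.filter (fun w : ZMod m => (p : ZMod m) * w = (p : ZMod m) * a), c w := by
  have hm := NeZero.ne m
  have hd : 0 < d := by
    rcases Nat.eq_zero_or_pos d with h0 | h0
    · rw [h0, mul_zero] at hpd; exact absurd hpd.symm hm
    · exact h0
  refine Finset.sum_nbij (fun i : ℕ => a + (i : ZMod m) * (d : ZMod m)) ?_ ?_ ?_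
    (fun _ _ => rfl)
  · intro i _
    rw [mem_filter]
    refine ⟨mem_univ _, ?_⟩
    have : (p : ZMod m) * (d : ZMod m) = 0 := by
      rw [← Nat.cast_mul, hpd, ZMod.natCast_self]
    linear_combination (i : ZMod m) * this
  · intro i hi j hj hij
    have hi' : i < p := by simpa using hi
    have hj' : j < p := by simpa using hj
    have h1 : ((i * d : ℕ) : ZMod m) = ((j * d : ℕ) : ZMod m) := by
      push_cast
      exact add_left_cancel hij
    rw [ZMod.natCast_eq_natCast_iff'] at h1
    rw [Nat.mod_eq_of_lt, Nat.mod_eq_of_lt] at h1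
    · exact Nat.eq_of_mul_eq_mul_right hd h1
    · rw [← hpd]; exact Nat.mul_lt_mul_of_pos_right hj' hd
    · rw [← hpd]; exact Nat.mul_lt_mul_of_pos_right hi' hd
  · intro w hw
    have hw' : (p : ZMod m) * w = (p : ZMod m) * a := by simpa using hw
    have h1 : ((p * (w - a).val : ℕ) : ZMod m) = 0 := by
      push_cast
      rw [ZMod.natCast_zmod_val, mul_sub, hw', sub_self]
    rw [ZMod.natCast_eq_zero_iff] at h1
    have hlt := ZMod.val_lt (w - a)
    obtain ⟨x, hx⟩ : ∃ x : ℕ, x = (w - a).val := ⟨_, rfl⟩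
    rw [← hx] at h1 hlt
    have h1' : p * d ∣ p * x := by rw [hpd]; exact h1
    obtain ⟨t, ht'⟩ := Nat.dvd_of_mul_dvd_mul_left hp h1'
    have ht : (w - a).val = d * t := by rw [← hx, ht']
    have htp : t < p := by
      have h5 : d * t < d * p := by rw [← ht', mul_comm d p, hpd]; exact hlt
      exact lt_of_mul_lt_mul_left h5 (Nat.zero_le _)
    refine ⟨t, by simpa using htp, ?_⟩
    have h2 : w - a = ((d * t : ℕ) : ZMod m) := by rw [← ht, ZMod.natCast_zmod_val]
    show a + (t : ZMod m) * (d : ZMod m) = w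
    push_cast at h2
    linear_combination -h2

lemma ord_mul (p : ℕ) (hp : p.Prime) (w : ZMod m) :
    (p ∣ addOrderOf w → addOrderOf w = p * addOrderOf ((p : ZMod m) * w)) ∧
    (¬ p ∣ addOrderOf w → addOrderOf w = addOrderOf ((p : ZMod m) * w)) := by
  have e : (p : ZMod m) * w = p • w := by rw [nsmul_eq_mul]
  have h := addOrderOf_nsmul' w (n := p) hp.ne_zero
  rw [e, h]
  constructor
  · intro hd
    rw [Nat.gcd_eq_right hd, Nat.mul_div_cancel' hd]
  · intro hd
    have : (addOrderOf w).gcd p = 1 := ((Nat.Prime.coprime_iff_not_dvd hp).2 hd).symm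
    rw [this, Nat.div_one]

/-- restriction to the coordinates in `I` -/
def rs (I : Finset m.primeFactors) (u : ∀ q : m.primeFactors, HH m q) :
    ∀ q : m.primeFactors, HH m q := fun q => if q ∈ I then u q else 1

lemma rs_mem {I : Finset m.primeFactors} {u : ∀ q : m.primeFactors, HH m q}
    {q : m.primeFactors} (h : q ∈ I) : rs I u q = u q := if_pos h

lemma rs_nmem {I : Finset m.primeFactors} {u : ∀ q : m.primeFactors, HH m q}
    {q : m.primeFactors} (h : q ∉ I) : rs I u q = 1 := if_neg h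

open Classical in
/-- reindexing by multiplication with `g` -/
lemma sum_mul (C : Co m) (I : Finset m.primeFactors) {N : ℕ} (hN : N ∣ m)
    (hI : ∀ q : m.primeFactors, q.1 ∣ N → q ∈ I) (g : ∀ q : m.primeFactors, HH m q)
    {Q : Type} [AddCommGroup Q] (f : (∀ q : m.primeFactors, HH m q) → Q) (hf : Dep I f)
    (z : ZMod m) :
    ∑ u, (if ((C.E (g * u) : (ZMod m)ˣ) : ZMod m) * en m N = z ∧ ∀ q, q ∉ I → u q = 1
      then f u else 0) =
    ∑ u, (if ((C.E u : (ZMod m)ˣ) : ZMod m) * en m N = z ∧ ∀ q, q ∉ I → u q = 1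
      then f (g⁻¹ * u) else 0) := by
  rw [← Finset.sum_filter, ← Finset.sum_filter]
  have aux : ∀ u v : ∀ q : m.primeFactors, HH m q, (∀ q ∈ I, u q = v q) →
      ((C.E u : (ZMod m)ˣ) : ZMod m) * en m N = ((C.E v : (ZMod m)ˣ) : ZMod m) * en m N :=
    fun u v h => E_en_congr C hN fun q hq => h q (hI q hq)
  refine Finset.sum_nbij' (fun u => rs I (g * u)) (fun u => rs I (g⁻¹ * u)) ?_ ?_ ?_ ?_ ?_
  · intro u hu
    rw [mem_filter] at hu ⊢
    refine ⟨mem_univ _, ?_, fun q hq => rs_nmem hq⟩
    rw [aux _ (g * u) fun q hq => rs_mem hq]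
    exact hu.2.1
  · intro u hu
    rw [mem_filter] at hu ⊢
    refine ⟨mem_univ _, ?_, fun q hq => rs_nmem hq⟩
    rw [aux (g * rs I (g⁻¹ * u)) u fun q hq => by
      rw [Pi.mul_apply, rs_mem hq, Pi.mul_apply, Pi.inv_apply, mul_inv_cancel_left]]
    exact hu.2.1
  · intro u hu
    rw [mem_filter] at hu
    funext q
    by_cases hq : q ∈ I
    · rw [rs_mem hq, Pi.mul_apply, rs_mem hq, Pi.mul_apply, Pi.inv_apply, inv_mul_cancel_left]
    · rw [rs_nmem hq, hu.2.2 q hq]
  · intro u hu
    rw [mem_filter] at hu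
    funext q
    by_cases hq : q ∈ I
    · rw [rs_mem hq, Pi.mul_apply, rs_mem hq, Pi.mul_apply, Pi.inv_apply, mul_inv_cancel_left]
    · rw [rs_nmem hq, hu.2.2 q hq]
  · intro u hu
    refine hf _ _ fun q hq => ?_
    rw [Pi.mul_apply, rs_mem hq, Pi.mul_apply, Pi.inv_apply, inv_mul_cancel_left]

open Classical in
/-- splitting off one coordinate -/
lemma sum_insert (C : Co m) (I : Finset m.primeFactors) {N : ℕ} (hN : N ∣ m)
    (p : m.primeFactors) (hpI : p ∉ I) (hpN : ¬ p.1 ∣ N)
    {Q : Type} [AddCommGroup Q] (f : (∀ q : m.primeFactors, HH m q) → Q) (z : ZMod m) :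
    ∑ u, (if ((C.E u : (ZMod m)ˣ) : ZMod m) * en m N = z ∧ ∀ q, q ∉ insert p I → u q = 1
      then f u else 0) =
    ∑ u, (if ((C.E u : (ZMod m)ˣ) : ZMod m) * en m N = z ∧ ∀ q, q ∉ I → u q = 1
      then NN p f u else 0) := by
  have aux : ∀ (u : ∀ q : m.primeFactors, HH m q) (s : HH m p),
      ((C.E (Function.update u p s) : (ZMod m)ˣ) : ZMod m) * en m N =
        ((C.E u : (ZMod m)ˣ) : ZMod m) * en m N := fun u s =>
    E_en_congr C hN fun q hq => by
      have : q ≠ p := fun h => hpN (h ▸ hq)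
      rw [Function.update_of_ne this]
  unfold NN
  rw [← Finset.sum_filter, ← Finset.sum_filter, Finset.sum_sigma']
  symm
  refine Finset.sum_nbij' (fun x : (Σ _ : (∀ q : m.primeFactors, HH m q), HH m p) =>
    Function.update x.1 p x.2) (fun u => ⟨Function.update u p 1, u p⟩) ?_ ?_ ?_ ?_ ?_
  · rintro ⟨u, s⟩ hu
    rw [mem_sigma, mem_filter] at hu
    rw [mem_filter]
    refine ⟨mem_univ _, ?_, fun q hq => ?_⟩
    · rw [aux]; exact hu.1.2.1
    · rw [Finset.mem_insert, not_or] at hq
      show Function.update u p s q = 1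
      rw [Function.update_of_ne hq.1]
      exact hu.1.2.2 q hq.2
  · intro u hu
    rw [mem_filter] at hu
    rw [mem_sigma, mem_filter]
    refine ⟨⟨mem_univ _, ?_, fun q hq => ?_⟩, mem_univ _⟩
    · show ((C.E (Function.update u p 1) : (ZMod m)ˣ) : ZMod m) * en m N = z
      rw [aux]; exact hu.2.1
    · show Function.update u p 1 q = 1
      by_cases h : q = p
      · subst h; rw [Function.update_self]
      · rw [Function.update_of_ne h]
        exact hu.2.2 q (by rw [Finset.mem_insert, not_or]; exact ⟨h, hq⟩)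
  · rintro ⟨u, s⟩ hu
    rw [mem_sigma, mem_filter] at hu
    have h1 : u p = 1 := hu.1.2.2 p hpI
    have e1 : Function.update (Function.update u p s) p 1 = u := by
      rw [Function.update_idem, ← h1, Function.update_eq_self]
    have e2 : Function.update u p s p = s := Function.update_self _ _ _
    show (⟨Function.update (Function.update u p s) p 1, Function.update u p s p⟩ :
      (Σ _ : (∀ q : m.primeFactors, HH m q), HH m p)) = ⟨u, s⟩
    rw [e1, e2]
  · intro u _
    show Function.update (Function.update u p 1) p (u p) = u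
    rw [Function.update_idem, Function.update_eq_self]
  · rintro ⟨u, s⟩ _
    rfl

lemma E_kappa (C : Co m) : ((C.E C.d.κ : (ZMod m)ˣ) : ZMod m) = -1 := by
  have h : C.E.symm (-1) = C.d.κ := by
    funext q
    have h1 := C.hE (C.E.symm (-1)) q
    rw [MulEquiv.apply_symm_apply] at h1
    rw [← h1, C.hκ q]
    apply Units.ext
    rw [ZMod.unitsMap_val]
    have h2 : ZMod.castHom (Nat.ordProj_dvd m q.1) (ZMod (q.1 ^ m.factorization q.1)) (-1) = -1 :=
      by rw [map_neg, map_one]
    simpa using h2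
  rw [← h, MulEquiv.apply_symm_apply]
  simp

/-- the Frobenius element acts as `p` on the elements of order prime to `p` -/
lemma E_tau (C : Co m) (p : m.primeFactors) {N : ℕ} (hN : N ∣ m) (hpN : ¬ p.1 ∣ N) :
    ((C.E (C.d.τ p) : (ZMod m)ˣ) : ZMod m) * en m N = (p.1 : ZMod m) * en m N := by
  rw [← sub_eq_zero, ← sub_mul]
  refine mul_en_eq_zero hN fun q hq => ?_
  have hqp : q ≠ p := fun h => hpN (h ▸ hq)
  rw [map_sub, hE', map_natCast, C.hτ p q hqp, sub_self]

open Classical in
/-- the sum over a box -/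
noncomputable def BS (C : Co m) (I : Finset m.primeFactors) (N : ℕ) (z : ZMod m)
    (f : (∀ q : m.primeFactors, HH m q) → ℤ) : ℤ :=
  ∑ u, (if ((C.E u : (ZMod m)ˣ) : ZMod m) * en m N = z ∧ ∀ q, q ∉ I → u q = 1 then f u else 0)

lemma ev_eq (C : Co m) (c : Finset m.primeFactors → (∀ q : m.primeFactors, HH m q) → ℤ)
    (z : ZMod m) : ev C c z = BS C (ty z) (addOrderOf z) z (c (ty z)) := by
  unfold ev BS InBox
  refine Finset.sum_congr rfl fun u _ => ?_
  congr

lemma mem_ty {z : ZMod m} {q : m.primeFactors} : q ∈ ty z ↔ q.1 ∣ addOrderOf z := by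
  unfold ty
  rw [mem_filter]
  exact ⟨fun h => h.2, fun h => ⟨mem_univ _, h⟩⟩

lemma BS_congr (C : Co m) (I : Finset m.primeFactors) (N : ℕ) (z : ZMod m)
    {f g : (∀ q : m.primeFactors, HH m q) → ℤ} (h : ∀ u, f u = g u) :
    BS C I N z f = BS C I N z g := by
  have : f = g := funext h
  rw [this]

lemma BS_add (C : Co m) (I : Finset m.primeFactors) (N : ℕ) (z : ZMod m)
    (f g : (∀ q : m.primeFactors, HH m q) → ℤ) :
    BS C I N z f + BS C I N z g = BS C I N z (fun u => f u + g u) := by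
  unfold BS
  rw [← Finset.sum_add_distrib]
  refine Finset.sum_congr rfl fun u _ => ?_
  split_ifs <;> simp

lemma BS_neg (C : Co m) (I : Finset m.primeFactors) (N : ℕ) (z : ZMod m)
    (f : (∀ q : m.primeFactors, HH m q) → ℤ) :
    BS C I N z (fun u => - f u) = - BS C I N z f := by
  unfold BS
  rw [← Finset.sum_neg_distrib]
  refine Finset.sum_congr rfl fun u _ => ?_
  split_ifs <;> simp

lemma BS_zero (C : Co m) (I : Finset m.primeFactors) (N : ℕ) (z : ZMod m)
    {f : (∀ q : m.primeFactors, HH m q) → ℤ} (h : ∀ u, f u = 0) : BS C I N z f = 0 := by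
  unfold BS
  refine Finset.sum_eq_zero fun u _ => ?_
  rw [h]; simp

lemma ev_neg (C : Co m) {γ : Finset m.primeFactors → (∀ q : m.primeFactors, HH m q) → ℤ}
    {ℓ : m.primeFactors} (hs : Sys C.d ℓ γ) (ho : Odd1 C.d γ) (z : ZMod m) :
    ev C γ (-z) = - ev C γ z := by
  classical
  have ht : ty (-z) = ty z := by
    ext q; rw [mem_ty, mem_ty, addOrderOf_neg]
  rw [ev_eq, ev_eq, ht, addOrderOf_neg, ← BS_neg]
  have h1 : BS C (ty z) (addOrderOf z) (-z) (γ (ty z)) =
      ∑ u, (if ((C.E (C.d.κ * u) : (ZMod m)ˣ) : ZMod m) * en m (addOrderOf z) = z ∧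
        ∀ q, q ∉ ty z → u q = 1 then γ (ty z) u else 0) := by
    unfold BS
    refine Finset.sum_congr rfl fun u _ => ?_
    have e : ((C.E (C.d.κ * u) : (ZMod m)ˣ) : ZMod m) * en m (addOrderOf z) =
        -(((C.E u : (ZMod m)ˣ) : ZMod m) * en m (addOrderOf z)) := by
      rw [map_mul, Units.val_mul, E_kappa]; ring
    have e2 : (((C.E u : (ZMod m)ˣ) : ZMod m) * en m (addOrderOf z) = -z) ↔
        (((C.E (C.d.κ * u) : (ZMod m)ˣ) : ZMod m) * en m (addOrderOf z) = z) := by
      rw [e]; exact neg_eq_iff_eq_neg.symm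
    rw [if_congr (and_congr_left' e2) rfl rfl]
  rw [h1, sum_mul C (ty z) (ord_dvd z) (fun q hq => mem_ty.2 hq) C.d.κ _ (hs.dep _)]
  unfold BS
  refine Finset.sum_congr rfl fun u _ => ?_
  have hk : C.d.κ⁻¹ = C.d.κ := inv_eq_of_mul_eq_one_left C.d.hκ
  rw [hk, ho]

/-- the elements of the fibre of order divisible by `p` -/
lemma fib_one (C : Co m) (γ : Finset m.primeFactors → (∀ q : m.primeFactors, HH m q) → ℤ)
    (P : m.primeFactors) (z : ZMod m) (hd : P.1 * addOrderOf z ∣ m) :
    ∑ w ∈ univ.filter (fun w : ZMod m => (P.1 : ZMod m) * w = z ∧ P.1 ∣ addOrderOf w), ev C γ w =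
      BS C (insert P (ty z)) (addOrderOf z) z (γ (insert P (ty z))) := by
  classical
  have hp : P.1.Prime := Nat.prime_of_mem_primeFactors P.2
  set N := addOrderOf z with hN
  have hty : ∀ w : ZMod m, addOrderOf w = P.1 * N → ty w = insert P (ty z) := by
    intro w hw
    ext q
    rw [mem_ty, Finset.mem_insert, mem_ty, hw, (Nat.prime_of_mem_primeFactors q.2).dvd_mul,
      Nat.prime_dvd_prime_iff_eq (Nat.prime_of_mem_primeFactors q.2) hp, ← hN, Subtype.ext_iff]
  have h1 : ∀ w ∈ univ.filter (fun w : ZMod m => (P.1 : ZMod m) * w = z ∧ P.1 ∣ addOrderOf w),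
      ev C γ w = ∑ u, (if ((C.E u : (ZMod m)ˣ) : ZMod m) * en m (P.1 * N) = w ∧
        ∀ q, q ∉ insert P (ty z) → u q = 1 then γ (insert P (ty z)) u else 0) := by
    intro w hw
    rw [mem_filter] at hw
    have ho : addOrderOf w = P.1 * N := by
      rw [(ord_mul P.1 hp w).1 hw.2.2, hw.2.1]
    rw [ev_eq, hty w ho, ho]
    rfl
  rw [Finset.sum_congr rfl h1, Finset.sum_comm]
  unfold BS
  refine Finset.sum_congr rfl fun u _ => ?_
  have hen : (P.1 : ZMod m) * en m (P.1 * N) = en m N := by
    obtain ⟨s, hs⟩ := hd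
    have hm := NeZero.ne m
    have h0 : 0 < P.1 * N := by
      rcases Nat.eq_zero_or_pos (P.1 * N) with h0 | h0
      · rw [h0, zero_mul] at hs; exact absurd hs hm
      · exact h0
    have hN0 : 0 < N := Nat.pos_of_mul_pos_left h0 |> fun h => by
      rcases Nat.eq_zero_or_pos N with h' | h'
      · rw [h', mul_zero] at h0; exact absurd h0 (lt_irrefl _)
      · exact h'
    have e1 : m / (P.1 * N) = s := Nat.div_eq_of_eq_mul_right h0 hs
    have e2 : m / N = P.1 * s :=
      Nat.div_eq_of_eq_mul_right hN0 (hs.trans (by ring))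
    rw [en, en, e1, e2, Nat.cast_mul]
  set v : ZMod m := ((C.E u : (ZMod m)ˣ) : ZMod m) * en m (P.1 * N) with hv
  have hpv : (P.1 : ZMod m) * v = ((C.E u : (ZMod m)ˣ) : ZMod m) * en m N := by
    rw [hv, ← hen]; ring
  have hov : addOrderOf v = P.1 * N := by
    rw [hv, addOrderOf_unit_mul, addOrderOf_en hd]
  by_cases hoff : ∀ q, q ∉ insert P (ty z) → u q = 1
  · by_cases hz : ((C.E u : (ZMod m)ˣ) : ZMod m) * en m N = z
    · rw [if_pos ⟨hz, hoff⟩]
      rw [Finset.sum_eq_single v]
      · rw [if_pos ⟨rfl, hoff⟩]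
      · intro w _ hw
        rw [if_neg fun h => hw h.1.symm]
      · intro h
        exfalso
        apply h
        rw [mem_filter]
        exact ⟨mem_univ _, by rw [hpv, hz], by rw [hov]; exact dvd_mul_right _ _⟩
    · rw [if_neg fun h => hz h.1]
      refine Finset.sum_eq_zero fun w hw => ?_
      rw [if_neg]
      rintro ⟨h, _⟩
      rw [mem_filter] at hw
      apply hz
      rw [← hpv, h]
      exact hw.2.1
  · rw [if_neg fun h => hoff h.2]
    refine Finset.sum_eq_zero fun w _ => ?_
    rw [if_neg fun h => hoff h.2]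

/-- the element of the fibre of order prime to `p` -/
lemma fib_two (C : Co m) {γ : Finset m.primeFactors → (∀ q : m.primeFactors, HH m q) → ℤ}
    {ℓ : m.primeFactors} (hs : Sys C.d ℓ γ)
    (P : m.primeFactors) (z : ZMod m) (hd : ¬ P.1 ∣ addOrderOf z) :
    ∑ w ∈ univ.filter (fun w : ZMod m => (P.1 : ZMod m) * w = z ∧ ¬ P.1 ∣ addOrderOf w),
      ev C γ w = BS C (ty z) (addOrderOf z) z (fun u => γ (ty z) ((C.d.τ P)⁻¹ * u)) := by
  classical
  have hp : P.1.Prime := Nat.prime_of_mem_primeFactors P.2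
  set N := addOrderOf z with hN
  have hNm : N ∣ m := ord_dvd z
  have h1 : ∀ w ∈ univ.filter (fun w : ZMod m => (P.1 : ZMod m) * w = z ∧ ¬ P.1 ∣ addOrderOf w),
      ev C γ w = ∑ u, (if ((C.E u : (ZMod m)ˣ) : ZMod m) * en m N = w ∧
        ∀ q, q ∉ ty z → u q = 1 then γ (ty z) u else 0) := by
    intro w hw
    rw [mem_filter] at hw
    have ho : addOrderOf w = N := by
      rw [(ord_mul P.1 hp w).2 hw.2.2, hw.2.1]
    have ht : ty w = ty z := by
      ext q; rw [mem_ty, mem_ty, ho]
    rw [ev_eq, ht, ho]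
    rfl
  rw [Finset.sum_congr rfl h1, Finset.sum_comm]
  have h2 := sum_mul C (ty z) hNm (fun q hq => mem_ty.2 hq) (C.d.τ P) (γ (ty z)) (hs.dep _) z
  refine Eq.trans ?_ h2
  refine Finset.sum_congr rfl fun u _ => ?_
  set v : ZMod m := ((C.E u : (ZMod m)ˣ) : ZMod m) * en m N with hv
  have hpv : (P.1 : ZMod m) * v = ((C.E (C.d.τ P * u) : (ZMod m)ˣ) : ZMod m) * en m N := by
    have := E_tau C P hNm hd
    rw [hv, map_mul, Units.val_mul]
    linear_combination -((C.E u : (ZMod m)ˣ) : ZMod m) * this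
  have hov : addOrderOf v = N := by
    rw [hv, addOrderOf_unit_mul, addOrderOf_en hNm]
  by_cases hoff : ∀ q, q ∉ ty z → u q = 1
  · by_cases hz : ((C.E (C.d.τ P * u) : (ZMod m)ˣ) : ZMod m) * en m N = z
    · rw [if_pos ⟨hz, hoff⟩]
      rw [Finset.sum_eq_single v]
      · rw [if_pos ⟨rfl, hoff⟩]
      · intro w _ hw
        rw [if_neg fun h => hw h.1.symm]
      · intro h
        exfalso
        apply h
        rw [mem_filter]
        exact ⟨mem_univ _, by rw [hpv, hz], by rw [hov]; exact hd⟩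
    · rw [if_neg fun h => hz h.1]
      refine Finset.sum_eq_zero fun w hw => ?_
      rw [if_neg]
      rintro ⟨h, _⟩
      rw [mem_filter] at hw
      apply hz
      rw [← hpv, h]
      exact hw.2.1
  · rw [if_neg fun h => hoff h.2]
    refine Finset.sum_eq_zero fun w _ => ?_
    rw [if_neg fun h => hoff h.2]

end HL4

open HL4 in
theorem rev_ok : S_rev := by
  classical
  intro m _ hodd C ℓ γ hs ho hN
  have hm := NeZero.ne m
  have hℓ : ℓ.1.Prime := Nat.prime_of_mem_primeFactors ℓ.2
  refine ⟨?_, ?_, ?_⟩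
  · intro a
    show (if ℓ.1 ∣ addOrderOf (-a) then ev C γ (-a) else 0) =
      -(if ℓ.1 ∣ addOrderOf a then ev C γ a else 0)
    rw [addOrderOf_neg, ev_neg C hs ho]
    split_ifs <;> simp
  · intro a ha
    have h2 : addOrderOf a ∣ 2 := by
      apply addOrderOf_dvd_of_nsmul_eq_zero
      rw [two_nsmul]; exact ha
    have h1 : addOrderOf a ∣ m := ord_dvd a
    have h3 : addOrderOf a ∣ 1 := by
      have := Nat.dvd_gcd h2 h1
      rwa [Nat.Coprime.gcd_eq_one (Nat.coprime_two_left.2 hodd)] at this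
    show (if ℓ.1 ∣ addOrderOf a then ev C γ a else 0) = 0
    rw [if_neg]
    intro h
    exact hℓ.one_lt.ne' (Nat.dvd_one.1 (h.trans h3))
  · intro p d hp hpd a
    have hpm : p ∣ m := ⟨d, hpd.symm⟩
    obtain ⟨P, hP⟩ : ∃ P : m.primeFactors, P.1 = p :=
      ⟨⟨p, Nat.mem_primeFactors.2 ⟨hp, hpm, hm⟩⟩, rfl⟩
    refine (sum_fibre (fun z : ZMod m => if ℓ.1 ∣ addOrderOf z then ev C γ z else 0) p d hp.pos
      hpd a).trans ?_
    subst hP
    set z : ZMod m := (P.1 : ZMod m) * a with hz
    set g : ZMod m → ℤ := fun z => if ℓ.1 ∣ addOrderOf z then ev C γ z else 0 with hg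
    show ∑ w ∈ univ.filter (fun w : ZMod m => (P.1 : ZMod m) * w = z), g w = g z
    rw [← Finset.sum_filter_add_sum_filter_not _ (fun w : ZMod m => P.1 ∣ addOrderOf w),
      Finset.filter_filter, Finset.filter_filter]
    have hNz : addOrderOf z ∣ m := ord_dvd z
    by_cases hA : P.1 ∣ addOrderOf z
    · have hemp : ∑ w ∈ univ.filter (fun w : ZMod m => (P.1 : ZMod m) * w = z ∧
          ¬ P.1 ∣ addOrderOf w), g w = 0 := by
        refine Finset.sum_eq_zero fun w hw => ?_
        exfalso
        rw [mem_filter] at hw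
        apply hw.2.2
        rw [(ord_mul P.1 hp w).2 hw.2.2, hw.2.1]
        exact hA
      have hda : P.1 * addOrderOf z ∣ m := by
        have h1 : P.1 ∣ addOrderOf a := by
          by_contra h
          apply h
          rw [(ord_mul P.1 hp a).2 h]
          exact hA
        rw [hz, ← (ord_mul P.1 hp a).1 h1]
        exact ord_dvd a
      rw [hemp, add_zero]
      have hgw : ∀ w ∈ univ.filter (fun w : ZMod m => (P.1 : ZMod m) * w = z ∧
          P.1 ∣ addOrderOf w), g w = if ℓ.1 ∣ addOrderOf z then ev C γ w else 0 := by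
        intro w hw
        rw [mem_filter] at hw
        have how : addOrderOf w = P.1 * addOrderOf z := by
          rw [(ord_mul P.1 hp w).1 hw.2.2, hw.2.1]
        have hiff : ℓ.1 ∣ addOrderOf w ↔ ℓ.1 ∣ addOrderOf z := by
          rw [how]
          constructor
          · intro h
            rcases hℓ.dvd_mul.1 h with h | h
            · rw [(Nat.prime_dvd_prime_iff_eq hℓ hp).1 h]; exact hA
            · exact h
          · exact fun h => h.mul_left _
        simp only [hg]
        rw [if_congr hiff rfl rfl]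
      rw [Finset.sum_congr rfl hgw]
      by_cases hl : ℓ.1 ∣ addOrderOf z
      · simp only [if_pos hl]
        rw [fib_one C γ P z hda]
        have hins : insert P (ty z) = ty z := Finset.insert_eq_of_mem (mem_ty.2 hA)
        rw [hins, hg]
        show _ = if ℓ.1 ∣ addOrderOf z then ev C γ z else 0
        rw [if_pos hl, ev_eq]
      · simp only [if_neg hl, Finset.sum_const_zero]
        show _ = if ℓ.1 ∣ addOrderOf z then ev C γ z else 0
        rw [if_neg hl]
    · have hda : P.1 * addOrderOf z ∣ m :=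
        Nat.Coprime.mul_dvd_of_dvd_of_dvd ((Nat.Prime.coprime_iff_not_dvd hp).2 hA) hpm hNz
      have hPI : P ∉ ty z := fun h => hA (mem_ty.1 h)
      have hins : BS C (insert P (ty z)) (addOrderOf z) z (γ (insert P (ty z))) =
          BS C (ty z) (addOrderOf z) z (NN P (γ (insert P (ty z)))) :=
        sum_insert C (ty z) hNz P hPI hA _ z
      by_cases hPl : P = ℓ
      · have e1 : ∑ w ∈ univ.filter (fun w : ZMod m => (P.1 : ZMod m) * w = z ∧
            P.1 ∣ addOrderOf w), g w = 0 := by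
          have : ∀ w ∈ univ.filter (fun w : ZMod m => (P.1 : ZMod m) * w = z ∧
              P.1 ∣ addOrderOf w), g w = ev C γ w := by
            intro w hw
            rw [mem_filter] at hw
            simp only [hg]
            rw [if_pos (hPl ▸ hw.2.2)]
          rw [Finset.sum_congr rfl this, fib_one C γ P z hda, hins]
          refine BS_zero C _ _ _ fun u => ?_
          rw [hPl]
          exact hN _ _
        have e2 : ∑ w ∈ univ.filter (fun w : ZMod m => (P.1 : ZMod m) * w = z ∧
            ¬ P.1 ∣ addOrderOf w), g w = 0 := by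
          refine Finset.sum_eq_zero fun w hw => ?_
          rw [mem_filter] at hw
          simp only [hg]
          rw [if_neg (hPl ▸ hw.2.2)]
        rw [e1, e2, add_zero]
        simp only [hg]
        rw [if_neg (hPl ▸ hA)]
      · have hne : ¬ ℓ.1 ∣ P.1 := fun h =>
          hPl (Subtype.ext ((Nat.prime_dvd_prime_iff_eq hℓ hp).1 h).symm)
        have hiff : ∀ w : ZMod m, (P.1 : ZMod m) * w = z →
            (ℓ.1 ∣ addOrderOf w ↔ ℓ.1 ∣ addOrderOf z) := by
          intro w hw
          by_cases h : P.1 ∣ addOrderOf w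
          · rw [(ord_mul P.1 hp w).1 h, hw, hℓ.dvd_mul]
            exact ⟨fun h' => h'.resolve_left hne, Or.inr⟩
          · rw [(ord_mul P.1 hp w).2 h, hw]
        by_cases hl : ℓ.1 ∣ addOrderOf z
        · have e1 : ∑ w ∈ univ.filter (fun w : ZMod m => (P.1 : ZMod m) * w = z ∧
              P.1 ∣ addOrderOf w), g w =
              BS C (ty z) (addOrderOf z) z (NN P (γ (insert P (ty z)))) := by
            rw [← hins, ← fib_one C γ P z hda]
            refine Finset.sum_congr rfl fun w hw => ?_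
            rw [mem_filter] at hw
            simp only [hg]
            rw [if_pos ((hiff w hw.2.1).2 hl)]
          have e2 : ∑ w ∈ univ.filter (fun w : ZMod m => (P.1 : ZMod m) * w = z ∧
              ¬ P.1 ∣ addOrderOf w), g w =
              BS C (ty z) (addOrderOf z) z (fun u => γ (ty z) ((C.d.τ P)⁻¹ * u)) := by
            rw [← fib_two C hs P z hA]
            refine Finset.sum_congr rfl fun w hw => ?_
            rw [mem_filter] at hw
            simp only [hg]
            rw [if_pos ((hiff w hw.2.1).2 hl)]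
          rw [e1, e2, BS_add]
          simp only [hg]
          rw [if_pos hl, ev_eq]
          refine BS_congr C _ _ _ fun u => ?_
          rw [hs.rel (insert P (ty z)) P (Finset.mem_insert_self _ _) hPl u,
            Finset.erase_insert hPI]
          abel
        · have e1 : ∀ w ∈ univ.filter (fun w : ZMod m => (P.1 : ZMod m) * w = z ∧
              P.1 ∣ addOrderOf w), g w = 0 := by
            intro w hw
            rw [mem_filter] at hw
            simp only [hg]
            rw [if_neg fun h => hl ((hiff w hw.2.1).1 h)]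
          have e2 : ∀ w ∈ univ.filter (fun w : ZMod m => (P.1 : ZMod m) * w = z ∧
              ¬ P.1 ∣ addOrderOf w), g w = 0 := by
            intro w hw
            rw [mem_filter] at hw
            simp only [hg]
            rw [if_neg fun h => hl ((hiff w hw.2.1).1 h)]
          rw [Finset.sum_eq_zero e1, Finset.sum_eq_zero e2, add_zero]
          simp only [hg]
          rw [if_neg hl]

end Pool.Agent.NH35.HK
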