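import Pool.Agent.NH35.HK.Stm

/-!
Project HK (helper35), part HL-3: from distributions to systems.  Written by helper81.
-/

set_option autoImplicit false

namespace Pool.Agent.NH35.HK

open Finset Pool.Agent.H916R2 Pool.Agent.NH35.HG Pool.Agent.NH35.HE

namespace SyAux

variable {m : ℕ} [NeZero m]

theorem castHom_zero {n : ℕ} (h : n ∣ m) (x : ZMod m) :
    ZMod.castHom h (ZMod n) x = 0 ↔ n ∣ x.val := by
  rw [ZMod.castHom_apply, ← ZMod.natCast_val, ZMod.natCast_eq_zero_iff]

theorem mul_en_zero {N : ℕ} (hN : N ∣ m) (a : ZMod m) : a * en m N = 0 ↔ N ∣ a.val := by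
  obtain ⟨k, hk⟩ := hN
  have hm : 0 < m := Nat.pos_of_ne_zero (NeZero.ne m)
  have hN0 : 0 < N := by
    rcases Nat.eq_zero_or_pos N with h | h
    · rw [h, zero_mul] at hk; omega
    · exact h
  have hk0 : 0 < k := by
    rcases Nat.eq_zero_or_pos k with h | h
    · rw [h, mul_zero] at hk; omega
    · exact h
  have h1 : m / N = k := Nat.div_eq_of_eq_mul_right hN0 hk
  have h2 : a * en m N = ((a.val * k : ℕ) : ZMod m) := by
    unfold en
    rw [h1]
    push_cast
    rw [ZMod.natCast_zmod_val]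
  rw [h2, ZMod.natCast_eq_zero_iff]
  constructor
  · intro h
    have h3 : N * k ∣ a.val * k := hk ▸ h
    exact (Nat.mul_dvd_mul_iff_right hk0).1 h3
  · intro h
    have h3 : N * k ∣ a.val * k := (Nat.mul_dvd_mul_iff_right hk0).2 h
    exact dvd_trans (dvd_of_eq hk) h3

theorem NI_dvd (I : Finset m.primeFactors) {n : ℕ}
    (h : ∀ q ∈ I, q.1 ^ m.factorization q.1 ∣ n) : NI m I ∣ n := by
  unfold NI
  apply Finset.prod_dvd_of_isRelPrime
  · intro q _ r _ hqr
    show IsRelPrime (q.1 ^ m.factorization q.1) (r.1 ^ m.factorization r.1)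
    rw [← Nat.coprime_iff_isRelPrime]
    apply Nat.Coprime.pow
    rw [Nat.coprime_primes (Nat.prime_of_mem_primeFactors q.2) (Nat.prime_of_mem_primeFactors r.2)]
    exact fun h => hqr (Subtype.ext h)
  · exact h

theorem dvd_NI (I : Finset m.primeFactors) (q : m.primeFactors) (hq : q ∈ I) :
    q.1 ^ m.factorization q.1 ∣ NI m I :=
  Finset.dvd_prod_of_mem (fun q : m.primeFactors => q.1 ^ m.factorization q.1) hq

theorem NI_dvd_m (I : Finset m.primeFactors) : NI m I ∣ m :=
  NI_dvd I fun q _ => Nat.ordProj_dvd m q.1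

theorem cast_E (C : Co m) (u : ∀ q : m.primeFactors, HH m q) (q : m.primeFactors) :
    ZMod.castHom (Nat.ordProj_dvd m q.1) (ZMod (q.1 ^ m.factorization q.1))
      ((C.E u : (ZMod m)ˣ) : ZMod m) = (u q : ZMod (q.1 ^ m.factorization q.1)) := by
  rw [← C.hE u q, ZMod.unitsMap_val, ZMod.castHom_apply]

theorem agree (C : Co m) (u : ∀ q : m.primeFactors, HH m q) (x : ZMod m)
    (I : Finset m.primeFactors)
    (h : ∀ q ∈ I, ZMod.castHom (Nat.ordProj_dvd m q.1) (ZMod (q.1 ^ m.factorization q.1)) x =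
      (u q : ZMod (q.1 ^ m.factorization q.1))) :
    ((C.E u : (ZMod m)ˣ) : ZMod m) * en m (NI m I) = x * en m (NI m I) := by
  rw [← sub_eq_zero, ← sub_mul, mul_en_zero (NI_dvd_m I)]
  apply NI_dvd
  intro q hq
  rw [← castHom_zero (Nat.ordProj_dvd m q.1), map_sub, cast_E, h q hq, sub_self]

theorem agree' (C : Co m) (u v : ∀ q : m.primeFactors, HH m q) (I : Finset m.primeFactors)
    (h : ((C.E u : (ZMod m)ˣ) : ZMod m) * en m (NI m I) =
      ((C.E v : (ZMod m)ˣ) : ZMod m) * en m (NI m I)) (q : m.primeFactors) (hq : q ∈ I) :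
    u q = v q := by
  rw [← sub_eq_zero, ← sub_mul, mul_en_zero (NI_dvd_m I)] at h
  have h1 := (dvd_NI I q hq).trans h
  rw [← castHom_zero (Nat.ordProj_dvd m q.1), map_sub, cast_E, cast_E, sub_eq_zero] at h1
  exact Units.ext h1

theorem E_kappa (C : Co m) : C.E C.d.κ = -1 := by
  have h1 : C.E.symm (-1) = C.d.κ := by
    funext q
    have h := C.hE (C.E.symm (-1)) q
    rw [MulEquiv.apply_symm_apply] at h
    rw [C.hκ q, ← h]
    apply Units.ext
    rw [ZMod.unitsMap_val, Units.val_neg, Units.val_one, Units.val_neg, Units.val_one,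
      ← ZMod.castHom_apply (h := Nat.ordProj_dvd m q.1), map_neg, map_one]
  rw [← h1, MulEquiv.apply_symm_apply]

/-- the relation at a prime, for fibres -/
theorem fib_prime {Q : Type} [AddCommGroup Q] {D : ZMod m → Q} (hD : OddDist D) {p : ℕ}
    (hp : p.Prime) (hpm : p ∣ m) (a : ZMod m) :
    ∑ w : ZMod m, (if (p : ZMod m) * w = (p : ZMod m) * a then D w else 0) =
      D ((p : ZMod m) * a) := by
  obtain ⟨d, hd⟩ := hpm
  have hm : 0 < m := Nat.pos_of_ne_zero (NeZero.ne m)
  have hd0 : 0 < d := by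
    rcases Nat.eq_zero_or_pos d with h | h
    · rw [h, mul_zero] at hd; omega
    · exact h
  have hpd : (p : ZMod m) * (d : ZMod m) = 0 := by
    rw [← Nat.cast_mul, ← hd, ZMod.natCast_self]
  rw [← hD.dist p d hp hd.symm a, ← sum_filter]
  symm
  refine sum_bij (fun (i : ℕ) _ => a + (i : ZMod m) * (d : ZMod m)) ?_ ?_ ?_ ?_
  · intro i _
    rw [mem_filter]
    refine ⟨mem_univ _, ?_⟩
    calc (p : ZMod m) * (a + (i : ZMod m) * (d : ZMod m)) =
        (p : ZMod m) * a + (i : ZMod m) * ((p : ZMod m) * (d : ZMod m)) := by ring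
      _ = _ := by rw [hpd, mul_zero, add_zero]
  · intro i hi j hj hij
    rw [mem_range] at hi hj
    have h1 : ((i * d : ℕ) : ZMod m) = ((j * d : ℕ) : ZMod m) := by
      push_cast
      exact add_left_cancel hij
    have hi' : i * d < m := by rw [hd]; exact Nat.mul_lt_mul_of_pos_right hi hd0
    have hj' : j * d < m := by rw [hd]; exact Nat.mul_lt_mul_of_pos_right hj hd0
    rw [ZMod.natCast_eq_natCast_iff', Nat.mod_eq_of_lt hi', Nat.mod_eq_of_lt hj'] at h1
    exact Nat.eq_of_mul_eq_mul_right hd0 h1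
  · intro w hw
    rw [mem_filter] at hw
    have h1 : (p : ZMod m) * (w - a) = 0 := by
      rw [mul_sub, hw.2, sub_self]
    have h2 : ((p * (w - a).val : ℕ) : ZMod m) = 0 := by
      push_cast
      rw [ZMod.natCast_zmod_val, h1]
    rw [ZMod.natCast_eq_zero_iff] at h2
    have h3 : p * d ∣ p * (w - a).val := hd ▸ h2
    obtain ⟨i, hi⟩ := (Nat.mul_dvd_mul_iff_left hp.pos).1 h3
    refine ⟨i, ?_, ?_⟩
    · rw [mem_range]
      have h4 := ZMod.val_lt (w - a)
      rw [hi] at h4
      have h5 : d * i < d * p := by rw [mul_comm d p, ← hd]; exact h4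
      exact Nat.lt_of_mul_lt_mul_left h5
    · have h4 : w - a = ((d * i : ℕ) : ZMod m) := by rw [← hi, ZMod.natCast_zmod_val]
      push_cast at h4
      rw [mul_comm (i : ZMod m), ← h4]
      ring
  · intro i _
    rfl

/-- the relation at a divisor, for fibres -/
theorem fib {Q : Type} [AddCommGroup Q] {D : ZMod m → Q} (hD : OddDist D) (k : ℕ) :
    k ∣ m → ∀ a : ZMod m,
    ∑ w : ZMod m, (if (k : ZMod m) * w = (k : ZMod m) * a then D w else 0) =
      D ((k : ZMod m) * a) := by
  induction k using induction_on_primes with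
  | zero =>
    intro h
    exact absurd (zero_dvd_iff.1 h) (NeZero.ne m)
  | one =>
    intro _ a
    simp
  | prime_mul p k hp ih =>
    intro hm a
    obtain ⟨e, he⟩ := hm
    have hpm : p ∣ m := ⟨k * e, by rw [he]; ring⟩
    have hkm : k ∣ m := ⟨p * e, by rw [he]; ring⟩
    have h1 := fib_prime hD hp hpm ((k : ZMod m) * a)
    have h2 : ∀ w' : ZMod m, (if (p : ZMod m) * w' = (p : ZMod m) * ((k : ZMod m) * a) then D w'
        else 0) = ∑ w : ZMod m, (if (k : ZMod m) * w = w' then
          (if (p : ZMod m) * w' = (p : ZMod m) * ((k : ZMod m) * a) then D w else 0) else 0) := by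
      intro w'
      by_cases hw : (p : ZMod m) * w' = (p : ZMod m) * ((k : ZMod m) * a)
      · have h3 : (p : ZMod m) * (w' - (k : ZMod m) * a) = 0 := by
          rw [mul_sub, hw, sub_self]
        have h4 : ((p * (w' - (k : ZMod m) * a).val : ℕ) : ZMod m) = 0 := by
          push_cast
          rw [ZMod.natCast_zmod_val, h3]
        rw [ZMod.natCast_eq_zero_iff] at h4
        have h5 : p * (k * e) ∣ p * (w' - (k : ZMod m) * a).val := by
          rw [← mul_assoc]
          exact he ▸ h4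
        obtain ⟨i, hi⟩ := (Nat.mul_dvd_mul_iff_left hp.pos).1 h5
        have h6 : w' = (k : ZMod m) * (a + (e : ZMod m) * (i : ZMod m)) := by
          have h7 : w' - (k : ZMod m) * a = ((k * e * i : ℕ) : ZMod m) := by
            rw [← hi, ZMod.natCast_zmod_val]
          push_cast at h7
          linear_combination h7
        rw [if_pos hw]
        have h8 := ih hkm (a + (e : ZMod m) * (i : ZMod m))
        rw [← h6] at h8
        rw [← h8]
        refine sum_congr rfl fun w _ => ?_
        rw [if_pos hw]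
      · rw [if_neg hw]
        symm
        apply sum_eq_zero
        intro w _
        rw [if_neg hw, ite_self]
    rw [Nat.cast_mul, mul_assoc, ← h1, sum_congr rfl fun w' _ => h2 w', sum_comm]
    refine sum_congr rfl fun w _ => ?_
    rw [sum_ite_eq, if_pos (mem_univ _), mul_assoc]

/-- an element killed by `N` -/
theorem killed {N : ℕ} (hN : N ∣ m) {w : ZMod m} (h : (N : ZMod m) * w = 0) :
    ∃ b : ℕ, w = (b : ZMod m) * en m N := by
  obtain ⟨e, he⟩ := hN
  have hm : 0 < m := Nat.pos_of_ne_zero (NeZero.ne m)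
  have hN0 : 0 < N := by
    rcases Nat.eq_zero_or_pos N with h | h
    · rw [h, zero_mul] at he; omega
    · exact h
  have h1 : m / N = e := Nat.div_eq_of_eq_mul_right hN0 he
  have h2 : ((N * w.val : ℕ) : ZMod m) = 0 := by
    push_cast
    rw [ZMod.natCast_zmod_val, h]
  rw [ZMod.natCast_eq_zero_iff] at h2
  have h3 : N * e ∣ N * w.val := he ▸ h2
  obtain ⟨i, hi⟩ := (Nat.mul_dvd_mul_iff_left hN0).1 h3
  refine ⟨i, ?_⟩
  unfold en
  rw [h1, ← Nat.cast_mul, mul_comm i e, ← hi, ZMod.natCast_zmod_val]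

theorem order_dvd (z : ZMod m) : addOrderOf z ∣ NI m (ty z) := by
  have hm : addOrderOf z ∣ m := by
    have h := addOrderOf_dvd_card (x := z)
    rwa [ZMod.card] at h
  rw [Nat.dvd_iff_prime_pow_dvd_dvd]
  intro p k hp hpk
  rcases Nat.eq_zero_or_pos k with h | h
  · rw [h, pow_zero]; exact one_dvd _
  have h1 : p ∣ addOrderOf z := (dvd_pow_self p h.ne').trans hpk
  have h2 : p ∈ m.primeFactors := Nat.mem_primeFactors.2 ⟨hp, h1.trans hm, NeZero.ne m⟩
  have h3 : (⟨p, h2⟩ : m.primeFactors) ∈ ty z := by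
    unfold ty
    rw [mem_filter]
    exact ⟨mem_univ _, h1⟩
  refine dvd_trans ?_ (dvd_NI (ty z) ⟨p, h2⟩ h3)
  apply pow_dvd_pow
  exact (hp.pow_dvd_iff_le_factorization (NeZero.ne m)).1 (hpk.trans hm)

theorem ev_sy (C : Co m) (ℓ : m.primeFactors) {Q : Type} [AddCommGroup Q] {D : ZMod m → Q}
    (hD : OddDist D) (z : ZMod m) (hz : ℓ.1 ∣ addOrderOf z) : ev C (sy C ℓ D) z = D z := by
  classical
  have hm : 0 < m := Nat.pos_of_ne_zero (NeZero.ne m)
  obtain ⟨k, hk⟩ := order_dvd z
  have hNm := NI_dvd_m (ty z)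
  obtain ⟨e, he⟩ := hNm
  set N0 := addOrderOf z with hN0
  set N := NI m (ty z) with hN
  have hN0m : N0 ∣ m := ⟨k * e, by rw [he, hk, mul_assoc]⟩
  have hkm : k ∣ m := ⟨N0 * e, by rw [he, hk]; ring⟩
  have hN0' : 0 < N0 := by
    rcases Nat.eq_zero_or_pos N0 with h | h
    · rw [hk, h, zero_mul, zero_mul] at he; omega
    · exact h
  have hN' : 0 < N := by
    rcases Nat.eq_zero_or_pos N with h | h
    · rw [h, zero_mul] at he; omega
    · exact h
  have hdN : m / N = e := Nat.div_eq_of_eq_mul_right hN' he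
  have hdN0 : m / N0 = k * e :=
    Nat.div_eq_of_eq_mul_right hN0' (by rw [he, hk, mul_assoc])
  have hen : en m N0 = (k : ZMod m) * en m N := by
    unfold en
    rw [hdN, hdN0, Nat.cast_mul]
  have hNe : (N : ZMod m) * en m N = 0 := by
    unfold en
    rw [hdN, ← Nat.cast_mul, ← he, ZMod.natCast_self]
  have hz0 : (N0 : ZMod m) * z = 0 := by
    rw [← nsmul_eq_mul, hN0]
    exact addOrderOf_nsmul_eq_zero z
  obtain ⟨c, hc⟩ := killed hN0m hz0
  have hza : z = (k : ZMod m) * ((c : ZMod m) * en m N) := by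
    rw [hc, hen]; ring
  have hl : ℓ ∈ ty z := by
    unfold ty
    rw [mem_filter]
    exact ⟨mem_univ _, hz⟩
  have h1 : D z = ∑ w : ZMod m, (if (k : ZMod m) * w = z then D w else 0) := by
    have h2 := fib hD k hkm ((c : ZMod m) * en m N)
    rw [← hza] at h2
    exact h2.symm
  rw [h1]
  unfold ev sy
  simp only [if_pos hl]
  rw [← sum_filter, ← sum_filter]
  refine sum_bij (fun (u : ∀ q : m.primeFactors, HH m q) _ =>
    ((C.E u : (ZMod m)ˣ) : ZMod m) * en m N) ?_ ?_ ?_ ?_
  · intro u hu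
    rw [mem_filter] at hu ⊢
    refine ⟨mem_univ _, ?_⟩
    have h2 := hu.2.1
    rw [← hN0, hen] at h2
    rw [← h2]
    ring_nf
  · intro u hu v hv huv
    rw [mem_filter] at hu hv
    funext q
    by_cases hq : q ∈ ty z
    · exact agree' C u v (ty z) huv q hq
    · rw [hu.2.2 q hq, hv.2.2 q hq]
  · intro w hw
    rw [mem_filter] at hw
    have hw2 := hw.2
    have h3 : (N : ZMod m) * w = 0 := by
      rw [hk, Nat.cast_mul, mul_assoc, hw2, hz0]
    obtain ⟨b, hb⟩ := killed ⟨e, he⟩ h3
    have hcop : ∀ q : m.primeFactors, q ∈ ty z → b.Coprime (q.1 ^ m.factorization q.1) := by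
      intro q hq
      have hqp := Nat.prime_of_mem_primeFactors q.2
      apply Nat.Coprime.pow_right
      rw [Nat.coprime_comm, Nat.Prime.coprime_iff_not_dvd hqp]
      rintro ⟨b', hb'⟩
      unfold ty at hq
      rw [mem_filter, ← hN0] at hq
      obtain ⟨n', hn'⟩ := hq.2
      have h4 : (n' : ZMod m) * z = 0 := by
        have h5 : (n' : ZMod m) * z = ((b' : ℕ) : ZMod m) * ((N : ZMod m) * en m N) := by
          rw [← hw2, hb, hb', hk, hn']
          push_cast
          ring
        rw [h5, hNe, mul_zero]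
      rw [← nsmul_eq_mul] at h4
      have h5 := addOrderOf_dvd_of_nsmul_eq_zero h4
      rw [← hN0] at h5
      have hn0 : 0 < n' := by
        rcases Nat.eq_zero_or_pos n' with h | h
        · rw [h, mul_zero] at hn'; omega
        · exact h
      have h6 := Nat.le_of_dvd hn0 h5
      have h7 := hqp.two_le
      rw [hn'] at h6
      nlinarith
    let u : ∀ q : m.primeFactors, HH m q := fun q =>
      if h : q ∈ ty z then ZMod.unitOfCoprime b (hcop q h) else 1
    have hu : ((C.E u : (ZMod m)ˣ) : ZMod m) * en m N = w := by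
      rw [hb]
      apply agree
      intro q hq
      rw [map_natCast]
      show ((b : ℕ) : ZMod (q.1 ^ m.factorization q.1)) =
        ((if h : q ∈ ty z then ZMod.unitOfCoprime b (hcop q h) else 1 : HH m q) :
          ZMod (q.1 ^ m.factorization q.1))
      rw [dif_pos hq, ZMod.coe_unitOfCoprime]
    refine ⟨u, ?_, hu⟩
    rw [mem_filter]
    refine ⟨mem_univ _, ?_, ?_⟩
    · rw [← hN0, hen, ← hw2, ← hu]
      ring_nf
    · intro q hq
      exact dif_neg hq
  · intro u hu
    rfl

end SyAux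

open SyAux in
/-- (L2) from distributions to systems -/
theorem sy_of (h : S_nrel) : S_sy := by
  intro m _ hm C ℓ Q _ D hD
  refine ⟨⟨?_, ?_, ?_⟩, ?_, fun z hz => ev_sy C ℓ hD z hz⟩
  · intro I u v huv
    unfold sy
    by_cases hl : ℓ ∈ I
    · rw [if_pos hl, if_pos hl]
      congr 1
      apply agree
      intro q hq
      rw [cast_E, huv q hq]
    · rw [if_neg hl, if_neg hl]
  · intro I hl
    funext u
    unfold sy
    rw [if_neg hl]
    rfl
  · intro I q hq hql u
    by_cases hl : ℓ ∈ I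
    · have hl' : ℓ ∈ I.erase q := mem_erase.2 ⟨fun h => hql h.symm, hl⟩
      have h1 := h m hm C Q D hD I q hq u
      unfold sy NN
      unfold NN at h1
      simp only [if_pos hl, if_pos hl']
      exact h1
    · have hl' : ℓ ∉ I.erase q := fun h => hl (mem_of_mem_erase h)
      unfold sy NN
      simp only [if_neg hl, if_neg hl']
      rw [sum_const_zero, sub_zero]
  · intro I u
    unfold sy
    by_cases hl : ℓ ∈ I
    · rw [if_pos hl, if_pos hl, map_mul, E_kappa, ← hD.neg]
      congr 1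
      push_cast
      ring
    · rw [if_neg hl, if_neg hl, neg_zero]

end Pool.Agent.NH35.HK
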