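import Pool.Agent.NH35.HK.Sys

/-! HK-6 (project of helper35): the leading terms, `top_of`. By helper49. -/

set_option autoImplicit false
set_option linter.unusedSectionVars false

namespace Pool.Agent.NH35.HK

open Finset

namespace TopH49

variable {ι : Type} [Fintype ι] [DecidableEq ι] {H : ι → Type} [∀ i, CommGroup (H i)]
  [∀ i, Fintype (H i)] [∀ i, DecidableEq (H i)]

lemma ext_sub (d : Dat H) (I : Finset ι) (w : ∀ i, H i) (F F' : (∀ i, H i) → ℤ) :
    Ext d I w (fun u => F u - F' u) = fun A u => Ext d I w F A u - Ext d I w F' A u := by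
  funext A u
  unfold Ext
  split_ifs with h
  · rw [← Finset.sum_sub_distrib]
    refine Finset.sum_congr rfl (fun B _ => ?_)
    split_ifs
    · rw [smul_sub]
    · simp
  · simp

lemma od_sub (d : Dat H) (c c' : Finset ι → (∀ i, H i) → ℤ) :
    Od d (fun A u => c A u - c' A u) = fun A u => Od d c A u - Od d c' A u := by
  funext A u
  unfold Od
  ring

lemma pair_sub (X : Finset ι → (∀ i, H i) → ℤ) (c c' : Finset ι → (∀ i, H i) → ℤ) :
    pair X (fun A u => c A u - c' A u) = pair X c - pair X c' := by
  unfold pair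
  rw [← Finset.sum_sub_distrib]
  refine Finset.sum_congr rfl (fun A _ => ?_)
  rw [← Finset.sum_sub_distrib]
  refine Finset.sum_congr rfl (fun u _ => ?_)
  rw [smul_sub]

lemma pair_neg (X : Finset ι → (∀ i, H i) → ℤ) (c : Finset ι → (∀ i, H i) → ℤ) :
    pair X (-c) = - pair X c := by
  unfold pair
  rw [← Finset.sum_neg_distrib]
  refine Finset.sum_congr rfl (fun A _ => ?_)
  rw [← Finset.sum_neg_distrib]
  refine Finset.sum_congr rfl (fun u _ => ?_)
  rw [Pi.neg_apply, Pi.neg_apply, smul_neg]

lemma nn_sub (q : ι) (F F' : (∀ i, H i) → ℤ) (u : ∀ i, H i) :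
    NN q (fun u => F u - F' u) u = NN q F u - NN q F' u := by
  unfold NN
  rw [← Finset.sum_sub_distrib]

lemma sys_sub (d : Dat H) (l : ι) (c c' : Finset ι → (∀ i, H i) → ℤ) (h : Sys d l c)
    (h' : Sys d l c') : Sys d l (fun A u => c A u - c' A u) where
  dep := fun I u v huv => by
    simp only
    rw [h.dep I u v huv, h'.dep I u v huv]
  sup := fun I hI => by
    funext u
    rw [h.sup I hI, h'.sup I hI]; simp
  rel := fun I q hq hql u => by
    rw [nn_sub, h.rel I q hq hql u, h'.rel I q hq hql u]
    ring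

lemma odd_sub (d : Dat H) (c c' : Finset ι → (∀ i, H i) → ℤ) (h : Odd1 d c)
    (h' : Odd1 d c') : Odd1 d (fun A u => c A u - c' A u) := fun I u => by
  have e1 := h I u
  have e2 := h' I u
  beta_reduce
  rw [e1, e2]; ring

lemma sum_nn (l : ι) (c : H l) (f : (∀ i, H i) → ℤ) :
    ∑ u : ∀ i, H i, (if u l = c then NN l f u else 0) = ∑ u : ∀ i, H i, f u := by
  rw [← Finset.sum_filter]
  unfold NN
  rw [← Finset.sum_product']
  refine Finset.sum_nbij' (fun p => Function.update p.1 l p.2)
    (fun v => (Function.update v l c, v l)) ?_ ?_ ?_ ?_ ?_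
  · intro p _; exact Finset.mem_univ _
  · intro v _
    simp
  · intro p hp
    simp only [Finset.mem_product, Finset.mem_filter, Finset.mem_univ, true_and, and_true] at hp
    ext1
    · simp only [Function.update_idem]
      rw [← hp, Function.update_eq_self]
    · simp
  · intro v _
    simp
  · intro p _; rfl

lemma dep_nn (l : ι) (I : Finset ι) (F : (∀ i, H i) → ℤ) (hF : Dep I F) :
    Dep (I.erase l) (NN l F) := by
  intro u v h
  unfold NN
  refine Finset.sum_congr rfl (fun s _ => hF _ _ ?_)
  intro i hi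
  by_cases hil : i = l
  · subst hil; simp
  · rw [Function.update_of_ne hil, Function.update_of_ne hil]
    exact h i (Finset.mem_erase.2 ⟨hil, hi⟩)

lemma nn_nn (l q : ι) (hql : q ≠ l) (F : (∀ i, H i) → ℤ) (h : ∀ u, NN q F u = 0) (u : ∀ i, H i) :
    NN q (NN l F) u = 0 := by
  unfold NN
  rw [Finset.sum_comm]
  refine Finset.sum_eq_zero (fun t _ => ?_)
  have := h (Function.update u l t)
  unfold NN at this
  rw [← this]
  refine Finset.sum_congr rfl (fun s _ => ?_)
  rw [Function.update_comm hql]

/-- `[u l = g] F' u` -/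
def sl (l : ι) (g : H l) (F : (∀ i, H i) → ℤ) (u : ∀ i, H i) : ℤ := if u l = g then F u else 0

lemma tst_sl (l : ι) (I : Finset ι) (hl : l ∈ I) (g : H l) (F : (∀ i, H i) → ℤ)
    (hF : Dep (I.erase l) F) (h : ∀ q ∈ I.erase l, ∀ u, NN q F u = 0) : Tst l I (sl l g F) where
  dep := fun u v huv => by
    unfold sl
    rw [huv l hl, hF u v (fun i hi => huv i (Finset.mem_of_mem_erase hi))]
  nul := fun q hq hql u => by
    have h1 := h q (Finset.mem_erase.2 ⟨hql, hq⟩) u
    unfold NN sl at *
    by_cases hu : u l = g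
    · rw [← h1]
      refine Finset.sum_congr rfl (fun s _ => ?_)
      rw [if_pos]
      rw [Function.update_of_ne (Ne.symm hql), hu]
    · refine Finset.sum_eq_zero (fun s _ => ?_)
      rw [if_neg]
      rw [Function.update_of_ne (Ne.symm hql)]
      exact hu

lemma nn_sl (l : ι) (I : Finset ι) (g : H l) (F : (∀ i, H i) → ℤ)
    (hF : Dep (I.erase l) F) (u : ∀ i, H i) : NN l (sl l g F) u = F u := by
  unfold NN sl
  rw [Finset.sum_eq_single g]
  · rw [if_pos (by simp)]
    refine hF _ _ (fun i hi => ?_)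
    rw [Function.update_of_ne (Finset.ne_of_mem_erase hi)]
  · intro s _ hs
    rw [if_neg (by simpa using hs)]
  · intro h; exact absurd (Finset.mem_univ _) h

lemma tst_sub (l : ι) (I : Finset ι) (F F' : (∀ i, H i) → ℤ) (h : Tst l I F) (h' : Tst l I F') :
    Tst l I (fun u => F u - F' u) where
  dep := fun u v huv => by
    simp only
    rw [h.dep u v huv, h'.dep u v huv]
  nul := fun q hq hql u => by
    rw [nn_sub, h.nul q hq hql u, h'.nul q hq hql u, sub_zero]

lemma tst_k (d : Dat H) (l : ι) (I : Finset ι) (F : (∀ i, H i) → ℤ) (h : Tst l I F) :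
    Tst l I (fun u => F (d.κ * u)) where
  dep := fun u v huv => by
    refine h.dep _ _ (fun i hi => ?_)
    rw [Pi.mul_apply, Pi.mul_apply, huv i hi]
  nul := fun q hq hql u => by
    have h1 := h.nul q hq hql (d.κ * u)
    unfold NN at *
    rw [← h1]
    refine Fintype.sum_equiv (Equiv.mulLeft (d.κ q)) _ _ (fun s => ?_)
    change F (d.κ * Function.update u q s) = F (Function.update (d.κ * u) q (d.κ q * s))
    congr 1
    funext i
    by_cases hi : i = q
    · subst hi; simp
    · rw [Pi.mul_apply, Function.update_of_ne hi, Function.update_of_ne hi, Pi.mul_apply]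

lemma kk (d : Dat H) (i : ι) (s : H i) : d.κ i * (d.κ i * s) = s := by
  have := congrFun d.hκ i
  rw [Pi.mul_apply, Pi.one_apply] at this
  rw [← mul_assoc, this, one_mul]

open Classical in
/-- the two-coordinate sum -/
noncomputable def SS (l i3 : ι) (P : H i3 → Prop) (F : (∀ i, H i) → ℤ) : ℤ :=
  ∑ u : ∀ i, H i, if P (u i3) ∧ (∀ i, i ≠ l → i ≠ i3 → u i = 1) then F u else 0

lemma SS_nn (l i3 : ι) (hne : i3 ≠ l) (P : H i3 → Prop) (F : (∀ i, H i) → ℤ) (a : ∀ i, Finset (H i))
    (hP : ∀ s, P s ↔ s ∈ a i3) : bsum {i3} a (NN l F) = SS l i3 P F := by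
  classical
  unfold SS
  rw [← sum_nn l 1]
  unfold bsum
  refine Finset.sum_congr rfl (fun u _ => ?_)
  by_cases hu : u l = 1
  · rw [if_pos hu]
    by_cases h : P (u i3) ∧ (∀ i, i ≠ l → i ≠ i3 → u i = 1)
    · rw [if_pos]
      · unfold NN
        refine Finset.sum_congr rfl (fun s _ => ?_)
        beta_reduce
        rw [if_pos]
        rw [Function.update_of_ne hne]
        refine ⟨h.1, fun i h1 h2 => ?_⟩
        rw [Function.update_of_ne h1]
        exact h.2 i h1 h2
      · refine ⟨fun i hi => ?_, fun i hi => ?_⟩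
        · rw [Finset.mem_singleton] at hi
          subst hi
          exact (hP _).1 h.1
        · rw [Finset.mem_singleton] at hi
          by_cases hil : i = l
          · subst hil; exact hu
          · exact h.2 i hil hi
    · rw [if_neg]
      · unfold NN
        symm
        refine Finset.sum_eq_zero (fun s _ => ?_)
        beta_reduce
        rw [if_neg]
        rw [Function.update_of_ne hne]
        intro hc
        apply h
        refine ⟨hc.1, fun i h1 h2 => ?_⟩
        have := hc.2 i h1 h2
        rwa [Function.update_of_ne h1] at this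
      · intro hc
        apply h
        refine ⟨(hP _).2 (hc.1 i3 (Finset.mem_singleton_self _)), fun i h1 h2 => hc.2 i ?_⟩
        rwa [Finset.mem_singleton]
  · rw [if_neg hu, if_neg]
    intro hc
    apply hu
    apply hc.2 l
    rw [Finset.mem_singleton]
    exact hne.symm

lemma SS_compl (l i3 : ι) (hne : i3 ≠ l) (P : H i3 → Prop) (F : (∀ i, H i) → ℤ)
    (hF : ∀ u, NN i3 F u = 0) : SS l i3 (fun s => ¬ P s) F = - SS l i3 P F := by
  classical
  have h : SS l i3 (fun s => ¬ P s) F + SS l i3 P F = 0 := by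
    unfold SS
    rw [← Finset.sum_add_distrib]
    have h2 : ∑ u : ∀ i, H i, (if (∀ i, i ≠ l → i ≠ i3 → u i = 1) then F u else 0) = 0 := by
     rw [← sum_nn i3 1]
     refine Finset.sum_eq_zero (fun u _ => ?_)
     split_ifs
     · unfold NN
       by_cases h3 : (∀ i, i ≠ l → i ≠ i3 → u i = 1)
       · rw [← hF u]
         unfold NN
         refine Finset.sum_congr rfl (fun s _ => ?_)
         beta_reduce
         rw [if_pos]
         intro i h4 h5
         rw [Function.update_of_ne h5]
         exact h3 i h4 h5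
       · refine Finset.sum_eq_zero (fun s _ => ?_)
         beta_reduce
         rw [if_neg]
         intro hc
         apply h3
         intro i h4 h5
         have := hc i h4 h5
         rwa [Function.update_of_ne h5] at this
     · rfl
    refine Eq.trans (Finset.sum_congr rfl (fun u _ => ?_)) h2
    by_cases h1 : P (u i3) <;> by_cases h2 : (∀ i, i ≠ l → i ≠ i3 → u i = 1) <;> simp [h1, h2]
  linarith

end TopH49

open TopH49 in
theorem top_of (h1 : S_ext) (h4 : S_hit) (h5 : S_sep) : S_top := by
  intro ι _ _ H _ _ _ d l i3 K T _ β I hK2 hl hKK hR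
  -- (i)
  have hi : ∀ (w w' : ∀ i, H i) (F : (∀ i, H i) → ℤ), Tst l I F →
      pair β.X (Od d (Ext d I w F)) = pair β.X (Od d (Ext d I w' F)) := by
    intro w w' F hF
    obtain ⟨_, s1, s2, s3, s4, _, _⟩ := h1 ι H d l I hl w ℤ F hF
    obtain ⟨_, t1, t2, t3, t4, _, _⟩ := h1 ι H d l I hl w' ℤ F hF
    have := hKK (fun A u => Od d (Ext d I w F) A u - Od d (Ext d I w' F) A u)
      (sys_sub d l _ _ s1 t1) (odd_sub d _ _ s2 t2) (fun A hA => by
        funext u
        by_cases h : I ⊆ A
        · have hAI : I = A := Finset.eq_of_subset_of_card_le h hA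
          subst hAI
          rw [s3, t3]; simp
        · rw [s4 A h, t4 A h]; simp)
    rw [pair_sub] at this
    linarith
  -- (ii)
  have hii : ∀ (w : ∀ i, H i) (F : (∀ i, H i) → ℤ), Tst l I F → (∀ u, NN l F u = 0) →
      pair β.X (Od d (Ext d I w F)) = 0 := by
    intro w F hF h0
    obtain ⟨_, s1, s2, _, _, s5, _⟩ := h1 ι H d l I hl w ℤ F hF
    exact hR _ s1 s2 (fun A u => (s5 h0 A u).2)
  -- (iii)
  have hiii : ∀ (w : ∀ i, H i) (F : (∀ i, H i) → ℤ), Tst l I F →
      pair β.X (Od d (Ext d I w (fun u => F (d.κ * u)))) = - pair β.X (Od d (Ext d I w F)) := by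
    intro w F hF
    obtain ⟨_, _, _, _, _, _, s6⟩ := h1 ι H d l I hl w ℤ F hF
    rw [s6, pair_neg, hi (d.κ * w) w F hF]
  have hadd : ∀ (w : ∀ i, H i) (F F' : (∀ i, H i) → ℤ),
      pair β.X (Od d (Ext d I w (fun u => F u - F' u))) =
        pair β.X (Od d (Ext d I w F)) - pair β.X (Od d (Ext d I w F')) := by
    intro w F F'
    rw [ext_sub, od_sub, pair_sub]
  -- (iv)
  have hiv : ∀ (w : ∀ i, H i) (F : (∀ i, H i) → ℤ), Tst l I F →
      pair β.X (Od d (Ext d I w F)) = pair β.X (Od d (Ext d I w (sl l (w l) (NN l F)))) := by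
    intro w F hF
    have hD := dep_nn l I F hF.dep
    have hT : Tst l I (sl l (w l) (NN l F)) := tst_sl l I hl (w l) (NN l F) hD (fun q hq u =>
      nn_nn l q (Finset.ne_of_mem_erase hq) F (hF.nul q (Finset.mem_of_mem_erase hq)
        (Finset.ne_of_mem_erase hq)) u)
    have h := hii w _ (tst_sub l I _ _ hF hT) (fun u => by
      rw [nn_sub, nn_sl l I (w l) (NN l F) hD u, sub_self])
    rw [hadd] at h
    linarith
  obtain ⟨w, hw⟩ := h4 ι H d l i3 K T β I hl
  rcases hw with hw | ⟨e, t, g, he, hIt, hw⟩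
  · refine ⟨0, Or.inl rfl, fun w' F hF => ?_⟩
    rw [zero_mul, hi w' w F hF, hiv w F hF]
    exact hw (NN l F) (dep_nn l I F hF.dep)
  · set a : ∀ i, Finset (H i) := fun i => (β.b t i).map (Equiv.mulLeft (g i)).toEmbedding with ha
    have hmem : ∀ i (s : H i), s ∈ a i ↔ (g i)⁻¹ * s ∈ β.b t i := by
      intro i s
      rw [ha]
      simp only [Finset.mem_map, Equiv.coe_toEmbedding, Equiv.coe_mulLeft]
      constructor
      · rintro ⟨x, hx, rfl⟩
        rwa [inv_mul_cancel_left]
      · intro h
        exact ⟨_, h, by rw [mul_inv_cancel_left]⟩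
    have hY : ∀ (w' : ∀ i, H i) (F : (∀ i, H i) → ℤ), Tst l I F →
        pair β.X (Od d (Ext d I w' F)) = e * bsum (I.erase l) a (NN l F) := by
      intro w' F hF
      rw [hi w' w F hF, hiv w F hF]
      exact hw (NN l F) (dep_nn l I F hF.dep)
    -- the relation
    have hrel : ∀ F' : (∀ i, H i) → ℤ, Dep (I.erase l) F' → (∀ q ∈ I.erase l, ∀ u, NN q F' u = 0) →
        bsum (I.erase l) a (fun u => F' (d.κ * u)) = - bsum (I.erase l) a F' := by
      intro F' hD hN
      have hT := tst_sl l I hl (w l) F' hD hN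
      have h2 := hiii w _ hT
      rw [hY w _ (tst_k d l I _ hT), hY w _ hT] at h2
      have e1 : NN l (sl l (w l) F') = F' := funext (nn_sl l I (w l) F' hD)
      have e2 : NN l (fun u => sl l (w l) F' (d.κ * u)) = fun u => F' (d.κ * u) := by
        funext u
        have h3 := nn_sl l I (w l) F' hD (d.κ * u)
        rw [← h3]
        unfold NN
        refine Fintype.sum_equiv (Equiv.mulLeft (d.κ l)) _ _ (fun s => ?_)
        change sl l (w l) F' (d.κ * Function.update u l s) =
          sl l (w l) F' (Function.update (d.κ * u) l (d.κ l * s))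
        congr 1
        funext i
        by_cases hi : i = l
        · subst hi; simp
        · rw [Pi.mul_apply, Function.update_of_ne hi, Function.update_of_ne hi, Pi.mul_apply]
      rw [e1, e2] at h2
      rcases he with he | he
      · rw [he] at h2; linarith
      · rw [he] at h2; linarith
    have hane : ∀ i ∈ I.erase l, (a i).Nonempty := by
      intro i hi
      obtain ⟨s, hs⟩ := β.hne t i (hIt (Finset.mem_of_mem_erase hi))
      exact ⟨g i * s, by rw [hmem, inv_mul_cancel_left]; exact hs⟩
    have hadis : ∀ i ∈ I.erase l, ∀ s ∈ a i, d.κ i * s ∉ a i := by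
      intro i hi s hs hc
      rw [hmem] at hs hc
      have := β.hdis t i (hIt (Finset.mem_of_mem_erase hi)) _ hs
      apply this
      rwa [mul_left_comm] at hc
    -- every `i` is `i3`
    have hcos : ∀ i ∈ I.erase l, ∃ h : i = i3, ∃ g' : H i, ∀ s, s ∈ β.b t i ↔
        (h ▸ (g' * s) : H i3) ∈ K := by
      intro i hi
      rcases β.hcov t i (hIt (Finset.mem_of_mem_erase hi)) (Finset.ne_of_mem_erase hi) with
        ⟨s, hs1, hs2⟩ | h
      · exfalso
        obtain ⟨F', f1, f2, f3, f4⟩ := h5 ι H d (I.erase l) a hane hadis i hi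
          ⟨g i * s, by rw [hmem, inv_mul_cancel_left]; exact hs1, by
            rw [hmem, mul_left_comm, inv_mul_cancel_left]; exact hs2⟩
        have := hrel F' f1 f2
        rw [f3, f4] at this
        norm_num at this
      · exact h
    -- `I.erase l` is not empty
    have hnem : (I.erase l).Nonempty := by
      by_contra hc
      rw [Finset.not_nonempty_iff_eq_empty] at hc
      have h2 := hrel (fun _ => 1) (fun _ _ _ => rfl) (fun q hq => by
        rw [hc] at hq; exact absurd hq (Finset.notMem_empty q))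
      have h3 : bsum (I.erase l) a (fun _ => (1:ℤ)) = 1 := by
        classical
        rw [hc]
        unfold bsum
        rw [Finset.sum_eq_single (1 : ∀ i, H i)]
        · rw [if_pos]
          exact ⟨fun i hi => absurd hi (Finset.notMem_empty i), fun i _ => rfl⟩
        · intro u _ hu
          rw [if_neg]
          intro h
          exact hu (funext (fun i => h.2 i (Finset.notMem_empty i)))
        · intro h; exact absurd (Finset.mem_univ _) h
      rw [h3] at h2
      norm_num at h2
    obtain ⟨i0, hi0⟩ := hnem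
    obtain ⟨h0, _⟩ := hcos i0 hi0
    subst h0
    have hIe : I.erase l = {i0} := by
      apply Finset.eq_singleton_iff_unique_mem.2
      refine ⟨hi0, fun x hx => ?_⟩
      obtain ⟨h, _⟩ := hcos x hx
      exact h
    have hne : i0 ≠ l := Finset.ne_of_mem_erase hi0
    have hK3 := hK2 hne
    have hI : I = {l, i0} := by
      rw [← Finset.insert_erase hl, hIe]
    obtain ⟨_, g', hg'⟩ := hcos i0 hi0
    have hg2 : ∀ s, s ∈ a i0 ↔ (g' * (g i0)⁻¹) * s ∈ K := by
      intro s
      rw [hmem, hg', mul_assoc]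
    have hcase : (∀ s, s ∈ a i0 ↔ s ∈ K) ∨ (∀ s, s ∈ a i0 ↔ s ∉ K) := by
      by_cases hgk : g' * (g i0)⁻¹ ∈ K
      · left
        intro s
        rw [hg2]
        exact Subgroup.mul_mem_cancel_left K hgk
      · right
        intro s
        have hgk' : d.κ i0 * (g' * (g i0)⁻¹) ∈ K := by
          by_contra hc
          exact hgk ((hK3 _).2 hc)
        rw [hg2]
        have e1 : (g' * (g i0)⁻¹) * s = (d.κ i0 * (g' * (g i0)⁻¹)) * (d.κ i0 * s) := by
          rw [mul_mul_mul_comm]
          have := congrFun d.hκ i0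
          rw [Pi.mul_apply, Pi.one_apply] at this
          rw [this, one_mul]
        rw [e1, Subgroup.mul_mem_cancel_left K hgk', hK3 (d.κ i0 * s), kk]
    have hi0I : i0 ∈ I := Finset.mem_of_mem_erase hi0
    rcases hcase with hc | hc
    · refine ⟨e, Or.inr ⟨hne, hI, he⟩, fun w' F hF => ?_⟩
      rw [hY w' F hF, hIe, SS_nn l i0 hne (fun s => s ∈ K) F a (fun s => (hc s).symm)]
      rfl
    · refine ⟨-e, Or.inr ⟨hne, hI, ?_⟩, fun w' F hF => ?_⟩
      · rcases he with he | he
        · right; rw [he]
        · left; rw [he]; norm_num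
      · rw [hY w' F hF, hIe, SS_nn l i0 hne (fun s => ¬ s ∈ K) F a (fun s => (hc s).symm),
          SS_compl l i0 hne (fun s => s ∈ K) F (hF.nul i0 hi0I hne)]
        unfold SS
        ring

end Pool.Agent.NH35.HK
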