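import Pool.Agent.NH35.HK.Stm

/-! (L7) twice `BLs`. -/

set_option autoImplicit false
set_option linter.unusedSectionVars false
set_option linter.unusedVariables false

namespace Pool.Agent.NH35.HK

open Finset Pool.Agent.H916R2 Pool.Agent.NH35.HG Pool.Agent.NH35.HE

private lemma two2_en {m N : ℕ} [NeZero m] (hN : N ∣ m) (g : ZMod m) (x : ℕ)
    (h : ((g.val : ℕ) : ZMod N) = (x : ZMod N)) :
    g * en m N = ((x * (m / N) : ℕ) : ZMod m) := by
  have h1 : g * en m N = ((g.val * (m / N) : ℕ) : ZMod m) := by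
    unfold en
    push_cast
    rw [ZMod.natCast_zmod_val]
  rw [h1, ZMod.natCast_eq_natCast_iff]
  have h2 : g.val ≡ x [MOD N] := (ZMod.natCast_eq_natCast_iff _ _ _).1 h
  have h3 := Nat.ModEq.mul_right' (m / N) h2
  rwa [Nat.mul_div_cancel' hN] at h3

private lemma two2_cast {m N : ℕ} [NeZero m] (hN : N ∣ m) (g : (ZMod m)ˣ) (v : (ZMod N)ˣ)
    (h : ZMod.unitsMap hN g = v) : (((g : ZMod m).val : ℕ) : ZMod N) = (v : ZMod N) := by
  rw [← h, ZMod.unitsMap_val, ZMod.natCast_val]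

private lemma two2_val3 {B : ℕ} (hB : B ≠ 0) [NeZero (3 ^ B)] (g : (ZMod (3 ^ B))ˣ) :
    (g : ZMod (3 ^ B)).val % 3 ≠ 0 := by
  intro h
  have h1 := ZMod.val_coe_unit_coprime g
  have h2 : 3 ∣ (g : ZMod (3 ^ B)).val := Nat.dvd_of_mod_eq_zero h
  have h3 : 3 ∣ 3 ^ B := dvd_pow_self 3 hB
  have h4 := Nat.dvd_gcd h2 h3
  rw [Nat.Coprime] at h1
  rw [h1] at h4
  omega

private lemma two2_neg3 {B : ℕ} (hB : B ≠ 0) [NeZero (3 ^ B)] (g : (ZMod (3 ^ B))ˣ) :
    (g : ZMod (3 ^ B)).val % 3 = 1 ↔ ¬ ((-g : (ZMod (3 ^ B))ˣ) : ZMod (3 ^ B)).val % 3 = 1 := by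
  have h1 := two2_val3 hB g
  have hlt := ZMod.val_lt (g : ZMod (3 ^ B))
  have h3 : 3 ∣ 3 ^ B := dvd_pow_self 3 hB
  have hne : (g : ZMod (3 ^ B)) ≠ 0 := by
    intro h
    rw [h, ZMod.val_zero] at h1
    exact h1 rfl
  rw [Units.val_neg, ZMod.neg_val, if_neg hne]
  omega

private lemma two2_negR {p A : ℕ} (hp : Odd (p ^ A)) (h1 : 1 < p ^ A) [NeZero (p ^ A)]
    (g : (ZMod (p ^ A))ˣ) :
    2 * (g : ZMod (p ^ A)).val < p ^ A ↔
      ¬ 2 * ((-g : (ZMod (p ^ A))ˣ) : ZMod (p ^ A)).val < p ^ A := by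
  have hlt := ZMod.val_lt (g : ZMod (p ^ A))
  have : Fact (1 < p ^ A) := ⟨h1⟩
  have hne : (g : ZMod (p ^ A)) ≠ 0 := g.ne_zero
  rw [Units.val_neg, ZMod.neg_val, if_neg hne]
  obtain ⟨k, hk⟩ := hp
  omega

theorem two2_of (h0 : S_bl) (h1 : S_co) (h2 : S_nrel) (h3 : S_sy) (h4 : S_bls) : S_two2 := by
  classical
  intro m ℓ _ _ _ _ hm hℓ hℓm hℓ3 h3m Q _ c hc
  obtain ⟨C⟩ := h1 m hm
  have hm0 : m ≠ 0 := NeZero.ne m
  let lq : m.primeFactors := ⟨ℓ, Nat.mem_primeFactors.mpr ⟨hℓ, hℓm, hm0⟩⟩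
  let i3 : m.primeFactors := ⟨3, Nat.mem_primeFactors.mpr ⟨Nat.prime_three, h3m, hm0⟩⟩
  have hB : m.factorization 3 ≠ 0 :=
    (Nat.Prime.factorization_pos_of_dvd Nat.prime_three hm0 h3m).ne'
  have hA : m.factorization ℓ ≠ 0 :=
    (Nat.Prime.factorization_pos_of_dvd hℓ hm0 hℓm).ne'
  have hne : i3 ≠ lq := fun h => hℓ3 (congrArg Subtype.val h).symm
  have h3B : 3 ∣ 3 ^ m.factorization 3 := dvd_pow_self 3 hB
  -- the subgroup
  let K : Subgroup (HH m i3) := (ZMod.unitsMap h3B).ker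
  have hK : ∀ g : HH m i3, g ∈ K ↔
      (g : ZMod (i3.1 ^ m.factorization i3.1)).val % 3 = 1 := by
    intro g
    change ZMod.unitsMap h3B g = 1 ↔ _
    rw [Units.ext_iff, ZMod.unitsMap_val, Units.val_one]
    change ((g : ZMod (3 ^ m.factorization 3)).cast : ZMod 3) = 1 ↔
      (g : ZMod (3 ^ m.factorization 3)).val % 3 = 1
    rw [← ZMod.natCast_val]
    have : (1 : ZMod 3) = ((1 : ℕ) : ZMod 3) := by simp
    rw [this, ZMod.natCast_eq_natCast_iff']
  let R : Finset (HH m lq) := univ.filter fun g =>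
    2 * (g : ZMod (lq.1 ^ m.factorization lq.1)).val < lq.1 ^ m.factorization lq.1
  have hR : ∀ g : HH m lq, g ∈ R ↔
      2 * (g : ZMod (lq.1 ^ m.factorization lq.1)).val < lq.1 ^ m.factorization lq.1 := by
    intro g
    simp only [R, mem_filter, mem_univ, true_and]
  have hK2 : ∀ s, s ∈ K ↔ C.d.κ i3 * s ∉ K := by
    intro s
    rw [hK, hK, C.hκ, neg_one_mul]
    exact two2_neg3 hB s
  have hodd : Odd (ℓ ^ m.factorization ℓ) := by
    apply Odd.pow
    exact Odd.of_dvd_nat hm hℓm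
  have hR2 : ∀ s, s ∈ R ↔ C.d.κ lq * s ∉ R := by
    intro s
    rw [hR, hR, C.hκ, neg_one_mul]
    exact two2_negR hodd (Nat.one_lt_pow hA hℓ.one_lt) s
  have hbls := h4 m hm C lq i3 rfl hℓ3 K R hK hR Q c
  have hbls' : pair (BL C.d lq i3 K R) (sy C lq c) = BLs m ℓ c := hbls
  obtain ⟨hsys, hodd1, -⟩ := h3 m hm C lq Q c hc
  have hbl := h0 m.primeFactors (HH m) C.d lq i3 K R hK2 hR2 hne Q (sy C lq c) hsys
  have hpair : pair (BL C.d lq i3 K R) (Od C.d (sy C lq c)) =
      (2 : ℤ) • pair (BL C.d lq i3 K R) (sy C lq c) := by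
    unfold pair
    rw [Finset.smul_sum]
    refine sum_congr rfl fun I _ => ?_
    rw [Finset.smul_sum]
    refine sum_congr rfl fun u _ => ?_
    unfold Od
    rw [hodd1 I u, sub_neg_eq_add, ← two_smul ℤ, smul_comm]
  rw [← hbls', ← hpair, hbl]
  -- the sum over the coordinates
  have hmemI : lq ∈ ({lq, i3} : Finset m.primeFactors) := by simp
  let v : HH m i3 × HH m lq → (∀ q : m.primeFactors, HH m q) := fun p =>
    Function.update (Function.update 1 i3 p.1) lq p.2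
  have hv1 : ∀ p, v p lq = p.2 := fun p => by simp [v]
  have hv2 : ∀ p, v p i3 = p.1 := fun p => by
    simp only [v]
    rw [Function.update_of_ne hne, Function.update_self]
  have hv3 : ∀ p i, i ≠ lq → i ≠ i3 → v p i = 1 := fun p i hi1 hi2 => by
    simp only [v]
    rw [Function.update_of_ne hi1, Function.update_of_ne hi2, Pi.one_apply]
  have hvinj : Function.Injective v := by
    intro p p' h
    refine Prod.ext ?_ ?_
    · rw [← hv2 p, ← hv2 p', h]
    · rw [← hv1 p, ← hv1 p', h]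
  have hsum : (∑ u : ∀ q : m.primeFactors, HH m q,
      (if u i3 ∈ K ∧ (∀ i, i ≠ lq → i ≠ i3 → u i = 1) then sy C lq c {lq, i3} u else 0)) =
      ∑ p : HH m i3 × HH m lq, (if p.1 ∈ K then
        c (((C.E (v p) : (ZMod m)ˣ) : ZMod m) * en m (NI m {lq, i3})) else 0) := by
    symm
    refine Finset.sum_of_injOn v hvinj.injOn (fun _ _ => by simp) ?_ ?_
    · intro u _ hu
      rw [if_neg]
      rintro ⟨_, h⟩
      apply hu
      refine ⟨(u i3, u lq), by simp, ?_⟩
      funext i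
      by_cases hi1 : i = lq
      · subst hi1
        rw [hv1]
      · by_cases hi2 : i = i3
        · subst hi2
          rw [hv2]
        · rw [hv3 _ i hi1 hi2, h i hi1 hi2]
    · intro p _
      have h5 : (v p i3 ∈ K ∧ ∀ i, i ≠ lq → i ≠ i3 → v p i = 1) ↔ p.1 ∈ K := by
        rw [hv2]
        exact ⟨fun h => h.1, fun h => ⟨h, hv3 p⟩⟩
      have h6 : sy C lq c {lq, i3} (v p) =
          c (((C.E (v p) : (ZMod m)ˣ) : ZMod m) * en m (NI m {lq, i3})) := by
        unfold sy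
        rw [if_pos hmemI]
      rw [h6]
      simp only [h5]
  refine Eq.trans (Eq.trans (by congr!) hsum) ?_
  rw [Fintype.sum_prod_type]
  refine Fintype.sum_congr _ _ fun b => ?_
  by_cases hb : (b : ZMod (3 ^ m.factorization 3)).val % 3 = 1
  · have hbK : b ∈ K := (hK b).2 hb
    simp only [if_pos hbK]
    rw [if_pos hb]
    obtain ⟨w, hw⟩ : ∃ w : ∀ q : m.primeFactors, HH m q, w = Function.update (1 : ∀ q : m.primeFactors, HH m q) i3 b := ⟨_, rfl⟩
    have hwb : w i3 = b := by rw [hw, Function.update_self]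
    have hn := h2 m hm C Q c hc {lq, i3} lq hmemI w
    have herase : ({lq, i3} : Finset m.primeFactors).erase lq = {i3} := by
      rw [Finset.erase_insert]
      simpa using hne.symm
    have hNI : NI m {i3} = 3 ^ m.factorization 3 := by
      unfold NI
      rw [Finset.prod_singleton]
    rw [herase, hNI] at hn
    have hdvd : 3 ^ m.factorization 3 ∣ m := Nat.ordProj_dvd m 3
    have e1 : ((C.E w : (ZMod m)ˣ) : ZMod m) *
        en m (3 ^ m.factorization 3) =
        (((b : ZMod (3 ^ m.factorization 3)).val * (m / 3 ^ m.factorization 3) : ℕ) : ZMod m) := by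
      apply two2_en hdvd
      have := two2_cast hdvd (C.E w) b (by
        have := C.hE w i3
        rw [hwb] at this
        exact this)
      rw [this, ZMod.natCast_zmod_val]
    have e2 : ((C.E ((C.d.τ lq)⁻¹ * w) : (ZMod m)ˣ) : ZMod m) *
        en m (3 ^ m.factorization 3) =
        (((((ℓ : ℕ) : ZMod (3 ^ m.factorization 3))⁻¹ *
          (b : ZMod (3 ^ m.factorization 3))).val * (m / 3 ^ m.factorization 3) : ℕ) :
            ZMod m) := by
      apply two2_en hdvd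
      have := two2_cast hdvd (C.E ((C.d.τ lq)⁻¹ * w)) ((C.d.τ lq i3)⁻¹ * b) (by
        have := C.hE ((C.d.τ lq)⁻¹ * w) i3
        rw [Pi.mul_apply, Pi.inv_apply, hwb] at this
        exact this)
      rw [this, ZMod.natCast_zmod_val, Units.val_mul]
      congr 1
      have ht := C.hτ lq i3 hne
      rw [← ZMod.inv_coe_unit]
      rw [ht]
    rw [← e1, ← e2, ← hn]
    unfold NN
    refine Fintype.sum_congr _ _ fun t => ?_
    simp only [v, hw]
  · have hbK : b ∉ K := fun h => hb ((hK b).1 h)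
    simp only [if_neg hbK]
    rw [if_neg hb, Finset.sum_const_zero]

end Pool.Agent.NH35.HK
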