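import Pool.Agent.NH35.HK.Stm

/-! From the level `m` to the level `4 * m`. -/

set_option autoImplicit false

namespace Pool.Agent.NH35.HK

open Finset Pool.Agent.H916R2 Pool.Agent.NH35.HG Pool.Agent.NH35.HE

theorem iota_four_val68 {m : ℕ} (hm : 0 < m) (z : ZMod m) :
    (iota 4 z : ZMod (4 * m)).val = 4 * z.val := by
  have : NeZero m := ⟨hm.ne'⟩
  have h := ZMod.val_lt z
  unfold iota
  exact ZMod.val_cast_of_lt (by omega)

theorem up_ok : S_up := by
  intro m hm s hs
  obtain ⟨M, N, e, mo, hM, hme, hmo, H⟩ := hs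
  have hm0 : 0 < m := hm.pos
  have he : e = 0 := by
    by_contra hcon
    have h2 : 2 ∣ m := by
      rw [hme]
      exact Dvd.dvd.mul_right (dvd_pow_self 2 hcon) mo
    exact (Nat.not_even_iff_odd.2 hm) (even_iff_two_dvd.2 h2)
  subst he
  rw [pow_zero, one_mul] at hme
  subst hme
  refine ⟨M, N, 2, m, hM, by norm_num, hm, ?_⟩
  intro ℓ h1 h2 h3 F _ _ hF χ ψ hχ hψ
  have hord : orderOf (χ ^ 4) = m := by
    rw [orderOf_pow_of_dvd (by norm_num) (by rw [hχ]; exact Dvd.intro m rfl), hχ]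
    exact Nat.mul_div_cancel_left m (by norm_num)
  have key := H ℓ h1 h2 h3 F hF (χ ^ 4) ψ hord hψ
  have e1 : ∀ z : ZMod m, χ ^ (iota 4 z : ZMod (4 * m)).val = (χ ^ 4) ^ z.val := fun z => by
    rw [iota_four_val68 hm0, pow_mul]
  rw [Multiset.map_map, Multiset.map_map, Multiset.card_map]
  simp only [Function.comp_def, e1]
  exact key

end Pool.Agent.NH35.HK
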