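import Pool.Agent.NH35.HK.Sys

/-! Systems of functions (project HK): a function which separates a box from the opposite box
(helper15). -/

set_option autoImplicit false
set_option linter.unusedSectionVars false

namespace Pool.Agent.NH35.HK

open Finset

section SepAux

variable {ι : Type} [Fintype ι] [DecidableEq ι] {H : ι → Type} [∀ i, CommGroup (H i)]
  [∀ i, Fintype (H i)] [∀ i, DecidableEq (H i)]

private theorem bsum_prod_sep (J : Finset ι) (a : ∀ i, Finset (H i)) (g : ∀ i, H i → ℤ) :
    bsum J a (fun u => ∏ q ∈ J, g q (u q)) = ∏ q ∈ J, ∑ s ∈ a q, g q s := by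
  classical
  set A' : ∀ i, Finset (H i) := fun i => if i ∈ J then a i else {1} with hA'
  have h1 := Finset.prod_univ_sum A' (fun q s => if q ∈ J then g q s else 1)
  have h2 : ∏ q, ∑ s ∈ A' q, (if q ∈ J then g q s else 1) = ∏ q ∈ J, ∑ s ∈ a q, g q s := by
    rw [← Finset.prod_subset (Finset.subset_univ J)]
    · refine Finset.prod_congr rfl fun q hq => ?_
      rw [hA']
      simp only [hq, if_true]
    · intro q _ hq
      rw [hA']
      simp only [hq, if_false, Finset.sum_const, Finset.card_singleton, one_smul]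
  rw [← h2, h1]
  unfold bsum
  rw [← Finset.sum_filter]
  refine Finset.sum_congr ?_ fun u _ => ?_
  · ext u
    simp only [Finset.mem_filter, Finset.mem_univ, true_and, Fintype.mem_piFinset]
    constructor
    · rintro ⟨h3, h4⟩ i
      rw [hA']
      by_cases hi : i ∈ J
      · simp only [hi, if_true]
        exact h3 i hi
      · simp only [hi, if_false, Finset.mem_singleton]
        exact h4 i hi
    · intro h3
      refine ⟨fun i hi => ?_, fun i hi => ?_⟩
      · have := h3 i
        rw [hA'] at this
        simpa only [hi, if_true] using this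
      · have := h3 i
        rw [hA'] at this
        simpa only [hi, if_false, Finset.mem_singleton] using this
  · refine Finset.prod_subset_one_on_sdiff (Finset.subset_univ J) ?_ ?_
    · intro q hq
      rw [Finset.mem_sdiff] at hq
      rw [if_neg hq.2]
    · intro q hq
      rw [if_pos hq]

private theorem sum_ind_sep {i : ι} (A : Finset (H i)) (x y : H i) (hx : x ∈ A) (hy : y ∉ A) :
    ∑ s ∈ A, ((if s = x then (1:ℤ) else 0) - (if s = y then 1 else 0)) = 1 := by
  rw [Finset.sum_sub_distrib, Finset.sum_ite_eq' A x, Finset.sum_ite_eq' A y, if_pos hx, if_neg hy]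
  rfl

end SepAux

theorem sep_ok : S_sep := by
  classical
  intro ι _ _ H _ _ _ d J a hne hdis i0 hi0 hs0
  obtain ⟨s0, hs1, hs2⟩ := hs0
  have hx : ∀ i, ∃ x : H i, i ∈ J → x ∈ a i := by
    intro i
    by_cases hi : i ∈ J
    · obtain ⟨x, hx⟩ := hne i hi
      exact ⟨x, fun _ => hx⟩
    · exact ⟨1, fun h => absurd h hi⟩
  choose x hx using hx
  have hy : ∀ i, ∃ y : H i, (i ∈ J → y ∉ a i) ∧ (i = i0 → d.κ i * y ∉ a i) := by
    intro i
    by_cases hi : i = i0
    · subst hi
      exact ⟨s0, fun _ => hs1, fun _ => hs2⟩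
    · exact ⟨d.κ i * x i, fun h => hdis i h _ (hx i h), fun h => absurd h hi⟩
  choose y hy using hy
  have hκκ : ∀ i, ∀ s : H i, d.κ i * (d.κ i * s) = s := by
    intro i s
    have h := congrFun d.hκ i
    rw [Pi.mul_apply, Pi.one_apply] at h
    rw [← mul_assoc, h, one_mul]
  set g : ∀ i, H i → ℤ := fun i s => (if s = x i then (1:ℤ) else 0) - (if s = y i then 1 else 0)
    with hg
  refine ⟨fun u => ∏ q ∈ J, g q (u q), ?_, ?_, ?_, ?_⟩
  · intro u v huv
    exact Finset.prod_congr rfl fun q hq => by rw [huv q hq]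
  · intro q hq u
    unfold NN
    have h1 : ∀ s : H q, ∏ r ∈ J, g r (Function.update u q s r) =
        g q s * ∏ r ∈ J.erase q, g r (u r) := by
      intro s
      rw [← Finset.mul_prod_erase J _ hq, Function.update_self]
      congr 1
      exact Finset.prod_congr rfl fun r hr => by
        rw [Function.update_of_ne (Finset.ne_of_mem_erase hr)]
    simp only [h1]
    rw [← Finset.sum_mul]
    have h2 : ∑ s : H q, g q s = 0 := by
      rw [hg]
      simp only
      rw [Finset.sum_sub_distrib, Finset.sum_ite_eq' _ (x q), Finset.sum_ite_eq' _ (y q)]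
      simp
    rw [h2, zero_mul]
  · rw [bsum_prod_sep]
    exact Finset.prod_eq_one fun q hq => sum_ind_sep (a q) (x q) (y q) (hx q hq) ((hy q).1 hq)
  · have h3 := bsum_prod_sep J a (fun q s => g q (d.κ q * s))
    have h4 : (fun u : ∀ i, H i => ∏ q ∈ J, g q ((d.κ * u) q)) =
        fun u : ∀ i, H i => ∏ q ∈ J, g q (d.κ q * u q) := rfl
    rw [h4, h3]
    refine Finset.prod_eq_zero hi0 (Finset.sum_eq_zero fun s hs => ?_)
    rw [hg]
    simp only
    rw [if_neg, if_neg, sub_zero]
    · intro h
      apply (hy i0).2 rfl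
      rw [← h, hκκ]
      exact hs
    · intro h
      apply hdis i0 hi0 (x i0) (hx i0 hi0)
      rw [← h, hκκ]
      exact hs

end Pool.Agent.NH35.HK
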