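import Pool.Agent.NH35.HK.Sys
import Pool.Agent.NH35.HG.OddS
import Pool.Agent.NH35.HE.StmC

/-! Distributions on the integers modulo an odd number `m` as systems: statements. -/

set_option autoImplicit false
set_option linter.unusedSectionVars false

namespace Pool.Agent.NH35.HK

open Finset Pool.Agent.H916R2 Pool.Agent.NH35.HG Pool.Agent.NH35.HE

instance instNeZeroPow (m : ℕ) (q : m.primeFactors) : NeZero (q.1 ^ m.factorization q.1) :=
  ⟨pow_ne_zero _ (Nat.prime_of_mem_primeFactors q.2).ne_zero⟩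

/-- the components of the group of units modulo `m` -/
abbrev HH (m : ℕ) (q : m.primeFactors) : Type := (ZMod (q.1 ^ m.factorization q.1))ˣ

/-- coordinates on the group of units modulo `m`, the Frobenius elements and minus one -/
structure Co (m : ℕ) [NeZero m] where
  E : (∀ q : m.primeFactors, HH m q) ≃* (ZMod m)ˣ
  hE : ∀ u q, ZMod.unitsMap (Nat.ordProj_dvd m q.1) (E u) = u q
  d : Dat (HH m)
  hκ : ∀ q, d.κ q = -1
  hτ : ∀ q r, r ≠ q → ((d.τ q r : HH m r) : ZMod (r.1 ^ m.factorization r.1)) = ((q.1 : ℕ) : ZMod _)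

/-- (L1) coordinates exist -/
def S_co : Prop := ∀ (m : ℕ) [NeZero m], Odd m → Nonempty (Co m)

/-- the standard element of order `N`, for `N ∣ m` -/
def en (m N : ℕ) : ZMod m := ((m / N : ℕ) : ZMod m)

/-- the product of the prime powers in `m` -/
def NI (m : ℕ) (I : Finset m.primeFactors) : ℕ := ∏ q ∈ I, q.1 ^ m.factorization q.1

/-- the set of the prime factors of the order -/
noncomputable def ty {m : ℕ} (z : ZMod m) : Finset m.primeFactors := univ.filter fun q => q.1 ∣ addOrderOf z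

/-- the coordinates of the units `u` with `z = u * en (order of z)` -/
def InBox {m : ℕ} [NeZero m] (C : Co m) (z : ZMod m) (u : ∀ q : m.primeFactors, HH m q) : Prop :=
  ((C.E u : (ZMod m)ˣ) : ZMod m) * en m (addOrderOf z) = z ∧ ∀ q, q ∉ ty z → u q = 1

/-- the value of a system at a residue -/
noncomputable def ev {m : ℕ} [NeZero m] (C : Co m) {Q : Type} [AddCommGroup Q]
    (c : Finset m.primeFactors → (∀ q : m.primeFactors, HH m q) → Q) (z : ZMod m) : Q := by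
  classical
  exact ∑ u, if InBox C z u then c (ty z) u else 0

/-- the system of a distribution -/
noncomputable def sy {m : ℕ} [NeZero m] (C : Co m) (ℓ : m.primeFactors) {Q : Type} [AddCommGroup Q]
    (D : ZMod m → Q) (I : Finset m.primeFactors) (u : ∀ q : m.primeFactors, HH m q) : Q :=
  if ℓ ∈ I then D (((C.E u : (ZMod m)ˣ) : ZMod m) * en m (NI m I)) else 0

/-- (L1b) the relation of a distribution at a prime `q`, in coordinates -/
def S_nrel : Prop := ∀ (m : ℕ) [NeZero m], Odd m → ∀ (C : Co m) (Q : Type) [AddCommGroup Q]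
  (D : ZMod m → Q), OddDist D → ∀ (I : Finset m.primeFactors), ∀ q ∈ I,
  ∀ u : ∀ q : m.primeFactors, HH m q,
  NN q (fun v => D (((C.E v : (ZMod m)ˣ) : ZMod m) * en m (NI m I))) u =
    D (((C.E u : (ZMod m)ˣ) : ZMod m) * en m (NI m (I.erase q))) -
    D (((C.E ((C.d.τ q)⁻¹ * u) : (ZMod m)ˣ) : ZMod m) * en m (NI m (I.erase q)))

/-- (L2) from distributions to systems -/
def S_sy : Prop := ∀ (m : ℕ) [NeZero m], Odd m → ∀ (C : Co m) (ℓ : m.primeFactors) (Q : Type)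
  [AddCommGroup Q] (D : ZMod m → Q), OddDist D →
  Sys C.d ℓ (sy C ℓ D) ∧ Odd1 C.d (sy C ℓ D) ∧
  ∀ z : ZMod m, ℓ.1 ∣ addOrderOf z → ev C (sy C ℓ D) z = D z

/-- (L3) from systems to distributions -/
def S_rev : Prop := ∀ (m : ℕ) [NeZero m], Odd m → ∀ (C : Co m) (ℓ : m.primeFactors)
  (γ : Finset m.primeFactors → (∀ q : m.primeFactors, HH m q) → ℤ), Sys C.d ℓ γ → Odd1 C.d γ →
  (∀ A u, NN ℓ (γ A) u = 0) →
  OddDist (fun z : ZMod m => if ℓ.1 ∣ addOrderOf z then ev C γ z else 0)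

/-- (L4) the boxes of the elements of a multiset -/
def S_box : Prop := ∀ (m : ℕ) [NeZero m], Odd m → ∀ (C : Co m) (ℓ i3 : m.primeFactors)
  (K : Subgroup (HH m i3)) (s : Multiset (ZMod m)), Multiset.card s + 1 < ℓ.1 → ℓ.1 ≠ 3 →
  (∀ q : m.primeFactors, q.1 = 3 → q = i3) →
  (i3.1 = 3 → ∀ g : HH m i3, g ∈ K ↔ (g : ZMod (i3.1 ^ m.factorization i3.1)).val % 3 = 1) →
  ∃ (T : Type) (_ : Fintype T) (β : Bx C.d ℓ i3 K T), ∀ (Q : Type) [AddCommGroup Q]
    (c : Finset m.primeFactors → (∀ q : m.primeFactors, HH m q) → Q),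
    pair β.X c = ((s.filter fun z => ℓ.1 ∣ addOrderOf z).map (ev C c)).sum

/-- the element of the types `{ℓ, 3}` and `{ℓ}`, in terms of residues; `p` and `t` are the powers
of `ℓ` and `3` in `m` -/
noncomputable def BLg (m p t : ℕ) [NeZero p] [NeZero (p * t)] {Q : Type} [AddCommGroup Q]
    (c : ZMod m → Q) : Q :=
  (∑ a : (ZMod (p * t))ˣ,
    if 2 * ((a : ZMod (p * t)).val % p) < p ∧ (a : ZMod (p * t)).val % 3 = 1 then
      c (((a : ZMod (p * t)).val * (m / (p * t)) : ℕ) : ZMod m) else 0) +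
  ∑ a : (ZMod p)ˣ, if 2 * (-(a : ZMod p)).val < p ∧ ¬ 2 * (-(3 * (a : ZMod p))).val < p then
      c (((a : ZMod p).val * (m / p) : ℕ) : ZMod m) else 0

/-- the same for the powers in `m` -/
noncomputable def BLs (m ℓ : ℕ) [NeZero (ℓ ^ m.factorization ℓ)]
    [NeZero (ℓ ^ m.factorization ℓ * 3 ^ m.factorization 3)] {Q : Type} [AddCommGroup Q]
    (c : ZMod m → Q) : Q :=
  BLg m (ℓ ^ m.factorization ℓ) (3 ^ m.factorization 3) c

/-- (L5) `BLs` in terms of systems -/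
def S_bls : Prop := ∀ (m : ℕ) [NeZero m], Odd m → ∀ (C : Co m) (ℓ i3 : m.primeFactors)
  [NeZero (ℓ.1 ^ m.factorization ℓ.1)] [NeZero (ℓ.1 ^ m.factorization ℓ.1 * 3 ^ m.factorization 3)],
  i3.1 = 3 → ℓ.1 ≠ 3 → ∀ (K : Subgroup (HH m i3)) (R : Finset (HH m ℓ)),
  (∀ g : HH m i3, g ∈ K ↔ (g : ZMod (i3.1 ^ m.factorization i3.1)).val % 3 = 1) →
  (∀ g : HH m ℓ, g ∈ R ↔
    2 * (g : ZMod (ℓ.1 ^ m.factorization ℓ.1)).val < ℓ.1 ^ m.factorization ℓ.1) →
  ∀ (Q : Type) [AddCommGroup Q] (D : ZMod m → Q), pair (BL C.d ℓ i3 K R) (sy C ℓ D) = BLs m ℓ.1 D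

/-- (L6) the part of a short relation at a large prime -/
def S_conc : Prop := ∀ (m ℓ : ℕ) [NeZero m] [NeZero (ℓ ^ m.factorization ℓ)]
  [NeZero (ℓ ^ m.factorization ℓ * 3 ^ m.factorization 3)], Odd m → ℓ.Prime → ℓ ∣ m → ℓ ≠ 3 →
  ∀ s : Multiset (ZMod m), Multiset.card s + 1 < ℓ → Rel (fun z : ZMod m => (s.count z : ℤ)) →
  ∃ e : ℤ, (e = 0 ∨ (3 ∣ m ∧ (e = 1 ∨ e = -1))) ∧ ∀ (Q : Type) [AddCommGroup Q] (c : ZMod m → Q),
    OddDist c → ((s.filter fun z => ℓ ∣ addOrderOf z).map c).sum = e • BLs m ℓ c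

/-- (L7) twice `BLs` -/
def S_two2 : Prop := ∀ (m ℓ : ℕ) [NeZero m] [NeZero (ℓ ^ m.factorization ℓ)]
  [NeZero (ℓ ^ m.factorization ℓ * 3 ^ m.factorization 3)] [NeZero (3 ^ m.factorization 3)],
  Odd m → ℓ.Prime → ℓ ∣ m → ℓ ≠ 3 → 3 ∣ m → ∀ (Q : Type) [AddCommGroup Q] (c : ZMod m → Q),
  OddDist c → (2 : ℤ) • BLs m ℓ c = ∑ b : (ZMod (3 ^ m.factorization 3))ˣ,
    if (b : ZMod (3 ^ m.factorization 3)).val % 3 = 1 then
      c (((b : ZMod (3 ^ m.factorization 3)).val * (m / 3 ^ m.factorization 3) : ℕ) : ZMod m) -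
      c (((((ℓ : ℕ) : ZMod (3 ^ m.factorization 3))⁻¹ * (b : ZMod (3 ^ m.factorization 3))).val *
        (m / 3 ^ m.factorization 3) : ℕ) : ZMod m)
    else 0

/-- (L8) the arithmetic condition excludes `e = 1` and `e = -1` -/
def S_kill : Prop := ∀ (m ℓ : ℕ) [NeZero m] [NeZero (ℓ ^ m.factorization ℓ)]
  [NeZero (ℓ ^ m.factorization ℓ * 3 ^ m.factorization 3)], Odd m → ℓ.Prime → ℓ ∣ m → ℓ ≠ 3 →
  3 ∣ m → ∀ s : Multiset (ZMod m), Rel (fun z : ZMod m => (s.count z : ℤ)) →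
  CD m (fun z : ZMod m => (s.count z : ℤ)) →
  ∀ e : ℤ, (e = 1 ∨ e = -1) →
  ¬ ∀ (Q : Type) [AddCommGroup Q] (c : ZMod m → Q),
    OddDist c → ((s.filter fun z => ℓ ∣ addOrderOf z).map c).sum = e • BLs m ℓ c

/-- (L9) large primes can be removed -/
def S_rem : Prop := ∀ (m ℓ : ℕ) [NeZero m], Odd m → ℓ.Prime → ℓ ∣ m → ℓ ≠ 3 →
  ∀ s : Multiset (ZMod m), Multiset.card s + 1 < ℓ → Rel (fun z : ZMod m => (s.count z : ℤ)) →
  CD m (fun z : ZMod m => (s.count z : ℤ)) →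
  (∀ (Q : Type) [AddCommGroup Q] (c : ZMod m → Q), OddDist c →
    ((s.filter fun z => ℓ ∣ addOrderOf z).map c).sum = 0) ∧
  Rel (fun z : ZMod m => ((s.filter fun z => ¬ ℓ ∣ addOrderOf z).count z : ℤ)) ∧
  CD m (fun z : ZMod m => ((s.filter fun z => ¬ ℓ ∣ addOrderOf z).count z : ℤ))

/-- (L10) transfer of the criterion to a lower level, when the quotient of the levels is prime to
the remaining primes -/
def S_lev : Prop := ∀ (m m0 k : ℕ) [NeZero m] [NeZero m0], Odd m → k * m0 = m → k.Coprime m0 →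
  ∀ s0 : Multiset (ZMod m0),
  (Rel (fun z : ZMod m => ((s0.map (iota k : ZMod m0 → ZMod m)).count z : ℤ)) →
    Rel (fun z : ZMod m0 => (s0.count z : ℤ))) ∧
  (CD m (fun z : ZMod m => ((s0.map (iota k : ZMod m0 → ZMod m)).count z : ℤ)) →
    CD m0 (fun z : ZMod m0 => (s0.count z : ℤ)))

/-- (L11) the combinatorial theorem -/
def S_small : Prop := ∀ (m k : ℕ) [NeZero m], Odd m →
  (m.primeFactors.filter fun p => p ≤ k + 1).card ≤ 3 →
  ∀ s : Multiset (ZMod m), Multiset.card s ≤ k → Rel (fun z : ZMod m => (s.count z : ℤ)) →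
  CD m (fun z : ZMod m => (s.count z : ℤ)) →
  ∀ (Q : Type) [AddCommGroup Q] (c : ZMod m → Q), OddDist c → (s.map c).sum = 0

/-- (L12) from level `m` to level `4 * m` -/
def S_up : Prop := ∀ m : ℕ, Odd m → ∀ s : Multiset (ZMod m × ℤ), WeakClass m s →
  WeakClass (4 * m) (s.map fun z => ((iota 4 z.1 : ZMod (4 * m)), z.2))

/-- (L13) the criterion at level `4 * m` gives the criterion at level `m` -/
def S_cecd : Prop := ∀ (m : ℕ) [NeZero m] [NeZero (4 * m)], Odd m → ∀ s : Multiset (ZMod m),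
  CEall (4 * m) (fun z => ((s.map (iota 4 : ZMod m → ZMod (4 * m))).count z : ℤ)) →
  CD m (fun z => (s.count z : ℤ))

end Pool.Agent.NH35.HK
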