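import Mathlib

/-! Systems of functions on a product of finite abelian groups: statements.

`ι` is the set of the prime factors `q` of an odd number `m`, `H q` is the group of units of the
ring of integers modulo the power of `q` in `m`. A distribution on the integers modulo `m` gives a
function on the product of the groups `H q` for every set `I` of primes (its values at the elements
of order `∏ q ∈ I, q ^ A q`); the functions satisfy the relations of `Sys`. -/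

set_option autoImplicit false
set_option linter.unusedSectionVars false

namespace Pool.Agent.NH35.HK

open Finset

variable {ι : Type} [Fintype ι] [DecidableEq ι] {H : ι → Type} [∀ i, CommGroup (H i)]
  [∀ i, Fintype (H i)] [∀ i, DecidableEq (H i)]

/-- the function depends only on the coordinates in `I` -/
def Dep (I : Finset ι) {Q : Type} (f : (∀ i, H i) → Q) : Prop :=
  ∀ u v : ∀ i, H i, (∀ i ∈ I, u i = v i) → f u = f v

/-- the sum over one coordinate -/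
def NN (q : ι) {Q : Type} [AddCommGroup Q] (f : (∀ i, H i) → Q) (u : ∀ i, H i) : Q :=
  ∑ s : H q, f (Function.update u q s)

/-- the Frobenius elements and minus one -/
structure Dat (H : ι → Type) [∀ i, CommGroup (H i)] where
  τ : ι → ∀ i, H i
  κ : ∀ i, H i
  hτ : ∀ i, τ i i = 1
  hκ : κ * κ = 1
  hκ1 : ∀ i, κ i ≠ 1

/-- systems of functions; there is no condition at the sum over the coordinate `ℓ` -/
structure Sys (d : Dat H) (ℓ : ι) {Q : Type} [AddCommGroup Q]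
    (c : Finset ι → (∀ i, H i) → Q) : Prop where
  dep : ∀ I, Dep I (c I)
  sup : ∀ I, ℓ ∉ I → c I = 0
  rel : ∀ I, ∀ q ∈ I, q ≠ ℓ → ∀ u,
    NN q (c I) u = c (I.erase q) u - c (I.erase q) ((d.τ q)⁻¹ * u)

/-- odd systems -/
def Odd1 (d : Dat H) {Q : Type} [AddCommGroup Q] (c : Finset ι → (∀ i, H i) → Q) : Prop :=
  ∀ I u, c I (d.κ * u) = - c I u

/-- the pairing -/
def pair {Q : Type} [AddCommGroup Q] (X : Finset ι → (∀ i, H i) → ℤ)
    (c : Finset ι → (∀ i, H i) → Q) : Q :=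
  ∑ I : Finset ι, ∑ u : ∀ i, H i, X I u • c I u

/-- twice the odd part -/
def Od (d : Dat H) {Q : Type} [AddCommGroup Q] (c : Finset ι → (∀ i, H i) → Q)
    (I : Finset ι) (u : ∀ i, H i) : Q :=
  c I u - c I (d.κ * u)

/-- the product of the Frobenius elements -/
def pr (d : Dat H) (B : Finset ι) : ∀ i, H i := ∏ b ∈ B, d.τ b

/-- the extension of a function on `∏ i ∈ I, H i` to a system, with base point `w` -/
def Ext (d : Dat H) (I : Finset ι) (w : ∀ i, H i) {Q : Type} [AddCommGroup Q]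
    (F : (∀ i, H i) → Q) (A : Finset ι) (u : ∀ i, H i) : Q :=
  if I ⊆ A then ∑ B ∈ (A \ I).powerset, (-1 : ℤ) ^ B.card •
    (if ∀ q ∈ A \ I, u q = pr d B q * w q then F ((pr d B)⁻¹ * u) else 0) else 0

/-- the functions on `∏ i ∈ I, H i` with zero sums over the coordinates different from `ℓ` -/
structure Tst (ℓ : ι) (I : Finset ι) {Q : Type} [AddCommGroup Q] (F : (∀ i, H i) → Q) : Prop where
  dep : Dep I F
  nul : ∀ q ∈ I, q ≠ ℓ → ∀ u, NN q F u = 0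

/-- (K1) the extension is a system -/
def S_ext : Prop := ∀ (ι : Type) [Fintype ι] [DecidableEq ι] (H : ι → Type) [∀ i, CommGroup (H i)]
  [∀ i, Fintype (H i)] [∀ i, DecidableEq (H i)] (d : Dat H) (ℓ : ι) (I : Finset ι), ℓ ∈ I →
  ∀ (w : ∀ i, H i) (Q : Type) [AddCommGroup Q] (F : (∀ i, H i) → Q), Tst ℓ I F →
  Sys d ℓ (Ext d I w F) ∧ Sys d ℓ (Od d (Ext d I w F)) ∧ Odd1 d (Od d (Ext d I w F)) ∧
  (∀ u, Od d (Ext d I w F) I u = F u - F (d.κ * u)) ∧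
  (∀ A, ¬ I ⊆ A → Od d (Ext d I w F) A = 0) ∧
  ((∀ u, NN ℓ F u = 0) → ∀ A u, NN ℓ (Ext d I w F A) u = 0 ∧
    NN ℓ (Od d (Ext d I w F) A) u = 0) ∧
  Od d (Ext d I w (fun u => F (d.κ * u))) = - Od d (Ext d I (d.κ * w) F)

/-- (K2) decomposition of systems; `R` is a set of representatives -/
def S_dec : Prop := ∀ (ι : Type) [Fintype ι] [DecidableEq ι] (H : ι → Type) [∀ i, CommGroup (H i)]
  [∀ i, Fintype (H i)] [∀ i, DecidableEq (H i)] (d : Dat H) (ℓ : ι) (R : Finset (H ℓ)),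
  (∀ s, s ∈ R ↔ d.κ ℓ * s ∉ R) → ∀ (Q : Type) [AddCommGroup Q]
  (γ : Finset ι → (∀ i, H i) → Q), Sys d ℓ γ → Odd1 d γ → ∀ k : ℕ, (∀ A, A.card < k → γ A = 0) →
  (∀ I : Finset ι, I.card = k → Tst ℓ I (fun u => if u ℓ ∈ R then γ I u else 0)) ∧
  ∃ γ' : Finset ι → (∀ i, H i) → Q, Sys d ℓ γ' ∧ Odd1 d γ' ∧ (∀ A, A.card ≤ k → γ' A = 0) ∧
    ∀ A u, γ A u = (∑ I ∈ (univ.powersetCard k).filter (fun I => ℓ ∈ I),
      Od d (Ext d I 1 (fun u => if u ℓ ∈ R then γ I u else 0)) A u) + γ' A u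

/-- (K3) every system is a combination of integral systems -/
def S_a1 : Prop := ∀ (ι : Type) [Fintype ι] [DecidableEq ι] (H : ι → Type) [∀ i, CommGroup (H i)]
  [∀ i, Fintype (H i)] [∀ i, DecidableEq (H i)] (d : Dat H) (ℓ : ι)
  (X : Finset ι → (∀ i, H i) → ℤ),
  (∀ γ : Finset ι → (∀ i, H i) → ℤ, Sys d ℓ γ → Odd1 d γ → pair X γ = 0) →
  ∀ (Q : Type) [AddCommGroup Q] (c : Finset ι → (∀ i, H i) → Q), Sys d ℓ c → Odd1 d c →
    pair X c = 0

/-- a family of boxes: the box `t` is of type `A t`, it consists of the `u` with `u i ∈ b t i` for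
`i ∈ A t` and `u i = 1` otherwise; `K` is a subgroup of `H i3` with two cosets (the residues which
are congruent to one modulo three); if three does not divide `m`, take `i3 = ℓ` -/
structure Bx (d : Dat H) (ℓ i3 : ι) (K : Subgroup (H i3)) (T : Type) [Fintype T] where
  A : T → Finset ι
  b : T → ∀ i, Finset (H i)
  ε : T → ℤ
  hε : ∀ t, ε t = 1 ∨ ε t = -1
  hℓ : ∀ t, ℓ ∈ A t
  hsmall : ∀ t, Fintype.card T * (b t ℓ).card < Fintype.card (H ℓ)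
  hne : ∀ t, ∀ i ∈ A t, (b t i).Nonempty
  hdis : ∀ t, ∀ i ∈ A t, ∀ s ∈ b t i, d.κ i * s ∉ b t i
  hcov : ∀ t, ∀ i ∈ A t, i ≠ ℓ → (∃ s, s ∉ b t i ∧ d.κ i * s ∉ b t i) ∨
    ∃ h : i = i3, ∃ g : H i, ∀ s, s ∈ b t i ↔ (h ▸ (g * s) : H i3) ∈ K

/-- the element attached to a family of boxes -/
noncomputable def Bx.X {d : Dat H} {ℓ i3 : ι} {K : Subgroup (H i3)} {T : Type} [Fintype T]
    (β : Bx d ℓ i3 K T) (I : Finset ι) (u : ∀ i, H i) : ℤ := by
  classical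
  exact ∑ t, if β.A t = I ∧ (∀ i ∈ I, u i ∈ β.b t i) ∧ (∀ i, i ∉ I → u i = 1) then β.ε t else 0

/-- the sum over a box -/
noncomputable def bsum (J : Finset ι) (a : ∀ i, Finset (H i)) (F : (∀ i, H i) → ℤ) : ℤ := by
  classical
  exact ∑ u : ∀ i, H i, if (∀ i ∈ J, u i ∈ a i) ∧ (∀ i, i ∉ J → u i = 1) then F u else 0

/-- (K4) there is a base point for which at most one box contributes -/
def S_hit : Prop := ∀ (ι : Type) [Fintype ι] [DecidableEq ι] (H : ι → Type) [∀ i, CommGroup (H i)]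
  [∀ i, Fintype (H i)] [∀ i, DecidableEq (H i)] (d : Dat H) (ℓ i3 : ι) (K : Subgroup (H i3))
  (T : Type) [Fintype T] (β : Bx d ℓ i3 K T) (I : Finset ι), ℓ ∈ I →
  ∃ w : ∀ i, H i,
    (∀ F : (∀ i, H i) → ℤ, Dep (I.erase ℓ) F →
      pair β.X (Od d (Ext d I w (fun u => if u ℓ = w ℓ then F u else 0))) = 0) ∨
    ∃ (e : ℤ) (t : T) (g : ∀ i, H i), (e = 1 ∨ e = -1) ∧ I ⊆ β.A t ∧
    ∀ F : (∀ i, H i) → ℤ, Dep (I.erase ℓ) F →
      pair β.X (Od d (Ext d I w (fun u => if u ℓ = w ℓ then F u else 0))) =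
        e * bsum (I.erase ℓ) (fun i => (β.b t i).map (Equiv.mulLeft (g i)).toEmbedding) F

/-- (K5) a function which separates a box from the opposite box -/
def S_sep : Prop := ∀ (ι : Type) [Fintype ι] [DecidableEq ι] (H : ι → Type) [∀ i, CommGroup (H i)]
  [∀ i, Fintype (H i)] [∀ i, DecidableEq (H i)] (d : Dat H) (J : Finset ι)
  (a : ∀ i, Finset (H i)), (∀ i ∈ J, (a i).Nonempty) → (∀ i ∈ J, ∀ s ∈ a i, d.κ i * s ∉ a i) →
  ∀ i0 ∈ J, (∃ s, s ∉ a i0 ∧ d.κ i0 * s ∉ a i0) →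
  ∃ F : (∀ i, H i) → ℤ, Dep J F ∧ (∀ q ∈ J, ∀ u, NN q F u = 0) ∧ bsum J a F = 1 ∧
    bsum J a (fun u => F (d.κ * u)) = 0

/-- (K6) the leading terms; the hypotheses say that `β.X` is killed by the integral odd systems
which vanish on all sets with at most `I.card` elements, and by all integral odd systems with zero
sums over the coordinate `ℓ` -/
def S_top : Prop := ∀ (ι : Type) [Fintype ι] [DecidableEq ι] (H : ι → Type) [∀ i, CommGroup (H i)]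
  [∀ i, Fintype (H i)] [∀ i, DecidableEq (H i)] (d : Dat H) (ℓ i3 : ι) (K : Subgroup (H i3))
  (T : Type) [Fintype T] (β : Bx d ℓ i3 K T) (I : Finset ι),
  (i3 ≠ ℓ → ∀ s, s ∈ K ↔ d.κ i3 * s ∉ K) → ℓ ∈ I →
  (∀ γ : Finset ι → (∀ i, H i) → ℤ, Sys d ℓ γ → Odd1 d γ → (∀ A, A.card ≤ I.card → γ A = 0) →
    pair β.X γ = 0) →
  (∀ γ : Finset ι → (∀ i, H i) → ℤ, Sys d ℓ γ → Odd1 d γ → (∀ A u, NN ℓ (γ A) u = 0) →
    pair β.X γ = 0) →
  ∃ e : ℤ, (e = 0 ∨ (i3 ≠ ℓ ∧ I = {ℓ, i3} ∧ (e = 1 ∨ e = -1))) ∧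
    ∀ (w : ∀ i, H i) (F : (∀ i, H i) → ℤ), Tst ℓ I F → pair β.X (Od d (Ext d I w F)) =
      e * ∑ u : ∀ i, H i, (open Classical in
        if u i3 ∈ K ∧ (∀ i, i ≠ ℓ → i ≠ i3 → u i = 1) then F u else 0)

/-- the element of the types `{ℓ, i3}` and `{ℓ}` -/
noncomputable def BL (d : Dat H) (ℓ i3 : ι) (K : Subgroup (H i3)) (R : Finset (H ℓ))
    (I : Finset ι) (u : ∀ i, H i) : ℤ := by
  classical
  exact if i3 = ℓ then 0 else
    (if I = {ℓ, i3} ∧ u ℓ ∈ R ∧ u i3 ∈ K ∧ (∀ i, i ≠ ℓ → i ≠ i3 → u i = 1) then 1 else 0) +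
    (if I = {ℓ} ∧ d.κ ℓ * u ℓ ∈ R ∧ d.κ ℓ * d.τ i3 ℓ * u ℓ ∉ R ∧ (∀ i, i ≠ ℓ → u i = 1) then 1
      else 0)

/-- (K7) the sum over the sums over the coordinate `ℓ` -/
def S_bl : Prop := ∀ (ι : Type) [Fintype ι] [DecidableEq ι] (H : ι → Type) [∀ i, CommGroup (H i)]
  [∀ i, Fintype (H i)] [∀ i, DecidableEq (H i)] (d : Dat H) (ℓ i3 : ι) (K : Subgroup (H i3))
  (R : Finset (H ℓ)), (∀ s, s ∈ K ↔ d.κ i3 * s ∉ K) → (∀ s, s ∈ R ↔ d.κ ℓ * s ∉ R) → i3 ≠ ℓ →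
  ∀ (Q : Type) [AddCommGroup Q] (c : Finset ι → (∀ i, H i) → Q), Sys d ℓ c →
    pair (BL d ℓ i3 K R) (Od d c) = ∑ u : ∀ i, H i, (open Classical in
      if u i3 ∈ K ∧ (∀ i, i ≠ ℓ → i ≠ i3 → u i = 1) then c {ℓ, i3} u else 0)

/-- (K8) the main statement on systems -/
def S_abs : Prop := ∀ (ι : Type) [Fintype ι] [DecidableEq ι] (H : ι → Type) [∀ i, CommGroup (H i)]
  [∀ i, Fintype (H i)] [∀ i, DecidableEq (H i)] (d : Dat H) (ℓ i3 : ι) (K : Subgroup (H i3))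
  (R : Finset (H ℓ)) (T : Type) [Fintype T] (β : Bx d ℓ i3 K T),
  (i3 ≠ ℓ → ∀ s, s ∈ K ↔ d.κ i3 * s ∉ K) → (∀ s, s ∈ R ↔ d.κ ℓ * s ∉ R) →
  (∀ γ : Finset ι → (∀ i, H i) → ℤ, Sys d ℓ γ → Odd1 d γ → (∀ A u, NN ℓ (γ A) u = 0) →
    pair β.X γ = 0) →
  ∃ e : ℤ, (e = 0 ∨ (i3 ≠ ℓ ∧ (e = 1 ∨ e = -1))) ∧ ∀ (Q : Type) [AddCommGroup Q]
    (c : Finset ι → (∀ i, H i) → Q), Sys d ℓ c → Odd1 d c →
    pair β.X c = e • pair (BL d ℓ i3 K R) c

end Pool.Agent.NH35.HK
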